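import Pool.Agent.W76.BK.Mot
import Pool.Agent.W189.ML.Sector

/-! The correction between the central Euler factors and the traces is bounded in a sector. -/

set_option autoImplicit false

namespace Pool.Agent.W76.BK.MotG

open Complex MeasureTheory Filter Topology Set
open Pool.Agent.W189.ML Pool.Agent.W189.LC Pool.Agent.W76.BK Pool.Agent.W76.BK.Mot
open Pool.Agent.H341R2 (NormSys)
open Pool.Agent.W263.EP (TData hh xx gt GG cc hh_pos hh_sq pow_hh_le N_real_two norm_xx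
  prod_summable gt_real GG_im norm_xx_le_one xx_diff)

variable {S : NormSys} {t : S.X → ℕ → ℝ} {D : ℝ}

theorem lam_diff_all (S : NormSys) : ∃ C : ℝ, 0 ≤ C ∧ ∀ σ : ℝ, 0 < σ →
    S.lam (σ / 2) - S.lam σ ≤ C := by
  obtain ⟨C, hC⟩ := Pool.Agent.W263.EP.lam_diff S
  rw [eventually_nhdsWithin_iff, Metric.eventually_nhds_iff] at hC
  obtain ⟨δ, hδ, h⟩ := hC
  have hnn : ∀ σ : ℝ, 0 ≤ S.lam σ := fun σ => tsum_nonneg fun p => by positivity
  refine ⟨max C (S.lam (δ / 2)), (hnn _).trans (le_max_right _ _), fun σ hσ => ?_⟩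
  by_cases h1 : σ / 2 < δ
  · have h2 := h (y := σ / 2) (by
      rw [Real.dist_eq, sub_zero, abs_of_pos (by positivity)]
      exact h1) (show (0 : ℝ) < σ / 2 by positivity)
    rw [show 2 * (σ / 2) = σ by ring] at h2
    exact h2.trans (le_max_left _ _)
  · push Not at h1
    refine le_trans ?_ (le_max_right _ _)
    have h2 : S.lam (σ / 2) ≤ S.lam (δ / 2) := by
      unfold NormSys.lam
      refine Summable.tsum_le_tsum (fun p => ?_) (S.summable _ (by linarith))
        (S.summable _ (by linarith))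
      exact Real.rpow_le_rpow_of_exponent_le (by linarith [N_real_two p]) (by linarith)
    have := hnn σ
    linarith

theorem xx_eq (x : S.X) (w : ℂ) : xx S x w = exp (-(w * Real.log (S.N x))) := by
  unfold xx
  rw [Complex.cpow_def_of_ne_zero (S.N_ne x), ← Complex.natCast_log]
  congr 1
  ring

theorem log_pos' (x : S.X) : 0 ≤ Real.log (S.N x) := by
  have := N_real_two x
  exact Real.log_nonneg (by linarith)

theorem rpow_eq (x : S.X) (a : ℝ) : (S.N x : ℝ) ^ a = Real.exp (a * Real.log (S.N x)) := by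
  rw [Real.rpow_def_of_pos (S.N_pos x), mul_comm]

theorem key_real (y : ℝ) : y * Real.exp (-y) ≤ 2 * (Real.exp (-(y / 2)) - Real.exp (-y)) := by
  have h1 := Real.add_one_le_exp (y / 2)
  have h2 : Real.exp (-(y / 2)) = Real.exp (-y) * Real.exp (y / 2) := by
    rw [← Real.exp_add]; congr 1; ring
  have h3 := Real.exp_pos (-y)
  rw [h2]
  nlinarith

/-- the terms with `m = 1` -/
theorem gt_one_le (E : TData S t D) (x : S.X) {w : ℂ} (hw : 0 < w.re) (hw5 : ‖w‖ ≤ 5 * w.re) :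
    ‖gt S t (x, 1) w‖ ≤ (10 * D) * ((S.N x : ℝ) ^ (-(1 + w.re / 2)) - (S.N x : ℝ) ^ (-(1 + w.re))) := by
  have hD := E.nonneg
  set l := Real.log (S.N x) with hl
  have hl0 : 0 ≤ l := log_pos' x
  have e2 := E.coeff_norm x 1
  rw [show 1 + 1 = 2 by norm_num, hh_sq] at e2
  unfold gt
  simp only [show 1 + 1 = 2 by norm_num]
  rw [norm_mul, norm_neg]
  have e3 : xx S x w - xx S x w ^ 2 = -(xx S x w * (exp (-(w * l)) - 1)) := by
    rw [← xx_eq]
    ring
  have e4 : ‖exp (-(w * l)) - 1‖ ≤ 5 * (w.re * l) := by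
    refine (norm_exp_sub_one_le_of_re ?_).trans ?_
    · rw [Complex.neg_re, Complex.re_mul_ofReal]
      have : 0 ≤ w.re * l := by positivity
      linarith
    · rw [norm_neg, norm_mul, Complex.norm_real, Real.norm_of_nonneg hl0]
      nlinarith
  have e5 : ‖xx S x w‖ = Real.exp (-(w.re * l)) := by
    rw [norm_xx, rpow_eq]
    congr 1
    ring
  have e6 := key_real (w.re * l)
  rw [e3, norm_neg, norm_mul, e5]
  have e7 : (S.N x : ℝ) ^ (-(1 + w.re / 2)) - (S.N x : ℝ) ^ (-(1 + w.re)) =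
      (S.N x : ℝ) ^ (-1 : ℝ) * (Real.exp (-(w.re * l / 2)) - Real.exp (-(w.re * l))) := by
    rw [rpow_eq, rpow_eq, rpow_eq, ← hl, mul_sub, ← Real.exp_add, ← Real.exp_add]
    congr 2 <;> ring
  rw [e7]
  have hN1 : 0 ≤ (S.N x : ℝ) ^ (-1 : ℝ) := by positivity
  calc ‖(t x 2 : ℂ) / ((1 : ℕ) + 1)‖ * (Real.exp (-(w.re * l)) * ‖exp (-(w * l)) - 1‖) ≤
        (D * (S.N x : ℝ) ^ (-1 : ℝ)) * (Real.exp (-(w.re * l)) * (5 * (w.re * l))) := by
          gcongr
    _ = (D * (S.N x : ℝ) ^ (-1 : ℝ) * 5) * (w.re * l * Real.exp (-(w.re * l))) := by ring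
    _ ≤ (D * (S.N x : ℝ) ^ (-1 : ℝ) * 5) *
        (2 * (Real.exp (-(w.re * l / 2)) - Real.exp (-(w.re * l)))) := by
          refine mul_le_mul_of_nonneg_left e6 (by positivity)
    _ = _ := by ring

/-- the correction is bounded in the sector -/
theorem GG_sector (E : TData S t D) : ∃ C : ℝ, ∀ w : ℂ, 0 < w.re → ‖w‖ ≤ 5 * w.re →
    ‖GG S t w‖ ≤ C := by
  have hD := E.nonneg
  obtain ⟨C, hC0, hC⟩ := lam_diff_all S
  set b2 : S.X × ℕ → ℝ := fun p => (2 * D) * ((S.N p.1 : ℝ) ^ (-(3 / 2) : ℝ) * (3 / 4 : ℝ) ^ (p.2 - 2))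
    with hb2
  have hb2s : Summable b2 := prod_summable S (by norm_num) (2 * D) 2
  refine ⟨10 * D * C + ∑' p, b2 p, fun w hw hw5 => ?_⟩
  have hlamw : Summable fun x : S.X => (S.N x : ℝ) ^ (-(1 + w.re / 2)) := S.summable _ (by linarith)
  have hlam2 : Summable fun x : S.X => (S.N x : ℝ) ^ (-(1 + w.re)) := S.summable _ (by linarith)
  have hdnn : ∀ x : S.X, 0 ≤ (S.N x : ℝ) ^ (-(1 + w.re / 2)) - (S.N x : ℝ) ^ (-(1 + w.re)) := fun x => by
    have := Real.rpow_le_rpow_of_exponent_le (x := (S.N x : ℝ)) (by linarith [N_real_two x])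
      (show -(1 + w.re) ≤ -(1 + w.re / 2) by linarith)
    linarith
  set b1 : S.X × ℕ → ℝ := fun p => ((10 * D) * ((S.N p.1 : ℝ) ^ (-(1 + w.re / 2)) -
    (S.N p.1 : ℝ) ^ (-(1 + w.re)))) * (if p.2 = 1 then 1 else 0) with hb1
  have hind : HasSum (fun m : ℕ => (if m = 1 then (1 : ℝ) else 0)) 1 := hasSum_ite_eq 1 1
  have hb1s : HasSum b1 (((10 * D) * (S.lam (w.re / 2) - S.lam w.re)) * 1) := by
    have e1 : HasSum (fun x : S.X => (10 * D) * ((S.N x : ℝ) ^ (-(1 + w.re / 2)) -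
        (S.N x : ℝ) ^ (-(1 + w.re)))) ((10 * D) * (S.lam (w.re / 2) - S.lam w.re)) :=
      (hlamw.hasSum.sub hlam2.hasSum).mul_left (10 * D)
    have hs : Summable fun p : S.X × ℕ =>
        ((10 * D) * ((S.N p.1 : ℝ) ^ (-(1 + w.re / 2)) - (S.N p.1 : ℝ) ^ (-(1 + w.re)))) *
        (if p.2 = 1 then (1 : ℝ) else 0) := by
      refine Summable.mul_of_nonneg
        (f := fun x : S.X => (10 * D) * ((S.N x : ℝ) ^ (-(1 + w.re / 2)) -
          (S.N x : ℝ) ^ (-(1 + w.re))))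
        (g := fun m : ℕ => (if m = 1 then (1 : ℝ) else 0)) e1.summable hind.summable ?_ ?_
      · intro x; exact mul_nonneg (by positivity) (hdnn x)
      · intro m; positivity
    exact e1.mul hind hs
  rw [mul_one] at hb1s
  have hle : ∀ p, ‖gt S t p w‖ ≤ b1 p + b2 p := by
    rintro ⟨x, m⟩
    have hb20 : 0 ≤ b2 (x, m) := by rw [hb2]; positivity
    have hb10 : 0 ≤ b1 (x, m) := by
      rw [hb1]
      exact mul_nonneg (mul_nonneg (by positivity) (hdnn x)) (by positivity)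
    match m with
    | 0 => rw [TData.gt_zero, norm_zero]; linarith
    | 1 =>
      have e1 : ‖gt S t (x, 1) w‖ ≤ b1 (x, 1) := by
        rw [hb1]
        simp only [if_true, mul_one]
        exact gt_one_le E x hw hw5
      linarith
    | (m + 2) =>
      have e1 : ‖gt S t (x, m + 2) w‖ ≤ b2 (x, m + 2) := by
        refine (E.gt_abs (x, m + 2) le_rfl hw.le).trans ?_
        rw [neg_zero, Real.rpow_zero, mul_one]
        have e2 := pow_hh_le (S := S) x (show 2 ≤ m + 2 by omega)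
        have e3 : Pool.Agent.W263.EP.hh S x ^ (2 + 1) = (S.N x : ℝ) ^ (-(3 / 2) : ℝ) := by
          unfold Pool.Agent.W263.EP.hh
          rw [← Real.rpow_natCast, ← Real.rpow_mul (S.N_pos x).le]
          norm_num
        rw [e3] at e2
        rw [hb2]
        simp only []
        calc D * Pool.Agent.W263.EP.hh S x ^ (m + 2 + 1) * 2 ≤
            D * ((S.N x : ℝ) ^ (-(3 / 2) : ℝ) * (3 / 4 : ℝ) ^ (m + 2 - 2)) * 2 := by gcongr
          _ = _ := by ring
      linarith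
  have h3 : ‖GG S t w‖ ≤ 10 * D * (S.lam (w.re / 2) - S.lam w.re) + ∑' p, b2 p := by
    unfold GG
    exact tsum_of_norm_bounded (hb1s.add hb2s.hasSum) hle
  have h4 := mul_le_mul_of_nonneg_left (hC w.re hw) (show 0 ≤ 10 * D by positivity)
  linarith

/-- the logarithms of the norms -/
noncomputable def lamR (S : NormSys) (x : S.X) : ℝ := Real.log (S.N x)

theorem sdataR (E : TData S t D) : SData (lamR S) (cc S t) (GG S t) where
  lam_pos := log_pos'
  sum := by
    refine (E.cc_summable (w := 2) (by norm_num)).congr fun x => ?_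
    rw [rpow_eq]
    unfold lamR
    congr 2
    ring
  Gd := fun w hw => E.GG_diff hw
  Gb := GG_sector E
  G2 := by
    have := GG_im (S := S) (t := t) 2
    simpa using this

/-- the complex identity -/
theorem LL_ser (E : TData S t D) {w : ℂ} (hw : 1 / 2 < w.re) :
    GG S t w - ser (lamR S) (cc S t) w = Pool.Agent.W263.EP.LL S t w := by
  have hD := E.nonneg
  have h1 := (E.gt_summable (w := w) (by linarith : 0 < w.re)).hasSum
  have h2 := (E.LL_summable hw).hasSum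
  have h3 : Summable fun p : S.X × ℕ =>
      ((-(t p.1 (p.2 + 1) / (p.2 + 1)) : ℝ) : ℂ) * xx S p.1 w := by
    refine Summable.of_norm_bounded (prod_summable S (show -(1 / 2) - w.re < -1 by linarith) D 0)
      fun p => ?_
    rw [norm_mul, Complex.norm_real, norm_neg, Real.norm_eq_abs, norm_xx]
    have e1 := E.coeff_le' p.1 p.2
    calc |t p.1 (p.2 + 1) / (p.2 + 1)| * (S.N p.1 : ℝ) ^ (-w.re) ≤
          (D * Pool.Agent.W263.EP.hh S p.1 * (3 / 4 : ℝ) ^ p.2) * (S.N p.1 : ℝ) ^ (-w.re) :=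
          mul_le_mul_of_nonneg_right e1 (by positivity)
      _ = D * ((Pool.Agent.W263.EP.hh S p.1 * (S.N p.1 : ℝ) ^ (-w.re)) * (3 / 4 : ℝ) ^ p.2) := by ring
      _ = _ := by rw [Pool.Agent.W263.EP.hh_mul, Nat.sub_zero]
  have h4 : ∑' p : S.X × ℕ, ((-(t p.1 (p.2 + 1) / (p.2 + 1)) : ℝ) : ℂ) * xx S p.1 w =
      ser (lamR S) (cc S t) w := by
    rw [h3.tsum_prod]
    unfold ser
    refine tsum_congr fun x => ?_
    simp only []
    rw [tsum_mul_right, xx_eq]
    congr 1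
    rw [← Complex.ofReal_tsum, (E.cc_hasSum x).tsum_eq]
  have h7 := h1.sub h3.hasSum
  have h8 : (fun p : S.X × ℕ => gt S t p w -
      ((-(t p.1 (p.2 + 1) / (p.2 + 1)) : ℝ) : ℂ) * xx S p.1 w) =
      fun p : S.X × ℕ => (t p.1 (p.2 + 1) : ℂ) / (p.2 + 1) * xx S p.1 w ^ (p.2 + 1) := by
    funext p
    unfold gt
    push_cast
    ring
  rw [h8] at h7
  have h9 := h2.unique h7
  have h10 : Pool.Agent.W263.EP.LL S t w = ∑' p : S.X × ℕ, (t p.1 (p.2 + 1) : ℂ) / (p.2 + 1) *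
    xx S p.1 w ^ (p.2 + 1) := rfl
  rw [h10, h9, h4]
  rfl

end Pool.Agent.W76.BK.MotG
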