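import Pool.Agent.W76.BK.Mot

/-! Rotated Mittag-Leffler sums of Frobenius traces with finitely many arbitrary Euler factors. -/

set_option autoImplicit false

namespace Pool.Agent.W76.BK.MotK

open Complex MeasureTheory Filter Topology Set Classical
open Pool.Agent.W189.ML Pool.Agent.W189.LC Pool.Agent.W76.BK Pool.Agent.W76.BK.Mot
open Pool.Agent.H341R2 (NormSys)
open Pool.Agent.W263.EP (TData tn hh xx LFB LF BB tdata LF_eq LFB_eq BB_diff)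

/-- the term of the place `v` and the exponent `j = k + 1` -/
noncomputable def rotTerm (S : NormSys) (Bs : Finset S.X) (tr : S.X → ℕ → ℝ) (ω : ℝ) (T : ℝ)
    (x : S.X × ℕ) : ℂ :=
  if x.1 ∈ Bs then 0 else
    -((tr x.1 (x.2 + 1) * (S.N x.1 : ℝ) ^ (-(((x.2 : ℝ) + 1) * ((ω + 1) / 2))) : ℝ) : ℂ) /
      ((x.2 + 1) * Complex.Gamma (1 + (1 + I / Real.sqrt T) *
        ((x.2 + 1) * Real.log (S.N x.1 : ℝ) / T)))

/-- the smoothed logarithm of the product of the inverse Euler factors at the centre -/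
noncomputable def rotSum (S : NormSys) (Bs : Finset S.X) (tr : S.X → ℕ → ℝ) (ω : ℝ) (T : ℝ) : ℂ :=
  ∑' x, rotTerm S Bs tr ω T x

variable {S : NormSys} {Bs : Finset S.X} {B : S.X → Polynomial ℂ} {tr : S.X → ℕ → ℝ} {ω : ℝ}
  {D : ℝ} {F : ℂ → ℂ}

theorem rotTerm_eq (T : ℝ) (x : S.X × ℕ) :
    rotTerm S Bs tr ω T x = -((cM S (tn S (Bs : Set S.X) tr ω) x
      : ℂ) * cw T (lamM S x / T)) := by
  have h1 : cw T (lamM S x / T) =
      (Complex.Gamma (1 + (1 + I / Real.sqrt T) *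
        ((x.2 + 1) * Real.log (S.N x.1 : ℝ) / T)))⁻¹ := by
    unfold cw kf ep lamM
    push_cast
    rw [show ((Real.sqrt T : ℂ))⁻¹ * I = I / Real.sqrt T by rw [div_eq_inv_mul]]
  rw [h1]
  unfold rotTerm cM tn
  by_cases hx : x.1 ∈ Bs
  · have hx' : x.1 ∈ (Bs : Set S.X) := hx
    rw [if_pos hx, if_pos hx']
    simp
  · have hx' : x.1 ∉ (Bs : Set S.X) := hx
    rw [if_neg hx, if_neg hx', neg_div, div_mul_eq_div_div, div_eq_mul_inv (_ / _) (Complex.Gamma _)]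
    push_cast
    rfl

theorem rotSum_eq (T : ℝ) : rotSum S Bs tr ω T =
    -cmean (lamM S) (cM S (tn S (Bs : Set S.X) tr ω)) T := by
  unfold rotSum cmean
  rw [← tsum_neg]
  exact tsum_congr fun x => rotTerm_eq T x

theorem rotTerm_summable (E : TData S (tn S (Bs : Set S.X) tr ω) D) {T : ℝ} (hT : 0 < T) :
    Summable fun x => ‖rotTerm S Bs tr ω T x‖ := by
  refine (csummableM E hT).congr fun x => ?_
  rw [rotTerm_eq, norm_neg]

/-- the bad factors at the centre -/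
noncomputable def bet (S : NormSys) (Bs : Finset S.X) (B : S.X → Polynomial ℂ) (ω : ℝ) : ℂ :=
  BB S Bs B (((ω + 1) / 2 : ℝ) : ℂ)

theorem BB_ne_real (hB : ∀ v ∈ Bs, ∀ s : ℝ, (ω + 1) / 2 ≤ s →
    (B v).eval (((S.N v : ℕ) : ℂ) ^ (-(s : ℂ))) ≠ 0) {s : ℝ}
    (hs : (ω + 1) / 2 ≤ s) : BB S Bs B (s : ℂ) ≠ 0 :=
  Finset.prod_ne_zero_iff.mpr fun v hv => hB v hv s hs

/-- **the limit, for every system of Frobenius traces** -/
theorem motive_rot (E : TData S (tn S (Bs : Set S.X) tr ω) D)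
    (hB : ∀ v ∈ Bs, ∀ s : ℝ, (ω + 1) / 2 ≤ s →
      (B v).eval (((S.N v : ℕ) : ℂ) ^ (-(s : ℂ))) ≠ 0)
    (hF1 : ∀ s : ℝ, (ω + 1) / 2 ≤ s → MeromorphicAt F (s : ℂ))
    (hF2 : ∀ s : ℝ, (ω + 2) / 2 < s → F s = LFB S Bs B tr s) :
    ∃ (n : ℤ) (l : ℂ) (Z : Finset ℝ) (k : ℝ → ℤ),
      meromorphicOrderAt F (((ω + 1) / 2 : ℝ) : ℂ) = n ∧
      meromorphicTrailingCoeffAt F (((ω + 1) / 2 : ℝ) : ℂ) = l ∧ l ≠ 0 ∧
      bet S Bs B ω ≠ 0 ∧ (l * bet S Bs B ω).im = 0 ∧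
      (∀ σ : ℝ, σ ∈ Z ↔ (ω + 1) / 2 < σ ∧ meromorphicOrderAt F (σ : ℂ) ≠ 0) ∧
      (∀ σ ∈ Z, meromorphicOrderAt F (σ : ℂ) = k σ) ∧
      Tendsto (fun T : ℝ => rotSum S Bs tr ω T - n * (Real.log T - kap)) atTop
        (𝓝 (-(Real.log ‖l * bet S Bs B ω‖ : ℝ) - (∑ σ ∈ Z, (k σ : ℂ)) * Real.pi * I)) ∧
      Tendsto (fun T : ℝ => exp (rotSum S Bs tr ω T) / ((Real.exp (-kap) * T : ℝ) : ℂ) ^ n) atTop
        (𝓝 (l * bet S Bs B ω)⁻¹) ∧
      ∀ (r : ℤ) (μ : ℂ), μ ≠ 0 →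
        ((meromorphicOrderAt F (((ω + 1) / 2 : ℝ) : ℂ) = (r : WithTop ℤ) ∧
          meromorphicTrailingCoeffAt F (((ω + 1) / 2 : ℝ) : ℂ) = μ) ↔
          Tendsto (fun T : ℝ => exp (rotSum S Bs tr ω T) / ((Real.exp (-kap) * T : ℝ) : ℂ) ^ r)
            atTop (𝓝 (μ * bet S Bs B ω)⁻¹)) := by
  have heq : ∀ x : ℝ, 1 / 2 < x → F ((((ω + 1) / 2 : ℝ) : ℂ) + x) *
      BB S Bs B ((((ω + 1) / 2 : ℝ) : ℂ) + x) =
      exp (Pool.Agent.W263.EP.LL S (tn S (Bs : Set S.X) tr ω) x) := by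
    intro x hx
    have e1 : (((ω + 1) / 2 : ℝ) : ℂ) + x = (((ω + 1) / 2 + x : ℝ) : ℂ) := by push_cast; rfl
    have e2 : ((ω : ℂ) + 1) / 2 + (x : ℂ) = (((ω + 1) / 2 + x : ℝ) : ℂ) := by push_cast; rfl
    have h3 := hF2 ((ω + 1) / 2 + x) (by linarith)
    have h4 := LFB_eq (B := B) E (s := (((ω + 1) / 2 + x : ℝ) : ℂ)) (by
      rw [Complex.ofReal_re]; linarith)
    have h5 := LF_eq E (z := (x : ℂ)) (by rwa [Complex.ofReal_re])
    rw [e2] at h5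
    rw [e1, h3, h4, h5, mul_assoc, inv_mul_cancel₀ (BB_ne_real hB (by linarith)), mul_one]
  obtain ⟨Z, k, hZ, hk, hk1, hl0, hlim, hl, h⟩ := mot_limit (c := (ω + 1) / 2) (F := F)
    (H := BB S Bs B) E hF1 BB_diff (fun s hs => BB_ne_real hB hs) heq
  set l₀ : ℂ := meromorphicTrailingCoeffAt F (((ω + 1) / 2 : ℝ) : ℂ) with hl₀
  have hb : bet S Bs B ω ≠ 0 := BB_ne_real hB le_rfl
  have hmult : Tendsto (fun T : ℝ => exp (rotSum S Bs tr ω T) /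
      ((Real.exp (-kap) * T : ℝ) : ℂ) ^ (k ((ω + 1) / 2)))
      atTop (𝓝 (l₀ * bet S Bs B ω)⁻¹) := by
    refine mult_form hl0 hl ?_
    simp only [rotSum_eq]
    exact h
  refine ⟨k ((ω + 1) / 2), l₀, Z, k, hk1, rfl, left_ne_zero_of_mul hl0, hb, hlim, hZ, hk, ?_,
    hmult, ?_⟩
  · simp only [rotSum_eq]
    exact h
  · intro r μ hμ
    have h1 := mult_iff (f := fun T => rotSum S Bs tr ω T) hl0 hmult r
      (B := μ * bet S Bs B ω) (mul_ne_zero hμ hb)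
    rw [← h1, hk1]
    constructor
    · rintro ⟨h2, h3⟩
      exact ⟨by exact_mod_cast h2, by rw [h3]; rfl⟩
    · rintro ⟨h2, h3⟩
      refine ⟨by rw [h2], mul_right_cancel₀ hb h3⟩

end Pool.Agent.W76.BK.MotK
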