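import Pool.Agent.W76.BK.Mero
import Pool.Agent.W189.LC.EPMain

/-! Rotated Mittag-Leffler sums of Euler products with quadratic factors. -/

set_option autoImplicit false

namespace Pool.Agent.W76.BK

open Complex MeasureTheory Filter Topology Set
open Pool.Agent.W189.ML Pool.Agent.W189.LC

/-- the weights decay faster than any exponential -/
theorem cw_le' {T A l : ℝ} (hT : 0 < T) (hA : 0 ≤ A) (hl : 0 ≤ l) :
    ‖cw T (l / T)‖ ≤ (Real.exp (Real.exp (A * T + 4 * ep T)) + 1) * Real.exp (-(A * l)) := by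
  have he : 0 ≤ ep T := by unfold ep; positivity
  have ha : 0 ≤ A * T + 4 * ep T := by positivity
  rw [← J_term (A * T + 4 * ep T) T l]
  refine norm_J_le ha fun z hz => ?_
  rw [Complex.norm_exp]
  apply Real.exp_le_exp.2
  have e1 : (-(pw T z * l)).re = -((pw T z).re * l) := by
    rw [Complex.neg_re, Complex.re_mul_ofReal]
  rw [e1]
  have e2 : A ≤ (pw T z).re := by
    rw [pw_re, le_div_iff₀ hT]
    obtain ⟨h1, h2⟩ := hz
    have h3 : ep T * z.im ≤ ep T * 4 := by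
      refine mul_le_mul_of_nonneg_left ?_ he
      have := Real.pi_lt_four
      have := (abs_le.1 h2).2
      linarith
    linarith
  have := mul_le_mul_of_nonneg_right e2 hl
  linarith

variable {P : Type} {q a e : P → ℝ} {F : ℂ → ℂ}

theorem csummable' (E : EP q a e) {T : ℝ} (hT : 0 < T) :
    Summable fun x : P × ℕ => ‖(cf q a e x : ℂ) * cw T (fr q x / T)‖ := by
  refine Summable.of_nonneg_of_le (fun p => norm_nonneg _) (fun x => ?_)
    ((E.summable (σ := 2) (by norm_num)).mul_left (Real.exp (Real.exp (2 * T + 4 * ep T)) + 1))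
  rw [norm_mul, Complex.norm_real, Real.norm_eq_abs]
  have h1 := cw_le' (A := 2) hT (by norm_num) (E.fr_nonneg x)
  have h2 := mul_le_mul_of_nonneg_left h1 (abs_nonneg (cf q a e x))
  refine h2.trans (le_of_eq ?_)
  ring

/-- the limit -/
theorem ep_limit [Countable P] (E : EP q a e)
    (hmer : ∀ x ∈ Icc (1 : ℝ) 3, MeromorphicAt F (x : ℂ))
    (hF : ∀ s : ℂ, 2 < s.re →
      HasProd (fun v => (1 - a v * (q v : ℂ) ^ (-s) + e v * ((q v : ℂ) ^ (-s)) ^ 2)⁻¹) (F s)) :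
    ∃ (Z : Finset ℝ) (k : ℝ → ℤ), (∀ σ : ℝ, σ ∈ Z ↔ 1 < σ ∧ meromorphicOrderAt F (σ : ℂ) ≠ 0) ∧
      (∀ σ ∈ Z, meromorphicOrderAt F (σ : ℂ) = k σ) ∧ meromorphicOrderAt F 1 = k 1 ∧
      meromorphicTrailingCoeffAt F 1 ≠ 0 ∧ (meromorphicTrailingCoeffAt F 1).im = 0 ∧
      (‖meromorphicTrailingCoeffAt F 1‖ : ℂ) * exp ((∑ σ ∈ Z, (k σ : ℂ)) * Real.pi * I) =
        meromorphicTrailingCoeffAt F 1 ∧
      Tendsto (fun T : ℝ => -cmean (fr q) (cf q a e) T - (k 1 : ℂ) * (Real.log T - kap)) atTop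
        (𝓝 (-(Real.log ‖meromorphicTrailingCoeffAt F 1‖ : ℝ) -
          (∑ σ ∈ Z, (k σ : ℂ)) * Real.pi * I)) := by
  have D := E.mdata hmer hF
  obtain ⟨S, k, Q, hS, hS1, hk, hQa, hQr, hexp, htr⟩ := factor_all D
  obtain ⟨h1, h2, h3, h4⟩ := cmean_limit D hS1 hQa hQr hexp htr
  rw [coeff_shift0] at h1 h2 h3 h4
  have hk' : ∀ x : ℝ, 0 ≤ x → x ≤ 3 → meromorphicOrderAt F ((1 + x : ℝ) : ℂ) = k x := by
    intro x hx hx3
    have := hk x ⟨hx, hx3⟩
    rw [Pool.Agent.W189.LC.order_shift] at this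
    exact this
  have hsum : ∑ σ ∈ S.image (fun x : ℝ => 1 + x), ((k (σ - 1) : ℤ) : ℂ) = ∑ x ∈ S, (k x : ℂ) := by
    rw [Finset.sum_image (f := fun σ : ℝ => ((k (σ - 1) : ℤ) : ℂ)) (g := fun x : ℝ => 1 + x)
      fun x _ y _ h => by
        have h' : 1 + x = 1 + y := h
        linarith]
    refine Finset.sum_congr rfl fun x _ => ?_
    rw [add_sub_cancel_left]
  refine ⟨S.image (fun x : ℝ => 1 + x), fun σ => k (σ - 1), ?_, ?_, ?_, h1, h2, ?_, ?_⟩
  · intro σ
    rw [Finset.mem_image]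
    constructor
    · rintro ⟨y, hy, rfl⟩
      obtain ⟨h5, h6⟩ := (hS y).1 hy
      rw [Pool.Agent.W189.LC.order_shift] at h6
      exact ⟨by linarith, h6⟩
    · rintro ⟨h5, h6⟩
      refine ⟨σ - 1, (hS _).2 ⟨by linarith, ?_⟩, by ring⟩
      rw [Pool.Agent.W189.LC.order_shift, show 1 + (σ - 1) = σ by ring]
      exact h6
  · intro σ hσ
    rw [Finset.mem_image] at hσ
    obtain ⟨y, hy, rfl⟩ := hσ
    beta_reduce
    rw [add_sub_cancel_left]
    exact hk' y (hS1 y hy).1.le (by linarith [(hS1 y hy).2])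
  · have := hk' 0 le_rfl (by norm_num)
    simpa using this
  · rw [hsum]
    exact h3
  · rw [hsum]
    beta_reduce
    rw [show (1 : ℝ) - 1 = 0 by norm_num]
    have h5 := h4.neg
    have h6 : (fun T : ℝ => -cmean (fr q) (cf q a e) T - (k 0 : ℂ) * (Real.log T - kap)) =
        fun T : ℝ => -(cmean (fr q) (cf q a e) T + (k 0 : ℂ) * Real.log T) + (k 0 : ℂ) * kap := by
      funext T
      ring
    rw [h6]
    refine (h5.add_const _).trans (le_of_eq ?_)
    congr 1
    ring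

/-- the multiplicative form of the limit, and the equivalence -/
theorem mult_form {f : ℝ → ℂ} {m : ℤ} {l : ℂ} {n : ℂ} (hl0 : l ≠ 0)
    (hl : (‖l‖ : ℂ) * exp (n * Real.pi * I) = l)
    (h : Tendsto (fun T : ℝ => f T - (m : ℂ) * (Real.log T - kap)) atTop
      (𝓝 (-(Real.log ‖l‖ : ℝ) - n * Real.pi * I))) :
    Tendsto (fun T : ℝ => exp (f T) / ((Real.exp (-kap) * T : ℝ) : ℂ) ^ m) atTop (𝓝 l⁻¹) := by
  have h1 := (Complex.continuous_exp.tendsto _).comp h
  have e1 : exp (-(Real.log ‖l‖ : ℝ) - n * Real.pi * I) = l⁻¹ := by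
    have e2 : -((Real.log ‖l‖ : ℝ) : ℂ) - n * Real.pi * I =
        -(((Real.log ‖l‖ : ℝ) : ℂ) + n * Real.pi * I) := by ring
    rw [e2, Complex.exp_neg, Complex.exp_add, ← Complex.ofReal_exp,
      Real.exp_log (norm_pos_iff.2 hl0), hl]
  rw [e1] at h1
  refine h1.congr' ?_
  filter_upwards [eventually_gt_atTop 0] with T hT
  simp only [Function.comp_apply]
  rw [Complex.exp_sub, Complex.exp_int_mul]
  congr 2
  rw [← Complex.ofReal_sub, ← Complex.ofReal_exp]
  congr 1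
  rw [sub_eq_add_neg, Real.exp_add, Real.exp_log hT, mul_comm]

theorem mult_iff {f : ℝ → ℂ} {m : ℤ} {l : ℂ} (hl0 : l ≠ 0)
    (h : Tendsto (fun T : ℝ => exp (f T) / ((Real.exp (-kap) * T : ℝ) : ℂ) ^ m) atTop (𝓝 l⁻¹))
    (r : ℤ) {B : ℂ} (hB : B ≠ 0) :
    (m = r ∧ l = B) ↔
      Tendsto (fun T : ℝ => exp (f T) / ((Real.exp (-kap) * T : ℝ) : ℂ) ^ r) atTop (𝓝 B⁻¹) := by
  constructor
  · rintro ⟨rfl, rfl⟩
    exact h
  · intro h2
    have hc : (0 : ℝ) < Real.exp (-kap) := Real.exp_pos _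
    have h3 := (h2.div h (inv_ne_zero hl0)).norm
    have h4 : Tendsto (fun T : ℝ => (Real.exp (-kap) * T) ^ (m - r)) atTop
        (𝓝 ‖B⁻¹ / l⁻¹‖) := by
      refine h3.congr' ?_
      filter_upwards [eventually_gt_atTop 0] with T hT
      have hT0 : 0 < Real.exp (-kap) * T := mul_pos hc hT
      have hTc : ((Real.exp (-kap) * T : ℝ) : ℂ) ≠ 0 := by exact_mod_cast hT0.ne'
      have e1 : (exp (f T) / ((Real.exp (-kap) * T : ℝ) : ℂ) ^ r) /
          (exp (f T) / ((Real.exp (-kap) * T : ℝ) : ℂ) ^ m) =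
          (((Real.exp (-kap) * T) ^ (m - r) : ℝ) : ℂ) := by
        rw [Complex.ofReal_zpow, zpow_sub₀ hTc]
        have h5 := Complex.exp_ne_zero (f T)
        have h6 := zpow_ne_zero r hTc
        have h7 := zpow_ne_zero m hTc
        field_simp
      show ‖(exp (f T) / ((Real.exp (-kap) * T : ℝ) : ℂ) ^ r) /
          (exp (f T) / ((Real.exp (-kap) * T : ℝ) : ℂ) ^ m)‖ = _
      rw [e1, Complex.norm_real, Real.norm_eq_abs, abs_of_pos (zpow_pos hT0 _)]
    have hne : 0 < ‖B⁻¹ / l⁻¹‖ := norm_pos_iff.2 (div_ne_zero (inv_ne_zero hB) (inv_ne_zero hl0))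
    have hTT : Tendsto (fun T : ℝ => Real.exp (-kap) * T) atTop atTop :=
      tendsto_id.const_mul_atTop hc
    have hmr : m = r := by
      rcases lt_trichotomy (m - r) 0 with h5 | h5 | h5
      · exfalso
        have h6 := (tendsto_zpow_atTop_zero (𝕜 := ℝ) h5).comp hTT
        have h7 := tendsto_nhds_unique h6 h4
        linarith
      · omega
      · exfalso
        obtain ⟨n, hn⟩ := Int.eq_ofNat_of_zero_le h5.le
        rw [hn] at h4 h5
        have hn0 : n ≠ 0 := by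
          rintro rfl
          simp at h5
        have h6 : Tendsto (fun T : ℝ => (Real.exp (-kap) * T) ^ (n : ℤ)) atTop atTop := by
          simp only [zpow_natCast]
          exact (tendsto_pow_atTop hn0).comp hTT
        exact not_tendsto_nhds_of_tendsto_atTop h6 _ h4
    refine ⟨hmr, ?_⟩
    rw [← hmr] at h2
    have h5 := tendsto_nhds_unique h h2
    exact inv_injective h5

end Pool.Agent.W76.BK
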