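import Pool.Agent.W189.ML.Adm

/-! Hankel's formula on the contour around the half strip, for complex arguments. -/

set_option autoImplicit false

namespace Pool.Agent.W76.BK

open Complex MeasureTheory Filter Topology Set
open Pool.Agent.W189.ML
open scoped Interval

/-- entire functions defined by integrals -/
theorem entire_int {μ : Measure ℝ} {c ζ : ℝ → ℂ} (hc : Continuous c) (hζ : Continuous ζ)
    (hi : ∀ R : ℝ, 0 ≤ R → Integrable (fun x => ‖c x‖ * Real.exp (R * ‖ζ x‖)) μ) :
    Differentiable ℂ fun v : ℂ => ∫ x, c x * exp (-(ζ x * v)) ∂μ := by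
  intro v₀
  have key : ∀ (v : ℂ) (x : ℝ) (R : ℝ), ‖v‖ ≤ R → ‖c x * exp (-(ζ x * v))‖ ≤
      ‖c x‖ * Real.exp (R * ‖ζ x‖) := by
    intro v x R hR
    rw [norm_mul]
    refine mul_le_mul_of_nonneg_left ?_ (norm_nonneg _)
    refine (Complex.norm_exp_le_exp_norm _).trans (Real.exp_le_exp.2 ?_)
    rw [norm_neg, norm_mul, mul_comm]
    exact mul_le_mul_of_nonneg_right hR (norm_nonneg _)
  have h := hasDerivAt_integral_of_dominated_loc_of_deriv_le (𝕜 := ℂ) (μ := μ)
    (F := fun v x => c x * exp (-(ζ x * v)))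
    (F' := fun v x => c x * (exp (-(ζ x * v)) * (-(ζ x)))) (x₀ := v₀)
    (s := Metric.ball v₀ 1) (bound := fun x => ‖c x‖ * Real.exp ((‖v₀‖ + 2) * ‖ζ x‖))
    (Metric.ball_mem_nhds v₀ one_pos)
    (Eventually.of_forall fun v => (by fun_prop :
      Continuous fun x => c x * exp (-(ζ x * v))).aestronglyMeasurable)
    (Integrable.mono' (hi ‖v₀‖ (norm_nonneg _))
      (by fun_prop : Continuous fun x => c x * exp (-(ζ x * v₀))).aestronglyMeasurable
      (ae_of_all _ fun x => key v₀ x _ le_rfl))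
    (by fun_prop : Continuous fun x => c x * (exp (-(ζ x * v₀)) * (-(ζ x)))).aestronglyMeasurable
    (ae_of_all _ fun x v hv => ?_)
    (hi (‖v₀‖ + 2) (by positivity))
    (ae_of_all _ fun x v _ => ?_)
  · exact h.2.differentiableAt
  · have hv' : ‖v‖ ≤ ‖v₀‖ + 1 := by
      have h1 : ‖v - v₀‖ < 1 := by rwa [Metric.mem_ball, Complex.dist_eq] at hv
      have h2 := norm_add_le (v - v₀) v₀
      rw [sub_add_cancel] at h2
      linarith
    have h3 := key v x _ hv'
    have h4 : ‖ζ x‖ ≤ Real.exp ‖ζ x‖ := by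
      have := Real.add_one_le_exp ‖ζ x‖
      linarith
    calc ‖c x * (exp (-(ζ x * v)) * (-(ζ x)))‖ = ‖c x * exp (-(ζ x * v))‖ * ‖ζ x‖ := by
          rw [← mul_assoc, norm_mul, norm_neg]
      _ ≤ (‖c x‖ * Real.exp ((‖v₀‖ + 1) * ‖ζ x‖)) * Real.exp ‖ζ x‖ := by gcongr
      _ = ‖c x‖ * Real.exp ((‖v₀‖ + 2) * ‖ζ x‖) := by
          rw [mul_assoc, ← Real.exp_add]; congr 2; ring
  · have h1 : HasDerivAt (fun v : ℂ => -(ζ x * v)) (-(ζ x)) v := by
      have h0 : HasDerivAt (fun v : ℂ => -(ζ x * v)) (-(ζ x * 1)) v :=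
        ((hasDerivAt_id v).const_mul (ζ x)).neg
      rwa [mul_one] at h0
    exact (h1.cexp).const_mul (c x)

theorem int_ray (a R : ℝ) (hR : 0 ≤ R) (s : ℂ) (hs : s = Real.pi * I ∨ s = -(Real.pi * I)) :
    Integrable (fun x : ℝ => ‖((Real.exp (-Real.exp x) : ℝ) : ℂ)‖ * Real.exp (R * ‖(x : ℂ) + s‖))
      (volume.restrict (Ioi a)) := by
  have hsn : ‖s‖ = Real.pi := by
    rcases hs with h | h <;> rw [h] <;> simp [abs_of_pos Real.pi_pos]
  have h1 := (integrableOn_ray_exp a R).const_mul (Real.exp (R * (2 * |a| + Real.pi)))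
  refine Integrable.mono' h1 ?_ ?_
  · exact (by fun_prop : Continuous fun x : ℝ => ‖((Real.exp (-Real.exp x) : ℝ) : ℂ)‖ *
      Real.exp (R * ‖(x : ℂ) + s‖)).aestronglyMeasurable
  · filter_upwards [ae_restrict_mem measurableSet_Ioi] with x hx
    have hx' : a < x := hx
    have h2 : ‖(x : ℂ) + s‖ ≤ x + (2 * |a| + Real.pi) := by
      refine (norm_add_le _ _).trans ?_
      rw [hsn, Complex.norm_real, Real.norm_eq_abs]
      have h3 : |x| ≤ x + 2 * |a| := by
        rcases abs_cases x with ⟨h, -⟩ | ⟨h, h0⟩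
        · rw [h]; linarith [abs_nonneg a]
        · rw [h]
          have := neg_abs_le a
          linarith
      linarith
    rw [Real.norm_eq_abs, abs_of_nonneg (by positivity), Complex.norm_real, Real.norm_eq_abs,
      Real.abs_exp]
    calc Real.exp (-Real.exp x) * Real.exp (R * ‖(x : ℂ) + s‖) ≤
        Real.exp (-Real.exp x) * Real.exp (R * (x + (2 * |a| + Real.pi))) := by gcongr
      _ = Real.exp (R * (2 * |a| + Real.pi)) * (Real.exp (-Real.exp x) * Real.exp (R * x)) := by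
        rw [mul_add, Real.exp_add]; ring

theorem J_entire (a : ℝ) : Differentiable ℂ fun v : ℂ => J a (fun z => exp (-(z * v))) := by
  have hpp : -Real.pi ≤ Real.pi := by linarith [Real.pi_pos]
  have e1 : Differentiable ℂ fun v : ℂ => ∫ y : ℝ, K (a + y * I) * exp (-((a + y * I) * v))
      ∂(volume.restrict (Ioc (-Real.pi) Real.pi)) := by
    refine entire_int (c := fun y : ℝ => K (a + y * I)) (ζ := fun y : ℝ => (a : ℂ) + y * I)
      (continuous_K.comp (by fun_prop)) (by fun_prop) fun R hR => ?_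
    have hc : Continuous fun x : ℝ => ‖K (a + x * I)‖ * Real.exp (R * ‖(a : ℂ) + x * I‖) := by
      have := continuous_K
      fun_prop
    exact (hc.integrableOn_Icc (a := -Real.pi) (b := Real.pi)).mono_set Ioc_subset_Icc_self
  have e2 : Differentiable ℂ fun v : ℂ => ∫ x : ℝ, ((Real.exp (-Real.exp x) : ℝ) : ℂ) *
      exp (-((x + Real.pi * I) * v)) ∂(volume.restrict (Ioi a)) :=
    entire_int (c := fun x : ℝ => ((Real.exp (-Real.exp x) : ℝ) : ℂ))
      (ζ := fun x : ℝ => (x : ℂ) + Real.pi * I) (by fun_prop) (by fun_prop)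
      fun R hR => int_ray a R hR _ (Or.inl rfl)
  have e3 : Differentiable ℂ fun v : ℂ => ∫ x : ℝ, ((Real.exp (-Real.exp x) : ℝ) : ℂ) *
      exp (-((x + -(Real.pi * I)) * v)) ∂(volume.restrict (Ioi a)) :=
    entire_int (c := fun x : ℝ => ((Real.exp (-Real.exp x) : ℝ) : ℂ))
      (ζ := fun x : ℝ => (x : ℂ) + -(Real.pi * I)) (by fun_prop) (by fun_prop)
      fun R hR => int_ray a R hR _ (Or.inr rfl)
  have h : (fun v : ℂ => J a (fun z => exp (-(z * v)))) = fun v : ℂ =>
      (2 * Real.pi : ℂ)⁻¹ * (∫ y : ℝ, K (a + y * I) * exp (-((a + y * I) * v))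
      ∂(volume.restrict (Ioc (-Real.pi) Real.pi))) + (2 * Real.pi * I : ℂ)⁻¹ *
      ((∫ x : ℝ, ((Real.exp (-Real.exp x) : ℝ) : ℂ) *
      exp (-((x + Real.pi * I) * v)) ∂(volume.restrict (Ioi a))) -
      ∫ x : ℝ, ((Real.exp (-Real.exp x) : ℝ) : ℂ) *
      exp (-((x + -(Real.pi * I)) * v)) ∂(volume.restrict (Ioi a))) := by
    funext v
    have i1 : Integrable (fun x : ℝ => ((Real.exp (-Real.exp x) : ℝ) : ℂ) *
      exp (-((x + Real.pi * I) * v))) (volume.restrict (Ioi a)) := by
      refine Integrable.mono' (int_ray a ‖v‖ (norm_nonneg _) _ (Or.inl rfl)) (by fun_prop :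
        Continuous fun x : ℝ => ((Real.exp (-Real.exp x) : ℝ) : ℂ) *
        exp (-((x + Real.pi * I) * v))).aestronglyMeasurable (ae_of_all _ fun x => ?_)
      rw [norm_mul]
      refine mul_le_mul_of_nonneg_left ?_ (norm_nonneg _)
      refine (Complex.norm_exp_le_exp_norm _).trans (Real.exp_le_exp.2 ?_)
      rw [norm_neg, norm_mul, mul_comm]
    have i2 : Integrable (fun x : ℝ => ((Real.exp (-Real.exp x) : ℝ) : ℂ) *
      exp (-((x + -(Real.pi * I)) * v))) (volume.restrict (Ioi a)) := by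
      refine Integrable.mono' (int_ray a ‖v‖ (norm_nonneg _) _ (Or.inr rfl)) (by fun_prop :
        Continuous fun x : ℝ => ((Real.exp (-Real.exp x) : ℝ) : ℂ) *
        exp (-((x + -(Real.pi * I)) * v))).aestronglyMeasurable (ae_of_all _ fun x => ?_)
      rw [norm_mul]
      refine mul_le_mul_of_nonneg_left ?_ (norm_nonneg _)
      refine (Complex.norm_exp_le_exp_norm _).trans (Real.exp_le_exp.2 ?_)
      rw [norm_neg, norm_mul, mul_comm]
    have hr : ∀ x : ℝ, rho (fun z => exp (-(z * v))) x = (2 * Real.pi * I : ℂ)⁻¹ *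
        (((Real.exp (-Real.exp x) : ℝ) : ℂ) * exp (-((x + Real.pi * I) * v)) -
        ((Real.exp (-Real.exp x) : ℝ) : ℂ) * exp (-((x + -(Real.pi * I)) * v))) := by
      intro x
      unfold rho
      rw [← sub_eq_add_neg]
      ring
    unfold J V
    rw [intervalIntegral.integral_of_le hpp]
    congr 1
    simp only [hr]
    rw [integral_const_mul, integral_sub i1 i2]
  rw [h]
  exact (e1.const_mul _).add ((e2.sub e3).const_mul _)

/-- **Hankel's formula** for complex arguments -/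
theorem J_expc (a : ℝ) (v : ℂ) : J a (fun z => exp (-(z * v))) = (Complex.Gamma (1 + v))⁻¹ := by
  have hg : Differentiable ℂ fun v : ℂ => (Complex.Gamma (1 + v))⁻¹ := by
    have := Complex.differentiable_one_div_Gamma
    intro v
    exact DifferentiableAt.comp (g := fun s : ℂ => (Complex.Gamma s)⁻¹) (f := fun v : ℂ => 1 + v) v
      (this _) (by fun_prop)
  have h1 : AnalyticOnNhd ℂ (fun v : ℂ => J a (fun z => exp (-(z * v)))) univ :=
    (J_entire a).differentiableOn.analyticOnNhd isOpen_univ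
  have h2 : AnalyticOnNhd ℂ (fun v : ℂ => (Complex.Gamma (1 + v))⁻¹) univ :=
    hg.differentiableOn.analyticOnNhd isOpen_univ
  have h3 : ∃ᶠ v in 𝓝[≠] (0 : ℂ), J a (fun z => exp (-(z * v))) = (Complex.Gamma (1 + v))⁻¹ := by
    have h5 : Tendsto (fun n : ℕ => ((1 / ((n : ℝ) + 1) : ℝ) : ℂ)) atTop (𝓝[≠] (0 : ℂ)) := by
      rw [tendsto_nhdsWithin_iff]
      constructor
      · have := (Complex.continuous_ofReal.tendsto 0).comp
          (tendsto_one_div_add_atTop_nhds_zero_nat (𝕜 := ℝ))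
        simpa [Function.comp_def] using this
      · refine Eventually.of_forall fun n => ?_
        simp only [mem_compl_iff, mem_singleton_iff]
        intro h
        have h7 : (1 / ((n : ℝ) + 1) : ℝ) = 0 := by exact_mod_cast h
        have h8 : (0 : ℝ) < 1 / ((n : ℝ) + 1) := by positivity
        linarith
    refine h5.frequently (Eventually.frequently (Eventually.of_forall fun n => ?_))
    rw [J_exp]
    have : (1 : ℂ) + ((1 / ((n : ℝ) + 1) : ℝ) : ℂ) = ((1 + 1 / ((n : ℝ) + 1) : ℝ) : ℂ) := by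
      push_cast; rfl
    rw [this, Complex.Gamma_ofReal]
    push_cast
    rfl
  exact h1.eqOn_of_preconnected_of_frequently_eq h2 isPreconnected_univ (mem_univ 0) h3 (mem_univ v)

end Pool.Agent.W76.BK
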