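import Pool.Agent.W76.BK.Rot

/-! The abstract theorem for the rotated Mittag-Leffler means. -/

set_option autoImplicit false

namespace Pool.Agent.W76.BK

open Complex MeasureTheory Filter Topology Set
open Pool.Agent.W189.ML
open scoped Interval

/-- the complex weight `1 / Γ(1 + (1 + i T^{-1/2}) v)` -/
noncomputable def cw (T v : ℝ) : ℂ := (Complex.Gamma (1 + kf T * v))⁻¹

/-- the rotated Mittag-Leffler mean -/
noncomputable def cmean {ι : Type} (lam : ι → ℝ) (c : ι → ℝ) (T : ℝ) : ℂ :=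
  ∑' i, (c i : ℂ) * cw T (lam i / T)

variable {ι : Type} {lam : ι → ℝ} {c : ι → ℝ} {G : ℂ → ℂ}

theorem J_term (a : ℝ) (T l : ℝ) :
    J a (fun z => exp (-(pw T z * l))) = cw T (l / T) := by
  have h : (fun z : ℂ => exp (-(pw T z * l))) = fun z : ℂ => exp (-(z * (kf T * ((l / T : ℝ) : ℂ)))) := by
    funext z
    congr 2
    unfold pw
    push_cast
    ring
  rw [h, J_expc]
  rfl

theorem re_ge_two {T : ℝ} (hT : 10000 ≤ T) {z : ℂ} (hz : z ∈ HS (2 * T + 1)) :
    2 ≤ (pw T z).re := by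
  have h0 := ep_pos hT
  have h1 := ep_le hT
  have hT0 : 0 < T := by linarith
  obtain ⟨hx, hy⟩ := hz
  have hpi := Real.pi_lt_d2
  have e1 : |ep T * z.im| ≤ 1 / 100 * Real.pi := by
    rw [abs_mul, abs_of_pos h0]
    gcongr
  have e2 := abs_le.1 e1
  rw [pw_re, le_div_iff₀ hT0]
  linarith

theorem cmean_eq [Countable ι] (D : SData lam c G) {T : ℝ} (hT : 10000 ≤ T) :
    J (2 * T + 1) (fun z => ser lam c (pw T z)) = cmean lam c T ∧
    Summable (fun i => ‖(c i : ℂ) * cw T (lam i / T)‖) := by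
  have hT0 : (0 : ℝ) < T := by linarith
  have hb0 : 0 ≤ 2 * T + 1 := by linarith
  have hb : ∀ i, ∀ z ∈ HS (2 * T + 1), ‖(c i : ℂ) * exp (-(pw T z * lam i))‖ ≤
      |c i| * Real.exp (-(2 * lam i)) := fun i z hz => D.term_le (re_ge_two hT hz) i
  have hc := pw_cont T
  have hadm : ∀ i, Adm (2 * T + 1) (fun z => (c i : ℂ) * exp (-(pw T z * lam i))) := fun i =>
    ⟨by fun_prop, |c i| * Real.exp (-(2 * lam i)), 0, by positivity, le_rfl, fun z hz => by
      have := hb i z hz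
      linarith⟩
  have h1 := J_hasSum (a := 2 * T + 1) hb0
    (F := fun i z => (c i : ℂ) * exp (-(pw T z * lam i))) D.sum hadm hb
  have h2 : ∀ i, J (2 * T + 1) (fun z => (c i : ℂ) * exp (-(pw T z * lam i))) =
      (c i : ℂ) * cw T (lam i / T) := fun i => by rw [J_const_mul, J_term]
  have h3 : ∀ i, ‖(c i : ℂ) * cw T (lam i / T)‖ ≤
      (Real.exp (Real.exp (2 * T + 1)) + 1) * (|c i| * Real.exp (-(2 * lam i))) := by
    intro i
    rw [← h2 i]
    exact norm_J_le hb0 (hb i)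
  simp only [h2] at h1
  exact ⟨h1.tsum_eq.symm, Summable.of_nonneg_of_le (fun i => norm_nonneg _) h3 (D.sum.mul_left _)⟩

/-- the logarithm -/
noncomputable def LL (S : Finset ℝ) (k : ℝ → ℤ) (m : ℤ) (Q : ℂ → ℂ) (w : ℂ) : ℂ :=
  m * log w + ∑ x ∈ S, (k x : ℂ) * Lx x w + log (Q w)

/-- the logarithm, rescaled -/
noncomputable def Psi (S : Finset ℝ) (k : ℝ → ℤ) (m : ℤ) (Q : ℂ → ℂ) (T : ℝ) (z : ℂ) : ℂ :=
  m * log (kf T * z) + ∑ x ∈ S, (k x : ℂ) * Lx x (pw T z) + log (Q (pw T z))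

theorem exp_LL {S : Finset ℝ} {k : ℝ → ℤ} {m : ℤ} {Q : ℂ → ℂ} {w : ℂ} (h0 : w ≠ 0)
    (hS : ∀ x ∈ S, w ≠ (x : ℂ)) (hQ : Q w ≠ 0) :
    exp (LL S k m Q w) = w ^ m * (∏ x ∈ S, (w - x) ^ (k x)) * Q w := by
  unfold LL
  rw [Complex.exp_add, Complex.exp_add, Complex.exp_int_mul, Complex.exp_log h0,
    Complex.exp_log hQ, Complex.exp_sum]
  congr 2
  refine Finset.prod_congr rfl fun x hx => ?_
  rw [Complex.exp_int_mul, exp_Lx (hS x hx)]

theorem kfz {T : ℝ} (hT : 10000 ≤ T) {z : ℂ} (hz : z ∈ HS 1) :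
    kf T * z ∈ slitPlane ∧ kf T * z ≠ 0 ∧ ‖log (kf T * z)‖ ≤ 14 + 2 * z.re := by
  have h0 := ep_pos hT
  have h1 := ep_le hT
  obtain ⟨hx, hy⟩ := hz
  have hpi := Real.pi_lt_d2
  have e1 : |ep T * z.im| ≤ 1 / 100 * Real.pi := by
    rw [abs_mul, abs_of_pos h0]
    gcongr
  have e2 := abs_le.1 e1
  have hre : (kf T * z).re = z.re - ep T * z.im := by unfold kf; simp
  have him : (kf T * z).im = z.im + ep T * z.re := by unfold kf; simp
  have hhalf : 1 / 2 ≤ (kf T * z).re := by rw [hre]; linarith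
  have hn1 : 1 / 2 ≤ ‖kf T * z‖ := hhalf.trans (Complex.re_le_norm _)
  have hn2 : ‖kf T * z‖ ≤ 10 + 2 * z.re := by
    refine (Complex.norm_le_abs_re_add_abs_im _).trans ?_
    rw [hre, him]
    have h3 : |z.re - ep T * z.im| ≤ z.re + 1 := by rw [abs_le]; constructor <;> linarith
    have h4 : |z.im + ep T * z.re| ≤ Real.pi + 1 / 100 * z.re := by
      refine (abs_add_le _ _).trans (add_le_add hy ?_)
      rw [abs_of_nonneg (by positivity)]
      gcongr
    linarith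
  refine ⟨Or.inl (by linarith), ?_, ?_⟩
  · intro h
    rw [h, norm_zero] at hn1
    linarith
  · refine (Complex.norm_le_abs_re_add_abs_im _).trans ?_
    rw [Complex.log_re, Complex.log_im]
    have h5 : |Real.log ‖kf T * z‖| ≤ 10 + 2 * z.re := by
      rw [abs_le]
      constructor
      · have h6 : Real.log (1 / 2) ≤ Real.log ‖kf T * z‖ := Real.log_le_log (by norm_num) hn1
        have h7 : -1 ≤ Real.log (1 / 2) := by
          rw [one_div, Real.log_inv]
          have := Real.log_two_lt_d9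
          linarith
        linarith
      · have := Real.log_le_sub_one_of_pos (show 0 < ‖kf T * z‖ by linarith)
        linarith
    have h6 := Complex.abs_arg_le_pi (kf T * z)
    linarith

theorem LL_eq {S : Finset ℝ} {k : ℝ → ℤ} {m : ℤ} {Q : ℂ → ℂ} {T : ℝ} (hT : 10000 ≤ T) {z : ℂ}
    (hz : z ∈ HS 1) : LL S k m Q (pw T z) = Psi S k m Q T z - m * Real.log T := by
  obtain ⟨-, h2, -⟩ := kfz hT hz
  have hT0 : 0 < T := by linarith
  have h3 : pw T z = ((T⁻¹ : ℝ) : ℂ) * (kf T * z) := by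
    unfold pw
    push_cast
    field_simp
  unfold LL Psi
  have h4 : log (pw T z) = log (kf T * z) - Real.log T := by
    rw [h3, Complex.log_ofReal_mul (by positivity) h2, Real.log_inv]
    push_cast
    ring
  rw [h4]
  ring

/-- uniform bound -/
theorem Psi_bound {S : Finset ℝ} (hS : ∀ x ∈ S, 0 < x ∧ x ≤ 1) (k : ℝ → ℤ) (m : ℤ) {Q : ℂ → ℂ}
    {δ₂ M : ℝ} (hM0 : 0 ≤ M) (hM : ∀ w : ℂ, 0 ≤ w.re → w.re ≤ 3 → |w.im| ≤ δ₂ → ‖log (Q w)‖ ≤ M) :
    ∃ A B : ℝ, 0 ≤ A ∧ 0 ≤ B ∧ ∀ T : ℝ, 10000 ≤ T → 4 * ep T ≤ δ₂ → (∀ x ∈ S, 16 * ep T ≤ x) →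
      ∀ z ∈ HS 1, z.re ≤ 2 * T + 1 → ‖Psi S k m Q T z‖ ≤ A + B * z.re := by
  refine ⟨|(m : ℝ)| * 14 + ∑ x ∈ S, |(k x : ℝ)| * (12 - Real.log (x / 4)) + M,
    |(m : ℝ)| * 2 + ∑ x ∈ S, |(k x : ℝ)| * (1 / x), ?_, ?_, ?_⟩
  · have : 0 ≤ ∑ x ∈ S, |(k x : ℝ)| * (12 - Real.log (x / 4)) := by
      refine Finset.sum_nonneg fun x hx => ?_
      obtain ⟨h1, h2⟩ := hS x hx
      have : Real.log (x / 4) ≤ 0 := Real.log_nonpos (by positivity) (by linarith)
      have : 0 ≤ |(k x : ℝ)| := abs_nonneg _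
      apply mul_nonneg <;> linarith
    positivity
  · have : 0 ≤ ∑ x ∈ S, |(k x : ℝ)| * (1 / x) := by
      refine Finset.sum_nonneg fun x hx => ?_
      obtain ⟨h1, h2⟩ := hS x hx
      positivity
    positivity
  · intro T hT hδ hx z hz hzb
    have hT0 : 0 < T := by linarith
    unfold Psi
    obtain ⟨-, -, h3⟩ := kfz hT hz
    have h4 : ‖(m : ℂ) * log (kf T * z)‖ ≤ |(m : ℝ)| * (14 + 2 * z.re) := by
      rw [norm_mul, Complex.norm_intCast]
      gcongr
    have h5 : ‖∑ x ∈ S, (k x : ℂ) * Lx x (pw T z)‖ ≤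
        ∑ x ∈ S, |(k x : ℝ)| * ((12 - Real.log (x / 4)) + 1 / x * z.re) := by
      refine (norm_sum_le _ _).trans (Finset.sum_le_sum fun x hxS => ?_)
      rw [norm_mul, Complex.norm_intCast]
      refine mul_le_mul_of_nonneg_left ?_ (abs_nonneg _)
      exact Lx_bound hT (hS x hxS).1 (hS x hxS).2 (hx x hxS) hz hzb
    have h6 : ‖log (Q (pw T z))‖ ≤ M := by
      have h0 := ep_pos hT
      have h1 := ep_le hT
      have hsq := ep_sq hT
      obtain ⟨hs1, -⟩ := pw_sector hT hz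
      obtain ⟨hzx, hy⟩ := hz
      have hpi := Real.pi_lt_d2
      have e1 : |ep T * z.im| ≤ 1 / 100 * Real.pi := by
        rw [abs_mul, abs_of_pos h0]
        gcongr
      have e2 := abs_le.1 e1
      refine hM _ hs1.le ?_ ?_
      · rw [pw_re, div_le_iff₀ hT0]
        linarith
      · refine le_trans ?_ hδ
        rw [pw_im, abs_div, abs_of_pos hT0, div_le_iff₀ hT0]
        refine (abs_add_le _ _).trans ?_
        rw [abs_of_nonneg (show 0 ≤ ep T * z.re by positivity)]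
        have h7 : ep T * z.re ≤ ep T * (2 * T + 1) := by gcongr
        have h8 : 100 ≤ ep T * T := by
          have h9 : ep T * T * ep T = 1 := by rw [← hsq]; ring
          by_contra hcon
          push Not at hcon
          have : ep T * T * ep T < 100 * (1 / 100) := by
            apply mul_lt_mul'' hcon (lt_of_le_of_ne h1 ?_) (by positivity) h0.le
            intro heq
            rw [heq] at h9 hcon
            linarith
          linarith
        linarith
    have h7 : ∑ x ∈ S, |(k x : ℝ)| * ((12 - Real.log (x / 4)) + 1 / x * z.re) =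
        ∑ x ∈ S, |(k x : ℝ)| * (12 - Real.log (x / 4)) +
        (∑ x ∈ S, |(k x : ℝ)| * (1 / x)) * z.re := by
      rw [Finset.sum_mul, ← Finset.sum_add_distrib]
      refine Finset.sum_congr rfl fun x _ => ?_
      ring
    rw [h7] at h5
    refine (norm_add_le _ _).trans (le_trans (add_le_add ((norm_add_le _ _).trans
      (add_le_add h4 h5)) h6) (le_of_eq ?_))
    ring

theorem J_one (a : ℝ) : J a (fun _ => (1 : ℂ)) = 1 := by
  have h := J_exp_zero a
  simpa using h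

theorem rho_const (C : ℂ) (x : ℝ) : rho (fun _ => C) x = 0 := by
  unfold rho; simp

theorem V_one (a : ℝ) : V a (fun _ => (1 : ℂ)) = 1 := by
  have h := J_one a
  unfold J at h
  simpa [rho_const] using h

theorem V_const (a : ℝ) (C : ℂ) : V a (fun _ => C) = C := by
  have h : V a (fun _ => C * 1) = C * V a (fun _ => 1) := V_const_mul C
  rw [V_one, mul_one] at h
  simpa using h

end Pool.Agent.W76.BK
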