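import Pool.Agent.W76.BK.Main

/-! The abstract theorem for the rotated Mittag-Leffler means: the limit. -/

set_option autoImplicit false

namespace Pool.Agent.W76.BK

open Complex MeasureTheory Filter Topology Set
open Pool.Agent.W189.ML
open scoped Interval

variable {ι : Type} {lam : ι → ℝ} {c : ι → ℝ} {G : ℂ → ℂ}

/-- the branch of the logarithm near `2` -/
theorem branch (D : SData lam c G) {S : Finset ℝ} (hS : ∀ x ∈ S, 0 < x ∧ x ≤ 1) (k : ℝ → ℤ) (m : ℤ)
    (Q : ℂ → ℂ) (hQa : AnalyticAt ℂ Q 2) (hQs : Q 2 ∈ slitPlane) (hQ2 : (log (Q 2)).im = 0)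
    (hΦ : ∀ᶠ w in 𝓝 (2 : ℂ), exp (G w - ser lam c w) = w ^ m * (∏ x ∈ S, (w - x) ^ (k x)) * Q w)
    (hcont : ContinuousAt (ser lam c) 2) :
    ∃ δ > 0, ∀ w : ℂ, dist w 2 < δ → G w - ser lam c w = LL S k m Q w := by
  set d : ℂ → ℂ := fun w => G w - ser lam c w - LL S k m Q w with hd
  have h2s : (2 : ℂ) ∈ slitPlane := by
    left; norm_num
  have hxs : ∀ x ∈ S, -I * ((2 : ℂ) - x) ∈ slitPlane := by
    intro x hx
    rw [Complex.mem_slitPlane_iff]
    right
    have := (hS x hx).2
    simp
    linarith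
  have hLc : ContinuousAt (LL S k m Q) 2 := by
    unfold LL
    refine ContinuousAt.add (ContinuousAt.add ?_ ?_) (hQa.continuousAt.clog hQs)
    · exact continuousAt_const.mul (continuousAt_clog h2s)
    · refine tendsto_finsetSum _ fun x hx => ?_
      refine ContinuousAt.mul continuousAt_const ?_
      unfold Lx
      exact ContinuousAt.add (ContinuousAt.clog (by fun_prop) (hxs x hx)) continuousAt_const
  have hdc : ContinuousAt d 2 :=
    ContinuousAt.sub (ContinuousAt.sub (D.Gd 2 (by norm_num)).continuousAt hcont) hLc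
  have hexp : ∀ᶠ w in 𝓝 (2 : ℂ), exp (d w) = 1 := by
    have e1 : ∀ᶠ w in 𝓝 (2 : ℂ), w ≠ 0 := isOpen_ne.mem_nhds (by norm_num)
    have e2 : ∀ᶠ w in 𝓝 (2 : ℂ), Q w ≠ 0 := hQa.continuousAt.eventually_ne (slitPlane_ne_zero hQs)
    have e3 : ∀ᶠ w in 𝓝 (2 : ℂ), ∀ x ∈ S, w ≠ (x : ℂ) := by
      rw [Filter.eventually_all_finset]
      intro x hx
      refine isOpen_ne.mem_nhds ?_
      have := (hS x hx).2
      intro h
      have h3 := congrArg Complex.re h
      simp at h3
      linarith
    filter_upwards [hΦ, e1, e2, e3] with w h3 h4 h5 h6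
    rw [hd]
    simp only
    rw [Complex.exp_sub, h3, exp_LL h4 h6 h5]
    refine div_self (mul_ne_zero (mul_ne_zero (zpow_ne_zero _ h4) ?_) h5)
    exact Finset.prod_ne_zero_iff.2 fun x hx => zpow_ne_zero _ (sub_ne_zero.2 (h6 x hx))
  have hd2 : d 2 = 0 := by
    have e1 := hexp.self_of_nhds
    have e2 : (d 2).im = 0 := by
      have hLim : (LL S k m Q 2).im = 0 := by
        unfold LL
        rw [Complex.add_im, Complex.add_im, hQ2, Complex.im_sum]
        have h3 : ∀ x ∈ S, ((k x : ℂ) * Lx x 2).im = 0 := by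
          intro x hx
          have h4 := Lx_real (x := x) (s := 2) (by linarith [(hS x hx).2])
          have h5 : Lx x (2 : ℂ) = (Real.log (2 - x) : ℝ) := by
            rw [← h4]; push_cast; rfl
          rw [h5]
          simp
        rw [Finset.sum_eq_zero h3]
        have h6 : log (2 : ℂ) = ((Real.log 2 : ℝ) : ℂ) := by
          rw [← Complex.ofReal_ofNat, Complex.ofReal_log (by norm_num)]
        have h7 : ((m : ℂ) * log (2 : ℂ)).im = 0 := by
          rw [h6, Complex.mul_im, Complex.ofReal_im, Complex.intCast_im, mul_zero, zero_mul,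
            add_zero]
        rw [h7, add_zero, add_zero]
      rw [hd]
      simp only [Complex.sub_im, D.G2, SData.ser_two lam c, hLim, sub_zero]
    have e3 : d 2 = ((d 2).re : ℂ) := by
      apply Complex.ext <;> simp [e2]
    rw [e3, ← Complex.ofReal_exp] at e1
    have e4 : Real.exp (d 2).re = 1 := by exact_mod_cast e1
    rw [Real.exp_eq_one_iff] at e4
    rw [e3, e4]
    simp
  have hsmall : ∀ᶠ w in 𝓝 (2 : ℂ), ‖d w‖ < 1 := by
    have := hdc.norm
    have h3 : ‖d 2‖ < 1 := by rw [hd2]; simp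
    exact this.eventually (gt_mem_nhds h3)
  have hz : ∀ᶠ w in 𝓝 (2 : ℂ), d w = 0 := by
    filter_upwards [hexp, hsmall] with w e1 e2
    obtain ⟨n, hn⟩ := Complex.exp_eq_one_iff.1 e1
    by_cases hn0 : n = 0
    · rw [hn, hn0]; simp
    · exfalso
      rw [hn] at e2
      rw [norm_mul, norm_mul, norm_mul, Complex.norm_I, Complex.norm_real, Real.norm_eq_abs,
        abs_of_pos Real.pi_pos, Complex.norm_intCast] at e2
      have : (1 : ℝ) ≤ |(n : ℝ)| := by
        have := Int.one_le_abs hn0
        exact_mod_cast this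
      have h3 := Real.pi_gt_three
      norm_num at e2
      nlinarith
  obtain ⟨δ, hδ, h3⟩ := Metric.eventually_nhds_iff.1 hz
  refine ⟨δ, hδ, fun w hw => ?_⟩
  have := h3 hw
  rw [hd] at this
  simp only at this
  linear_combination this

/-- the thin rectangle around `[0, 3]` -/
theorem thin (Q : ℂ → ℂ) (hQ : ∀ x ∈ Icc (0 : ℝ) 3, AnalyticAt ℂ Q (x : ℂ))
    (hQp : ∀ x ∈ Icc (0 : ℝ) 3, Q (x : ℂ) ∈ slitPlane) :
    ∃ δ₂ > 0, ∃ M : ℝ, 0 ≤ M ∧ (∀ w : ℂ, 0 ≤ w.re → w.re ≤ 3 →
      |w.im| ≤ δ₂ → ‖log (Q w)‖ ≤ M) ∧ (∀ w : ℂ, 0 ≤ w.re → w.re ≤ 3 →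
      |w.im| ≤ δ₂ → DifferentiableAt ℂ (fun w => log (Q w)) w) := by
  set Kc : Set ℂ := (fun x : ℝ => (x : ℂ)) '' Icc 0 3 with hKc
  have hKcc : IsCompact Kc := isCompact_Icc.image (by fun_prop)
  set U : Set ℂ := {w | AnalyticAt ℂ Q w ∧ Q w ∈ slitPlane} with hU
  have hUo : IsOpen U := by
    rw [isOpen_iff_mem_nhds]
    rintro w ⟨hw1, hw2⟩
    filter_upwards [hw1.eventually_analyticAt,
      hw1.continuousAt.eventually (isOpen_slitPlane.mem_nhds hw2)] with v h3 h4
    exact ⟨h3, h4⟩
  have hKU : Kc ⊆ U := by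
    rintro _ ⟨x, hx, rfl⟩
    exact ⟨hQ x hx, hQp x hx⟩
  obtain ⟨δ₂, hδ₂, hsub⟩ := hKcc.exists_cthickening_subset_open hUo hKU
  have hcc : IsCompact (Metric.cthickening δ₂ Kc) := hKcc.cthickening
  have hlc : ContinuousOn (fun w => log (Q w)) (Metric.cthickening δ₂ Kc) := by
    intro w hw
    obtain ⟨h3, h4⟩ := hsub hw
    exact (h3.continuousAt.clog h4).continuousWithinAt
  obtain ⟨M, hM⟩ := hcc.exists_bound_of_continuousOn hlc
  have hmem : ∀ w : ℂ, 0 ≤ w.re → w.re ≤ 3 → |w.im| ≤ δ₂ → w ∈ Metric.cthickening δ₂ Kc := by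
    intro w h3 h4 h5
    refine Metric.mem_cthickening_of_dist_le w (w.re : ℂ) δ₂ Kc ⟨w.re, ⟨h3, h4⟩, rfl⟩ ?_
    rw [Complex.dist_eq]
    have : w - (w.re : ℂ) = (w.im : ℂ) * I := by
      apply Complex.ext <;> simp
    rw [this, norm_mul, Complex.norm_I, mul_one, Complex.norm_real, Real.norm_eq_abs]
    exact h5
  refine ⟨δ₂, hδ₂, |M|, abs_nonneg _, fun w h3 h4 h5 => (hM w (hmem w h3 h4 h5)).trans
    (le_abs_self M), fun w h3 h4 h5 => ?_⟩
  obtain ⟨h6, h7⟩ := hsub (hmem w h3 h4 h5)
  exact h6.differentiableAt.clog h7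

/-- points of the region -/
theorem pw_im_le {T : ℝ} (hT : 10000 ≤ T) {z : ℂ} (hz : z ∈ HS 1) (hzb : z.re ≤ 2 * T + 1) :
    (pw T z).re ≤ 3 ∧ |(pw T z).im| ≤ 4 * ep T := by
  have hT0 : 0 < T := by linarith
  have h0 := ep_pos hT
  have h1 := ep_le hT
  have hsq := ep_sq hT
  obtain ⟨hzx, hy⟩ := hz
  have hpi := Real.pi_lt_d2
  have e1 : |ep T * z.im| ≤ 1 / 100 * Real.pi := by
    rw [abs_mul, abs_of_pos h0]
    gcongr
  have e2 := abs_le.1 e1
  constructor
  · rw [pw_re, div_le_iff₀ hT0]
    linarith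
  · rw [pw_im, abs_div, abs_of_pos hT0, div_le_iff₀ hT0]
    refine (abs_add_le _ _).trans ?_
    rw [abs_of_nonneg (show 0 ≤ ep T * z.re by positivity)]
    have h7 : ep T * z.re ≤ ep T * (2 * T + 1) := by gcongr
    have h8 : 100 ≤ ep T * T := by
      have h9 : ep T * T * ep T = 1 := by rw [← hsq]; ring
      by_contra hcon
      push Not at hcon
      have : ep T * T * ep T < 100 * (1 / 100) := by
        apply mul_lt_mul'' hcon (lt_of_le_of_ne h1 ?_) (by positivity) h0.le
        intro heq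
        rw [heq] at h9 hcon
        linarith
      linarith
    linarith

theorem Psi_diff {S : Finset ℝ} (hS : ∀ x ∈ S, 0 < x ∧ x ≤ 1) (k : ℝ → ℤ) (m : ℤ) {Q : ℂ → ℂ}
    {δ₂ : ℝ} (hQd : ∀ w : ℂ, 0 ≤ w.re → w.re ≤ 3 →
      |w.im| ≤ δ₂ → DifferentiableAt ℂ (fun w => log (Q w)) w)
    {T : ℝ} (hT : 10000 ≤ T) (hδ : 4 * ep T ≤ δ₂) (hx : ∀ x ∈ S, 16 * ep T ≤ x) {z : ℂ}
    (hz : z ∈ HS 1) (hzb : z.re ≤ 2 * T + 1) : DifferentiableAt ℂ (Psi S k m Q T) z := by
  have h0 := ep_pos hT
  obtain ⟨h1, -, -⟩ := kfz hT hz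
  obtain ⟨h2, h3⟩ := pw_im_le hT hz hzb
  have h4 := (pw_sector hT hz).1
  unfold Psi
  refine DifferentiableAt.add (DifferentiableAt.add ?_ ?_) ?_
  · exact (DifferentiableAt.clog (by fun_prop) h1).const_mul _
  · refine DifferentiableAt.fun_sum fun x hxS => ?_
    refine DifferentiableAt.const_mul ?_ _
    unfold Lx
    refine DifferentiableAt.add_const _ (DifferentiableAt.clog ?_ ?_)
    · exact (((pw_diff T) z).sub_const _).const_mul _
    · exact pw_slit hT (hS x hxS).1 (by have := hx x hxS; linarith) hz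
  · exact DifferentiableAt.comp (g := fun w => log (Q w)) (f := pw T) z
      (hQd _ h4.le h2 (h3.trans hδ)) ((pw_diff T) z)

theorem Psi_tendsto {S : Finset ℝ} (hS : ∀ x ∈ S, 0 < x ∧ x ≤ 1) (k : ℝ → ℤ) (m : ℤ) {Q : ℂ → ℂ}
    (hQa : AnalyticAt ℂ Q 0) (hQs : Q 0 ∈ slitPlane) {z : ℂ} (hz : z ∈ HS 1) :
    Tendsto (fun T => Psi S k m Q T z) atTop
      (𝓝 (m * log z + ∑ x ∈ S, (k x : ℂ) * (log x + Real.pi * I) + log (Q 0))) := by
  unfold Psi
  refine Tendsto.add (Tendsto.add ?_ ?_) ?_
  · have h1 : Tendsto (fun T => kf T * z) atTop (𝓝 (1 * z)) := kf_tendsto.mul_const z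
    rw [one_mul] at h1
    have hzs : z ∈ slitPlane := Or.inl (by have := hz.1; linarith)
    exact ((continuousAt_clog hzs).tendsto.comp h1).const_mul _
  · exact tendsto_finsetSum _ fun x hx => (Lx_tendsto (hS x hx).1 z).const_mul _
  · have h1 : ContinuousAt (fun w => log (Q w)) 0 := hQa.continuousAt.clog hQs
    exact h1.tendsto.comp (pw_tendsto z)

theorem cont_HS (a : ℝ) {Φ : ℂ → ℂ} (h : ContinuousOn Φ (HS a)) :
    ContinuousOn (rho Φ) (Ioi a) := by
  unfold rho
  refine continuousOn_const.mul (ContinuousOn.mul (by fun_prop) (ContinuousOn.sub ?_ ?_))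
  · exact h.comp (by fun_prop) fun x hx => up_mem (le_of_lt hx)
  · exact h.comp (by fun_prop) fun x hx => down_mem (le_of_lt hx)

/-- the rays beyond `b` are exponentially small -/
theorem rays_small {b C : ℝ} (hb : 0 ≤ b) (hC : 0 ≤ C) {Φ : ℂ → ℂ} (h : ∀ z ∈ HS b, ‖Φ z‖ ≤ C) :
    ‖∫ x in Ioi b, rho Φ x‖ ≤ C * Real.exp (-b) := by
  have hg : IntegrableOn (fun x : ℝ => (C + 0) * Real.exp (-x)) (Ioi b) :=
    (integrableOn_exp_neg_Ioi b).const_mul _
  have h3 : ‖∫ x in Ioi b, rho Φ x‖ ≤ ∫ x in Ioi b, (C + 0) * Real.exp (-x) := by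
    refine norm_integral_le_of_norm_le hg ?_
    filter_upwards [ae_restrict_mem measurableSet_Ioi] with x hx
    have hx' : b ≤ x := le_of_lt hx
    refine norm_rho_le hb hC le_rfl hx' ?_ ?_
    · have := h _ (up_mem hx'); linarith
    · have := h _ (down_mem hx'); linarith
  rw [integral_const_mul, integral_exp_neg_Ioi, add_zero] at h3
  exact h3

/-- **Main abstract theorem.** -/
theorem main_tendsto [Countable ι] (D : SData lam c G) {S : Finset ℝ}
    (hS : ∀ x ∈ S, 0 < x ∧ x ≤ 1) (k : ℝ → ℤ) (m : ℤ)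
    (Q : ℂ → ℂ) (hQ : ∀ x ∈ Icc (0 : ℝ) 3, AnalyticAt ℂ Q (x : ℂ))
    (hQp : ∀ x ∈ Icc (0 : ℝ) 3, Q (x : ℂ) ∈ slitPlane) (hQ2 : (log (Q 2)).im = 0)
    (hΦ : ∀ᶠ w in 𝓝 (2 : ℂ), exp (G w - ser lam c w) = w ^ m * (∏ x ∈ S, (w - x) ^ (k x)) * Q w)
    (hcont : ContinuousAt (ser lam c) 2) :
    Tendsto (fun T : ℝ => cmean lam c T - m * Real.log T - J 1 (fun z => G (pw T z))) atTop
      (𝓝 (-(m * J 1 log + (∑ x ∈ S, (k x : ℂ) * (log x + Real.pi * I) + log (Q 0))))) := by
  obtain ⟨CG, hCG⟩ := D.Gb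
  have hQ2a : AnalyticAt ℂ Q 2 := by
    have := hQ 2 ⟨by norm_num, by norm_num⟩
    simpa using this
  have hQ2s : Q 2 ∈ slitPlane := by
    have := hQp 2 ⟨by norm_num, by norm_num⟩
    simpa using this
  have hQ0a : AnalyticAt ℂ Q 0 := by
    have := hQ 0 ⟨le_rfl, by norm_num⟩
    simpa using this
  have hQ0s : Q 0 ∈ slitPlane := by
    have := hQp 0 ⟨le_rfl, by norm_num⟩
    simpa using this
  obtain ⟨δ, hδ, hbr⟩ := branch D hS k m Q hQ2a hQ2s hQ2 hΦ hcont
  obtain ⟨δ₂, hδ₂, M, hM0, hM, hQd⟩ := thin Q hQ hQp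
  obtain ⟨A, B, hA, hB, hPb⟩ := Psi_bound hS k m hM0 hM
  -- `T` large
  have hlarge : ∀ᶠ T : ℝ in atTop, 10000 ≤ T ∧ 4 * ep T ≤ δ₂ ∧ (∀ x ∈ S, 16 * ep T ≤ x) ∧
      8 * ep T < δ := by
    refine (eventually_ge_atTop 10000).and (Eventually.and ?_ (Eventually.and ?_ ?_))
    · have h1 := ep_tendsto.const_mul 4
      rw [mul_zero] at h1
      exact (h1.eventually (gt_mem_nhds hδ₂)).mono fun T h => le_of_lt h
    · rw [Filter.eventually_all_finset]
      intro x hx
      have h1 := ep_tendsto.const_mul 16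
      rw [mul_zero] at h1
      exact (h1.eventually (gt_mem_nhds (hS x hx).1)).mono fun T h => le_of_lt h
    · have h1 := ep_tendsto.const_mul 8
      rw [mul_zero] at h1
      exact h1.eventually (gt_mem_nhds hδ)
  set Pinf : ℂ → ℂ := fun z => m * log z + (∑ x ∈ S, (k x : ℂ) * (log x + Real.pi * I) + log (Q 0))
    with hPinf
  have hptw : ∀ z ∈ HS 1, Tendsto (fun T => Psi S k m Q T z) atTop (𝓝 (Pinf z)) := by
    intro z hz
    have := Psi_tendsto hS k m hQ0a hQ0s hz
    rw [hPinf]
    rwa [add_assoc] at this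
  set C3 : ℝ := |CG| + ∑' i, |c i| * Real.exp (-(2 * lam i)) with hC3
  have hC30 : 0 ≤ C3 := by
    have : 0 ≤ ∑' i, |c i| * Real.exp (-(2 * lam i)) := tsum_nonneg fun i => by positivity
    positivity
  -- the identity
  have hid : ∀ᶠ T : ℝ in atTop, cmean lam c T - m * Real.log T - J 1 (fun z => G (pw T z)) =
      -(V 1 (Psi S k m Q T) + ∫ x, (Ioc 1 (2 * T + 1)).indicator (rho (Psi S k m Q T)) x) -
      ∫ x in Ioi (2 * T + 1), rho (fun z => G (pw T z) - ser lam c (pw T z)) x := by
    filter_upwards [hlarge] with T ⟨hT, h4, h16, h8⟩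
    have hT0 : 0 < T := by linarith
    have h0 := ep_pos hT
    have hb1 : (1 : ℝ) ≤ 2 * T + 1 := by linarith
    have hb0 : (0 : ℝ) ≤ 2 * T + 1 := by linarith
    have hGsec : ∀ z ∈ HS 1, ‖G (pw T z)‖ ≤ |CG| := fun z hz =>
      (hCG _ (pw_sector hT hz).1 (pw_sector hT hz).2).trans (le_abs_self _)
    have hGd : DifferentiableOn ℂ (fun z => G (pw T z)) (HS 1) := fun z hz =>
      (DifferentiableAt.comp (g := G) (f := pw T) z (D.Gd _ (pw_sector hT hz).1)
        ((pw_diff T) z)).differentiableWithinAt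
    have admG : Adm 1 (fun z => G (pw T z)) :=
      ⟨hGd.continuousOn, |CG|, 0, abs_nonneg _, le_rfl, fun z hz => by
        have := hGsec z hz; linarith⟩
    have admS : Adm (2 * T + 1) (fun z => ser lam c (pw T z)) :=
      ⟨D.ser_cont.comp (pw_cont T).continuousOn fun z hz => re_ge_two hT hz,
        ∑' i, |c i| * Real.exp (-(2 * lam i)), 0, tsum_nonneg fun i => by positivity, le_rfl,
        fun z hz => by
          have := D.ser_le (re_ge_two hT hz)
          linarith⟩
    have E1 := (cmean_eq D hT).1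
    have E3 : J (2 * T + 1) (fun z => G (pw T z)) = J 1 (fun z => G (pw T z)) :=
      (J_shift' zero_le_one hb1 admG hGd).symm
    have E2 : J (2 * T + 1) (fun z => G (pw T z) - ser lam c (pw T z)) =
        J 1 (fun z => G (pw T z)) - cmean lam c T := by
      rw [J_sub hb0 (admG.mono hb1) admS, E3, E1]
    -- the vertical part
    have hPd : ∀ z ∈ HS 1, z.re ≤ 2 * T + 1 → DifferentiableAt ℂ (Psi S k m Q T) z :=
      fun z hz hzb => Psi_diff hS k m hQd hT h4 h16 hz hzb
    have hrect : DifferentiableOn ℂ (Psi S k m Q T)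
        ([[1, 2 * T + 1]] ×ℂ [[-Real.pi, Real.pi]]) := by
      intro z hz
      have h5 := uIcc_subset_HS hb1 hz
      rw [mem_reProdIm, uIcc_of_le hb1] at hz
      exact (hPd z h5 hz.1.2).differentiableWithinAt
    have E5 : V (2 * T + 1) (fun z => G (pw T z) - ser lam c (pw T z)) =
        V (2 * T + 1) (Psi S k m Q T) - m * Real.log T := by
      have e1 : V (2 * T + 1) (fun z => G (pw T z) - ser lam c (pw T z)) =
          V (2 * T + 1) (fun z => Psi S k m Q T z - m * Real.log T) := by
        refine V_congr fun y hy => ?_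
        have hmem : ((2 * T + 1 : ℝ) : ℂ) + y * I ∈ HS 1 :=
          HS_mono hb1 (vert_mem (abs_le.1 hy).1 (abs_le.1 hy).2)
        rw [hbr, LL_eq hT hmem]
        rw [Complex.dist_eq]
        have hpi := Real.pi_lt_d2
        have hle := ep_le hT
        have hsq := ep_sq hT
        have hre : ((2 * T + 1 : ℝ) + y * I : ℂ).re = 2 * T + 1 := by simp
        have him : ((2 * T + 1 : ℝ) + y * I : ℂ).im = y := by simp
        have h5 := Complex.norm_le_abs_re_add_abs_im (pw T ((2 * T + 1 : ℝ) + y * I) - 2)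
        rw [Complex.sub_re, Complex.sub_im, pw_re, pw_im, hre, him] at h5
        have hTinv : 1 / T ≤ ep T / 100 := by
          rw [div_le_div_iff₀ hT0 (by norm_num)]
          have h9 : ep T * T * ep T = 1 := by rw [← hsq]; ring
          have h10 : ep T * T * ep T ≤ ep T * T * (1 / 100) := by gcongr
          linarith
        have e3 : (2 * T + 1 - ep T * y) / T - (2 : ℂ).re = (1 - ep T * y) * (1 / T) := by
          simp
          field_simp
          ring
        have e4 : (y + ep T * (2 * T + 1)) / T - (2 : ℂ).im = (y + ep T) * (1 / T) + 2 * ep T := by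
          simp
          field_simp
          ring
        rw [e3, e4] at h5
        have hyy := abs_le.1 hy
        have e5 : |(1 - ep T * y) * (1 / T)| ≤ 2 * (ep T / 100) := by
          rw [abs_mul, abs_of_pos (show 0 < 1 / T by positivity)]
          refine mul_le_mul ?_ hTinv (by positivity) (by norm_num)
          have : |ep T * y| ≤ 1 / 100 * Real.pi := by
            rw [abs_mul, abs_of_pos h0]; gcongr
          have := abs_le.1 this
          rw [abs_le]
          constructor <;> linarith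
        have e6 : |(y + ep T) * (1 / T) + 2 * ep T| ≤ 4 * (ep T / 100) + 2 * ep T := by
          refine (abs_add_le _ _).trans ?_
          rw [abs_mul, abs_of_pos (show 0 < 1 / T by positivity), abs_of_pos (show 0 < 2 * ep T by
            positivity)]
          refine add_le_add (mul_le_mul ?_ hTinv (by positivity) (by norm_num)) le_rfl
          rw [abs_le]
          constructor <;> linarith
        linarith
      have e2 : V (2 * T + 1) (fun z => Psi S k m Q T z - m * Real.log T) =
          V (2 * T + 1) (Psi S k m Q T) - V (2 * T + 1) (fun _ => (m : ℂ) * Real.log T) := by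
        have hpp : -Real.pi ≤ Real.pi := by linarith [Real.pi_pos]
        unfold V
        rw [← mul_sub, ← intervalIntegral.integral_sub]
        · congr 1
          refine intervalIntegral.integral_congr fun y _ => ?_
          ring
        · refine ContinuousOn.intervalIntegrable ?_
          refine ContinuousOn.mul (continuous_K.comp (by fun_prop)).continuousOn ?_
          intro y hy
          rw [uIcc_of_le hpp] at hy
          have hmem : ((2 * T + 1 : ℝ) : ℂ) + y * I ∈ HS 1 := HS_mono hb1 (vert_mem hy.1 hy.2)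
          have hc := (hPd _ hmem (by simp)).continuousAt
          exact (ContinuousAt.comp (g := Psi S k m Q T)
            (f := fun y : ℝ => ((2 * T + 1 : ℝ) : ℂ) + y * I) hc
            (by fun_prop)).continuousWithinAt
        · refine Continuous.intervalIntegrable ?_ _ _
          have := continuous_K
          fun_prop
      rw [e1, e2, V_const]
    have E9 := V_shift (a := 1) (b := 2 * T + 1) hrect
    have E10 : ∫ x in (1 : ℝ)..(2 * T + 1), rho (Psi S k m Q T) x =
        ∫ x, (Ioc 1 (2 * T + 1)).indicator (rho (Psi S k m Q T)) x := by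
      rw [intervalIntegral.integral_of_le hb1, integral_indicator measurableSet_Ioc]
    unfold J at E2
    rw [E5, E9, E10] at E2
    unfold J
    linear_combination E2
  -- the limits
  have L1 : Tendsto (fun T : ℝ => V 1 (Psi S k m Q T)) atTop (𝓝 (V 1 Pinf)) := by
    unfold V
    refine Tendsto.const_mul _ ?_
    refine intervalIntegral.tendsto_integral_filter_of_dominated_convergence
      (fun _ => Real.exp (Real.exp 1) * (A + B)) ?_ ?_ (by simp) ?_
    · filter_upwards [hlarge] with T ⟨hT, h4, h16, h8⟩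
      refine ContinuousOn.aestronglyMeasurable ?_ measurableSet_uIoc
      refine ContinuousOn.mul (continuous_K.comp (by fun_prop)).continuousOn ?_
      intro y hy
      rw [uIoc_of_le (by linarith [Real.pi_pos])] at hy
      have hmem : ((1 : ℝ) : ℂ) + y * I ∈ HS 1 := vert_mem hy.1.le hy.2
      have hc := (Psi_diff hS k m hQd hT h4 h16 hmem (by simp; linarith)).continuousAt
      exact (ContinuousAt.comp (g := Psi S k m Q T) (f := fun y : ℝ => ((1 : ℝ) : ℂ) + y * I) hc
        (by fun_prop)).continuousWithinAt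
    · filter_upwards [hlarge] with T ⟨hT, h4, h16, h8⟩
      refine ae_of_all _ fun y hy => ?_
      rw [uIoc_of_le (by linarith [Real.pi_pos])] at hy
      have hmem : ((1 : ℝ) : ℂ) + y * I ∈ HS 1 := vert_mem hy.1.le hy.2
      rw [norm_mul]
      have h5 := hPb T hT h4 h16 _ hmem (by simp; linarith)
      have h6 : (((1 : ℝ) : ℂ) + y * I).re = 1 := by simp
      rw [h6, mul_one] at h5
      exact mul_le_mul (norm_K_le 1 y) h5 (norm_nonneg _) (Real.exp_pos _).le
    · refine ae_of_all _ fun y hy => ?_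
      rw [uIoc_of_le (by linarith [Real.pi_pos])] at hy
      have hmem : ((1 : ℝ) : ℂ) + y * I ∈ HS 1 := vert_mem hy.1.le hy.2
      exact (hptw _ hmem).const_mul _
  have L2 : Tendsto (fun T : ℝ => ∫ x, (Ioc 1 (2 * T + 1)).indicator (rho (Psi S k m Q T)) x) atTop
      (𝓝 (∫ x, (Ioi (1 : ℝ)).indicator (rho Pinf) x)) := by
    refine tendsto_integral_filter_of_dominated_convergence
      ((Ioi (1 : ℝ)).indicator fun x => (A + B) * Real.exp (-x)) ?_ ?_ ?_ ?_
    · filter_upwards [hlarge] with T ⟨hT, h4, h16, h8⟩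
      rw [aestronglyMeasurable_indicator_iff measurableSet_Ioc]
      refine ContinuousOn.aestronglyMeasurable ?_ measurableSet_Ioc
      unfold rho
      refine continuousOn_const.mul (ContinuousOn.mul (by fun_prop) (ContinuousOn.sub ?_ ?_))
      · intro x hx
        have hmem : (x : ℂ) + Real.pi * I ∈ HS 1 := up_mem hx.1.le
        have hc := (Psi_diff hS k m hQd hT h4 h16 hmem (by simpa using hx.2)).continuousAt
        exact (ContinuousAt.comp (g := Psi S k m Q T) (f := fun x : ℝ => (x : ℂ) + Real.pi * I) hc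
          (by fun_prop)).continuousWithinAt
      · intro x hx
        have hmem : (x : ℂ) - Real.pi * I ∈ HS 1 := down_mem hx.1.le
        have hc := (Psi_diff hS k m hQd hT h4 h16 hmem (by simpa using hx.2)).continuousAt
        exact (ContinuousAt.comp (g := Psi S k m Q T) (f := fun x : ℝ => (x : ℂ) - Real.pi * I) hc
          (by fun_prop)).continuousWithinAt
    · filter_upwards [hlarge] with T ⟨hT, h4, h16, h8⟩
      refine ae_of_all _ fun x => ?_
      by_cases hx : x ∈ Ioc 1 (2 * T + 1)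
      · rw [indicator_of_mem hx, indicator_of_mem (show x ∈ Ioi (1 : ℝ) from hx.1)]
        refine norm_rho_le zero_le_one hA hB hx.1.le ?_ ?_
        · have := hPb T hT h4 h16 _ (up_mem hx.1.le) (by simpa using hx.2)
          simpa using this
        · have := hPb T hT h4 h16 _ (down_mem hx.1.le) (by simpa using hx.2)
          simpa using this
      · rw [indicator_of_notMem hx, norm_zero]
        refine indicator_nonneg (fun y _ => ?_) x
        positivity
    · rw [integrable_indicator_iff measurableSet_Ioi]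
      exact (integrableOn_exp_neg_Ioi 1).const_mul _
    · refine ae_of_all _ fun x => ?_
      by_cases hx : x ∈ Ioi (1 : ℝ)
      · have hx1 : (1 : ℝ) < x := hx
        rw [indicator_of_mem hx]
        have h5 : ∀ᶠ T : ℝ in atTop, (Ioc 1 (2 * T + 1)).indicator (rho (Psi S k m Q T)) x =
            rho (Psi S k m Q T) x := by
          filter_upwards [eventually_ge_atTop x] with T hT
          rw [indicator_of_mem]
          exact ⟨hx1, by linarith⟩
        refine Tendsto.congr' (h5.mono fun T h => h.symm) ?_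
        unfold rho
        exact ((((hptw _ (up_mem hx1.le)).sub (hptw _ (down_mem hx1.le))).const_mul _).const_mul _)
      · have h5 : ∀ T : ℝ, (Ioc 1 (2 * T + 1)).indicator (rho (Psi S k m Q T)) x = 0 := by
          intro T
          rw [indicator_of_notMem]
          exact fun h => hx h.1
        simp only [h5]
        rw [indicator_of_notMem hx]
        exact tendsto_const_nhds
  have L3 : Tendsto (fun T : ℝ => ∫ x in Ioi (2 * T + 1), rho (fun z => G (pw T z) -
      ser lam c (pw T z)) x) atTop (𝓝 0) := by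
    have h5 : Tendsto (fun T : ℝ => C3 * Real.exp (-(2 * T + 1))) atTop (𝓝 0) := by
      have h6 : Tendsto (fun T : ℝ => 2 * T + 1) atTop atTop :=
        tendsto_atTop_add_const_right _ _ (tendsto_id.const_mul_atTop (by norm_num))
      have h7 := (Real.tendsto_exp_neg_atTop_nhds_zero.comp h6).const_mul C3
      rw [mul_zero] at h7
      exact h7
    refine squeeze_zero_norm' ?_ h5
    filter_upwards [hlarge] with T ⟨hT, h4, h16, h8⟩
    refine rays_small (by linarith) hC30 fun z hz => ?_
    have hz1 : z ∈ HS 1 := HS_mono (by linarith) hz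
    refine (norm_sub_le _ _).trans (add_le_add ?_ (D.ser_le (re_ge_two hT hz)))
    exact (hCG _ (pw_sector hT hz1).1 (pw_sector hT hz1).2).trans (le_abs_self _)
  have L4 := ((L1.add L2).neg.sub L3).congr' (hid.mono fun T h => h.symm)
  have hval : -(V 1 Pinf + ∫ x, (Ioi (1 : ℝ)).indicator (rho Pinf) x) - 0 =
      -(m * J 1 log + (∑ x ∈ S, (k x : ℂ) * (log x + Real.pi * I) + log (Q 0))) := by
    set C0 : ℂ := ∑ x ∈ S, (k x : ℂ) * (log x + Real.pi * I) + log (Q 0) with hC0
    rw [integral_indicator measurableSet_Ioi, sub_zero]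
    have e1 : V 1 Pinf + ∫ x in Ioi (1 : ℝ), rho Pinf x = J 1 Pinf := rfl
    rw [e1]
    congr 1
    have a4 : Adm 1 log := by
      refine ⟨?_, 7, 1, by norm_num, by norm_num, ?_⟩
      · intro z hz
        refine (continuousAt_clog ?_).continuousWithinAt
        left
        have := hz.1
        linarith
      · intro z hz
        refine (norm_log_le hz.1).trans ?_
        have h5 := Complex.norm_le_abs_re_add_abs_im z
        rw [abs_of_nonneg (by have := hz.1; linarith : 0 ≤ z.re)] at h5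
        have h6 := hz.2
        have := Real.pi_lt_four
        linarith
    have am : Adm 1 (fun z => (m : ℂ) * log z) := by
      obtain ⟨A', B', hA', hB', hb'⟩ := a4.bound
      refine ⟨continuousOn_const.mul a4.cont, |(m : ℝ)| * A', |(m : ℝ)| * B', by positivity,
        by positivity, fun z hz => ?_⟩
      rw [norm_mul, Complex.norm_intCast]
      calc |(m : ℝ)| * ‖log z‖ ≤ |(m : ℝ)| * (A' + B' * z.re) := by
            gcongr; exact hb' z hz
        _ = _ := by ring
    have ac : Adm 1 (fun _ : ℂ => -C0) :=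
      ⟨continuousOn_const, ‖C0‖, 0, norm_nonneg _, le_rfl, fun z _ => by simp⟩
    have e2 : Pinf = fun z => (m : ℂ) * log z - (-C0) := by
      funext z
      rw [hPinf]
      ring
    rw [e2, J_sub zero_le_one am ac, J_const_mul]
    have e3 : J 1 (fun _ : ℂ => -C0) = -C0 := by
      have h7 : J 1 (fun _ : ℂ => (-C0) * 1) = (-C0) * J 1 (fun _ => 1) := J_const_mul _
      rw [J_one, mul_one] at h7
      exact h7
    rw [e3]
    ring
  rw [hval] at L4
  exact L4

end Pool.Agent.W76.BK
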