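import Pool.Agent.W76.BK.Sym
import Pool.Agent.W189.LC.Main

/-! Rotated Mittag-Leffler means for a function which is meromorphic near a real segment. -/

set_option autoImplicit false

namespace Pool.Agent.W76.BK

open Complex MeasureTheory Filter Topology Set
open Pool.Agent.W189.ML Pool.Agent.W189.LC
open scoped Interval

/-- the factor with prescribed orders -/
noncomputable def PP (Z : Finset ℝ) (k : ℝ → ℤ) (w : ℂ) : ℂ := ∏ y ∈ Z, (w - y) ^ (k y)

theorem PP_mero (Z : Finset ℝ) (k : ℝ → ℤ) (w : ℂ) : MeromorphicAt (PP Z k) w := by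
  unfold PP
  fun_prop

theorem PP_neg (Z : Finset ℝ) (k : ℝ → ℤ) (w : ℂ) (hw : ∀ y ∈ Z, w ≠ (y : ℂ)) :
    PP Z k w * PP Z (fun y => -k y) w = 1 := by
  unfold PP
  rw [← Finset.prod_mul_distrib]
  refine Finset.prod_eq_one fun y hy => ?_
  rw [← zpow_add₀ (sub_ne_zero.2 (hw y hy))]
  simp

theorem PP_ne_zero (Z : Finset ℝ) (k : ℝ → ℤ) (w : ℂ) (hw : ∀ y ∈ Z, w ≠ (y : ℂ)) :
    PP Z k w ≠ 0 := by
  unfold PP
  rw [Finset.prod_ne_zero_iff]
  exact fun y hy => zpow_ne_zero _ (sub_ne_zero.2 (hw y hy))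

theorem PP_analytic (Z : Finset ℝ) (k : ℝ → ℤ) (w : ℂ) (hw : ∀ y ∈ Z, w ≠ (y : ℂ)) :
    AnalyticAt ℂ (PP Z k) w := by
  unfold PP
  refine Finset.analyticAt_fun_prod Z fun y hy => ?_
  exact AnalyticAt.zpow (by fun_prop) (sub_ne_zero.2 (hw y hy))

theorem order_one (k : ℤ) (x y : ℝ) :
    meromorphicOrderAt (fun w : ℂ => (w - y) ^ k) (x : ℂ) = if y = x then (k : WithTop ℤ) else 0 := by
  split_ifs with h
  · rw [h]
    exact meromorphicOrderAt_zpow_id_sub_const (𝕜 := ℂ) (x := (x : ℂ)) (n := k)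
  · have hne : (x : ℂ) - y ≠ 0 := by
      rw [sub_ne_zero]
      exact_mod_cast (Ne.symm h)
    have h5 : AnalyticAt ℂ (fun w : ℂ => (w - y) ^ k) (x : ℂ) := AnalyticAt.zpow (by fun_prop) hne
    rw [h5.meromorphicOrderAt_eq, h5.analyticOrderAt_eq_zero.2 (zpow_ne_zero _ hne)]
    rfl

theorem PP_order (Z : Finset ℝ) (k : ℝ → ℤ) (x : ℝ) :
    meromorphicOrderAt (PP Z k) (x : ℂ) = if x ∈ Z then (k x : WithTop ℤ) else 0 := by
  unfold PP
  rw [meromorphicOrderAt_fun_prod (fun y _ => by fun_prop)]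
  simp only [order_one]
  rw [Finset.sum_ite_eq']

variable {ι : Type} {lam c : ι → ℝ} {Φ : ℂ → ℂ}

theorem mero3 (D : MData lam c Φ) {x : ℝ} (hx : x ∈ Icc (0 : ℝ) 3) : MeromorphicAt Φ (x : ℂ) := by
  by_cases h : x ≤ 2
  · exact D.mero x ⟨hx.1, h⟩
  · push Not at h
    exact (D.analytic_right (by rw [Complex.ofReal_re]; linarith)).meromorphicAt

theorem order3 (D : MData lam c Φ) {x : ℝ} (hx : x ∈ Icc (0 : ℝ) 3) :
    meromorphicOrderAt Φ (x : ℂ) ≠ ⊤ := by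
  by_cases h : x ≤ 2
  · exact D.order_ne_top ⟨hx.1, h⟩
  · push Not at h
    rw [D.order_right (by rw [Complex.ofReal_re]; linarith)]
    exact WithTop.zero_ne_top

/-- splitting off all real zeros and poles -/
theorem factor_all (D : MData lam c Φ) : ∃ (S : Finset ℝ) (k : ℝ → ℤ) (Q : ℂ → ℂ),
    (∀ x : ℝ, x ∈ S ↔ 0 < x ∧ meromorphicOrderAt Φ (x : ℂ) ≠ 0) ∧ (∀ x ∈ S, 0 < x ∧ x ≤ 1) ∧
    (∀ x ∈ Icc (0 : ℝ) 3, meromorphicOrderAt Φ (x : ℂ) = k x) ∧
    (∀ x ∈ Icc (0 : ℝ) 3, AnalyticAt ℂ Q (x : ℂ)) ∧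
    (∀ x ∈ Icc (0 : ℝ) 3, (Q (x : ℂ)).im = 0 ∧ 0 < (Q (x : ℂ)).re) ∧
    (∀ᶠ w in 𝓝 (2 : ℂ), exp (ser lam c w) = w ^ (k 0) * (∏ x ∈ S, (w - x) ^ (k x)) * Q w) ∧
    meromorphicTrailingCoeffAt Φ 0 = (∏ x ∈ S, (-(x : ℂ)) ^ (k x)) * Q 0 := by
  classical
  set S : Finset ℝ := D.finite_zeros.toFinset.erase 0 with hS
  set k : ℝ → ℤ := fun x => (meromorphicOrderAt Φ (x : ℂ)).untop₀ with hk
  have hright : ∀ x : ℝ, 1 < x → meromorphicOrderAt Φ (x : ℂ) = 0 := fun x hx =>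
    D.order_right (by simpa using hx)
  have hSmem : ∀ x : ℝ, x ∈ S ↔ 0 < x ∧ meromorphicOrderAt Φ (x : ℂ) ≠ 0 := by
    intro x
    rw [hS, Finset.mem_erase, Set.Finite.mem_toFinset]
    constructor
    · rintro ⟨h1, h2, h3⟩
      exact ⟨lt_of_le_of_ne h2.1 (Ne.symm h1), h3⟩
    · rintro ⟨h1, h2⟩
      refine ⟨h1.ne', ⟨h1.le, ?_⟩, h2⟩
      by_contra h
      push Not at h
      exact h2 (hright x (by linarith))
  have hS1 : ∀ x ∈ S, 0 < x ∧ x ≤ 1 := by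
    intro x hx
    obtain ⟨h1, h2⟩ := (hSmem x).1 hx
    refine ⟨h1, ?_⟩
    by_contra h
    push Not at h
    exact h2 (hright x h)
  have h0S : (0 : ℝ) ∉ S := by rw [hS]; simp
  have hord : ∀ x ∈ Icc (0 : ℝ) 3, meromorphicOrderAt Φ (x : ℂ) = k x := by
    intro x hx
    rw [hk]
    exact (WithTop.coe_untop₀_of_ne_top (order3 D hx)).symm
  set Z : Finset ℝ := insert 0 S with hZ
  have hZ1 : ∀ x ∈ Z, 0 ≤ x ∧ x ≤ 1 := by
    intro x hx
    rw [hZ, Finset.mem_insert] at hx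
    rcases hx with h | h
    · rw [h]; exact ⟨le_rfl, zero_le_one⟩
    · exact ⟨(hS1 x h).1.le, (hS1 x h).2⟩
  have hPPZ : ∀ w, PP Z k w = w ^ (k 0) * ∏ x ∈ S, (w - x) ^ (k x) := by
    intro w
    unfold PP
    rw [hZ, Finset.prod_insert h0S]
    simp
  set U : Set ℂ := {z | MeromorphicAt Φ z} with hU
  set g : ℂ → ℂ := fun w => PP Z (fun y => -k y) w * Φ w with hg
  have hgm : MeromorphicOn g U := fun z hz' => by
    have h2 : MeromorphicAt Φ z := hz'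
    exact (PP_mero Z _ z).mul h2
  have hmem : ∀ x ∈ Icc (0 : ℝ) 3, (x : ℂ) ∈ U := fun x hx => mero3 D hx
  set Q : ℂ → ℂ := toMeromorphicNFOn g U with hQ
  have hNF : MeromorphicNFOn Q U := meromorphicNFOn_toMeromorphicNFOn g U
  have hord0 : ∀ x ∈ Icc (0 : ℝ) 3, meromorphicOrderAt Q (x : ℂ) = 0 := by
    intro x hx
    rw [hQ, meromorphicOrderAt_toMeromorphicNFOn hgm (hmem x hx), hg]
    have h4 : meromorphicOrderAt (fun w => PP Z (fun y => -k y) w * Φ w) (x : ℂ) =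
        meromorphicOrderAt (PP Z (fun y => -k y)) (x : ℂ) + meromorphicOrderAt Φ (x : ℂ) :=
      meromorphicOrderAt_mul (PP_mero _ _ _) (hmem x hx)
    rw [h4, PP_order]
    split_ifs with h
    · rw [hord x hx]
      norm_cast
      simp
    · rw [zero_add]
      by_contra hne
      refine h ?_
      rw [hZ, Finset.mem_insert]
      by_cases hx0 : x = 0
      · exact Or.inl hx0
      · exact Or.inr ((hSmem x).2 ⟨lt_of_le_of_ne hx.1 (Ne.symm hx0), hne⟩)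
  have hQa : ∀ x ∈ Icc (0 : ℝ) 3, AnalyticAt ℂ Q (x : ℂ) := fun x hx =>
    (hNF (hmem x hx)).meromorphicOrderAt_nonneg_iff_analyticAt.1 (hord0 x hx).ge
  have hQ0 : ∀ x ∈ Icc (0 : ℝ) 3, Q (x : ℂ) ≠ 0 := fun x hx =>
    (hNF (hmem x hx)).meromorphicOrderAt_eq_zero_iff.1 (hord0 x hx)
  have hQne : ∀ x ∈ Icc (0 : ℝ) 3, Q =ᶠ[𝓝[≠] (x : ℂ)] g := fun x hx =>
    hgm.toMeromorphicNFOn_eq_self_on_nhdsNE (hmem x hx)
  have hneZ : ∀ x : ℝ, 1 < x → ∀ y ∈ Z, (x : ℂ) ≠ (y : ℂ) := by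
    intro x hx y hy h
    have h1 : x = y := by exact_mod_cast h
    have := (hZ1 y hy).2
    linarith
  -- on `(1, 3]` the functions agree
  have hQg : ∀ x ∈ Icc (0 : ℝ) 3, 1 < x → Q =ᶠ[𝓝 (x : ℂ)] g := by
    intro x hx hx1
    have h6 : AnalyticAt ℂ g (x : ℂ) :=
      (PP_analytic Z _ _ (hneZ x hx1)).mul (D.analytic_right (by simpa using hx1))
    exact ((hQa x hx).continuousAt.eventuallyEq_nhds_iff_eventuallyEq_nhdsNE h6.continuousAt).1
      (hQne x hx)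
  have hval : ∀ x ∈ Icc (0 : ℝ) 3, 1 < x → Q (x : ℂ) =
      ((((∏ y ∈ Z, (x - y) ^ (-k y)) * Real.exp (ser lam c x).re : ℝ)) : ℂ) := by
    intro x hx hx1
    rw [(hQg x hx hx1).eq_of_nhds, hg]
    simp only
    rw [D.eq x (by simpa using hx1)]
    have h6 : ser lam c x = ((ser lam c x).re : ℂ) := by
      apply Complex.ext <;> simp [ser_real]
    rw [h6, ← Complex.ofReal_exp]
    unfold PP
    push_cast
    simp
  -- `Q` is real on the segment
  have hreal : ∀ x ∈ Icc (0 : ℝ) 3, (Q (x : ℂ)).im = 0 := by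
    have h6 : AnalyticOnNhd ℝ (fun x : ℝ => (Q (x : ℂ)).im) (Icc (0 : ℝ) 3) := by
      intro x hx
      have h7 : AnalyticAt ℝ Q (x : ℂ) := (hQa x hx).restrictScalars
      have h8 : AnalyticAt ℝ (fun x : ℝ => (x : ℂ)) x := Complex.ofRealCLM.analyticAt x
      have h9 : AnalyticAt ℝ (fun x : ℝ => Q (x : ℂ)) x := AnalyticAt.comp (g := Q) h7 h8
      exact (Complex.imCLM.analyticAt _).comp h9
    have h7 : (fun x : ℝ => (Q (x : ℂ)).im) =ᶠ[𝓝 (3 / 2)] 0 := by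
      have h8 : Ioo (1 : ℝ) 2 ∈ 𝓝 (3 / 2 : ℝ) := Ioo_mem_nhds (by norm_num) (by norm_num)
      filter_upwards [h8] with x hx
      show (Q (x : ℂ)).im = 0
      rw [hval x ⟨by linarith [hx.1], by linarith [hx.2]⟩ hx.1, Complex.ofReal_im]
    have h8 := h6.eqOn_zero_of_preconnected_of_eventuallyEq_zero isPreconnected_Icc
      (show (3 / 2 : ℝ) ∈ Icc (0 : ℝ) 3 from ⟨by norm_num, by norm_num⟩) h7
    exact fun x hx => h8 hx
  have h33 : (3 : ℝ) ∈ Icc (0 : ℝ) 3 := ⟨by norm_num, le_rfl⟩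
  have hpos3 : 0 < (Q ((3 : ℝ) : ℂ)).re := by
    rw [hval 3 h33 (by norm_num), Complex.ofReal_re]
    refine mul_pos (Finset.prod_pos fun y hy => zpow_pos ?_ _) (Real.exp_pos _)
    have := (hZ1 y hy).2
    linarith
  have hpos : ∀ x ∈ Icc (0 : ℝ) 3, 0 < (Q (x : ℂ)).re := by
    intro x hx
    by_contra hneg
    push Not at hneg
    have hc : ContinuousOn (fun x : ℝ => (Q (x : ℂ)).re) (Icc x 3) := by
      intro y hy
      have h7 : ContinuousAt Q (y : ℂ) := (hQa y ⟨hx.1.trans hy.1, hy.2⟩).continuousAt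
      have h8 : ContinuousAt (fun x : ℝ => Q (x : ℂ)) y :=
        ContinuousAt.comp (g := Q) (f := fun x : ℝ => (x : ℂ)) h7 (by fun_prop)
      exact (Complex.continuous_re.continuousAt.comp h8).continuousWithinAt
    obtain ⟨y, hy, hy0⟩ := intermediate_value_Icc hx.2 hc (show (0 : ℝ) ∈ Icc _ _ from ⟨hneg, hpos3.le⟩)
    have hyI : y ∈ Icc (0 : ℝ) 3 := ⟨hx.1.trans hy.1, hy.2⟩
    refine hQ0 y hyI ?_
    apply Complex.ext
    · simpa using hy0
    · simpa using hreal y hyI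
  refine ⟨S, k, Q, hSmem, hS1, hord, hQa, fun x hx => ⟨hreal x hx, hpos x hx⟩, ?_, ?_⟩
  · have h22 : (2 : ℝ) ∈ Icc (0 : ℝ) 3 := ⟨by norm_num, by norm_num⟩
    have h7 := hQg 2 h22 (by norm_num)
    have h8 := D.eq_near (w := ((2 : ℝ) : ℂ)) (by simp)
    have h9 : ∀ᶠ w : ℂ in 𝓝 (((2 : ℝ) : ℂ)), ∀ y ∈ Z, w ≠ (y : ℂ) := by
      rw [Filter.eventually_all_finset]
      intro y hy
      exact isOpen_ne.mem_nhds (hneZ 2 (by norm_num) y hy)
    have h10 : ((2 : ℝ) : ℂ) = 2 := by norm_num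
    rw [h10] at h7 h8 h9
    filter_upwards [h7, h8, h9] with w e1 e2 e3
    rw [e1, hg]
    simp only
    rw [← e2, ← mul_assoc, ← hPPZ, PP_neg Z k w e3, one_mul]
  · have hx0 : (0 : ℝ) ∈ Icc (0 : ℝ) 3 := ⟨le_rfl, by norm_num⟩
    have hS0 : ∀ y ∈ S, (0 : ℂ) ≠ (y : ℂ) := by
      intro y hy h
      have h1 : (0 : ℝ) = y := by exact_mod_cast h
      have := (hS1 y hy).1
      linarith
    have hQa0 : AnalyticAt ℂ Q 0 := by
      have := hQa 0 hx0
      simpa using this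
    have hQ00 : Q 0 ≠ 0 := by
      have := hQ0 0 hx0
      simpa using this
    have ha : AnalyticAt ℂ (fun w => PP S k w * Q w) 0 := (PP_analytic S k 0 hS0).mul hQa0
    have h1 := ha.meromorphicTrailingCoeffAt_of_ne_zero_of_eq_nhdsNE (f := Φ) (n := k 0)
      (mul_ne_zero (PP_ne_zero S k 0 hS0) hQ00) (by
        have h2 := hQne 0 hx0
        rw [Complex.ofReal_zero] at h2
        have h3 : ∀ᶠ w : ℂ in 𝓝[≠] (0 : ℂ), ∀ y ∈ Z, w ≠ (y : ℂ) := by
          rw [Filter.eventually_all_finset]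
          intro y hy
          rw [hZ, Finset.mem_insert] at hy
          rcases hy with h | h
          · filter_upwards [self_mem_nhdsWithin] with w hw
            rw [h, Complex.ofReal_zero]
            exact hw
          · exact nhdsWithin_le_nhds (isOpen_ne.mem_nhds (hS0 y h))
        filter_upwards [h2, h3] with w e1 e2
        have e3 : w ^ (k 0) * PP S k w = PP Z k w := by rw [hPPZ]; rfl
        rw [e1, hg]
        simp only
        rw [smul_eq_mul, sub_zero, ← mul_assoc, ← mul_assoc, e3, PP_neg Z k w e2, one_mul])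
    rw [h1]
    unfold PP
    simp

/-- **the rotated mean, unconditionally** -/
theorem cmean_limit [Countable ι] (D : MData lam c Φ) {S : Finset ℝ} {k : ℝ → ℤ}
    {Q : ℂ → ℂ} (hS1 : ∀ x ∈ S, 0 < x ∧ x ≤ 1)
    (hQa : ∀ x ∈ Icc (0 : ℝ) 3, AnalyticAt ℂ Q (x : ℂ))
    (hQr : ∀ x ∈ Icc (0 : ℝ) 3, (Q (x : ℂ)).im = 0 ∧ 0 < (Q (x : ℂ)).re)
    (hexp : ∀ᶠ w in 𝓝 (2 : ℂ), exp (ser lam c w) = w ^ (k 0) * (∏ x ∈ S, (w - x) ^ (k x)) * Q w)
    (htr : meromorphicTrailingCoeffAt Φ 0 = (∏ x ∈ S, (-(x : ℂ)) ^ (k x)) * Q 0) :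
    meromorphicTrailingCoeffAt Φ 0 ≠ 0 ∧ (meromorphicTrailingCoeffAt Φ 0).im = 0 ∧
    (‖meromorphicTrailingCoeffAt Φ 0‖ : ℂ) * exp ((∑ x ∈ S, (k x : ℂ)) * Real.pi * I) =
      meromorphicTrailingCoeffAt Φ 0 ∧
    Tendsto (fun T : ℝ => cmean lam c T + (k 0 : ℂ) * Real.log T) atTop
      (𝓝 ((k 0 : ℂ) * kap + (Real.log ‖meromorphicTrailingCoeffAt Φ 0‖ : ℝ) +
        (∑ x ∈ S, (k x : ℂ)) * Real.pi * I)) := by
  have hQ0 := hQr 0 ⟨le_rfl, by norm_num⟩
  rw [Complex.ofReal_zero] at hQ0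
  have hQ0' : Q 0 = (((Q 0).re : ℝ) : ℂ) := by
    apply Complex.ext
    · simp
    · simpa using hQ0.1
  have htr' : meromorphicTrailingCoeffAt Φ 0 = (((∏ x ∈ S, (-x) ^ (k x)) * (Q 0).re : ℝ) : ℂ) := by
    rw [htr, hQ0']
    push_cast
    simp
  have hprod : ∏ x ∈ S, (-x) ^ (k x) ≠ (0 : ℝ) := by
    rw [Finset.prod_ne_zero_iff]
    intro x hx
    refine zpow_ne_zero _ ?_
    have := (hS1 x hx).1
    linarith
  refine ⟨?_, by rw [htr', Complex.ofReal_im], ?_, ?_⟩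
  · rw [htr']
    exact_mod_cast mul_ne_zero hprod hQ0.2.ne'
  · have e1 : exp ((∑ x ∈ S, (k x : ℂ)) * Real.pi * I) = ∏ x ∈ S, ((-1 : ℂ)) ^ (k x) := by
      rw [mul_assoc, Finset.sum_mul, Complex.exp_sum]
      refine Finset.prod_congr rfl fun x _ => ?_
      rw [Complex.exp_int_mul, Complex.exp_pi_mul_I]
    have e2 : ‖meromorphicTrailingCoeffAt Φ 0‖ = (∏ x ∈ S, x ^ (k x)) * (Q 0).re := by
      rw [htr', Complex.norm_real, Real.norm_eq_abs, abs_mul, abs_of_pos hQ0.2, Finset.abs_prod]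
      congr 1
      refine Finset.prod_congr rfl fun x hx => ?_
      rw [abs_zpow, abs_neg, abs_of_pos (hS1 x hx).1]
    rw [e1, e2, htr', Complex.ofReal_mul, Complex.ofReal_mul, Complex.ofReal_prod,
      Complex.ofReal_prod, mul_right_comm, ← Finset.prod_mul_distrib]
    congr 1
    refine Finset.prod_congr rfl fun x _ => ?_
    rw [Complex.ofReal_zpow, Complex.ofReal_zpow, ← mul_zpow]
    congr 1
    push_cast
    ring
  have hser : ser lam (fun i => -c i) = fun w => -ser lam c w := funext fun w => ser_neg lam c w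
  have hmain := main_tendsto D.sdata hS1 k (k 0) Q hQa (fun x hx => mem_slit (hQr x hx))
    (by
      have := (log_im (hQr 2 ⟨by norm_num, by norm_num⟩)).1
      simpa using this) (by
      filter_upwards [hexp] with w hw
      rw [ser_neg, zero_sub, neg_neg, hw]) (by
      rw [hser]
      exact (D.ser_diff (w := 2) (by norm_num)).continuousAt.neg)
  have hJ0 : J 1 (fun _ : ℂ => (0 : ℂ)) = 0 := by
    have := J_const_mul (a := 1) (Φ := fun _ => (1 : ℂ)) (0 : ℂ)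
    simpa using this
  have h1 := hmain.neg
  rw [neg_neg, J_log_eq, (log_im hQ0).2] at h1
  have hcm : ∀ T : ℝ, -(cmean lam (fun i => -c i) T - (k 0 : ℂ) * Real.log T -
      J 1 (fun z => (fun _ : ℂ => (0 : ℂ)) (pw T z))) = cmean lam c T + (k 0 : ℂ) * Real.log T := by
    intro T
    have e1 : cmean lam (fun i => -c i) T = -cmean lam c T := by
      unfold cmean
      rw [← tsum_neg]
      refine tsum_congr fun i => ?_
      push_cast
      ring
    rw [e1]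
    show -(-cmean lam c T - (k 0 : ℂ) * Real.log T - J 1 (fun _ : ℂ => (0 : ℂ))) = _
    rw [hJ0]
    ring
  simp only [hcm] at h1
  refine h1.trans (le_of_eq ?_)
  congr 1
  have hn : Real.log ‖meromorphicTrailingCoeffAt Φ 0‖ = ∑ x ∈ S, (k x : ℝ) * Real.log x +
      Real.log (Q 0).re := by
    rw [htr', Complex.norm_real, Real.norm_eq_abs, abs_mul, abs_of_pos hQ0.2,
      Real.log_mul (abs_ne_zero.2 hprod) hQ0.2.ne', Finset.abs_prod, Real.log_prod]
    · congr 1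
      refine Finset.sum_congr rfl fun x hx => ?_
      rw [abs_zpow, abs_neg, abs_of_pos (hS1 x hx).1, Real.log_zpow]
    · intro x hx
      have := (hS1 x hx).1
      rw [abs_ne_zero]
      exact zpow_ne_zero _ (by linarith)
  rw [hn]
  have hs : ∑ x ∈ S, (k x : ℂ) * (log x + Real.pi * I) =
      ((∑ x ∈ S, (k x : ℝ) * Real.log x : ℝ) : ℂ) + (∑ x ∈ S, (k x : ℂ)) * Real.pi * I := by
    push_cast
    rw [mul_assoc, Finset.sum_mul, ← Finset.sum_add_distrib]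
    refine Finset.sum_congr rfl fun x hx => ?_
    rw [Complex.ofReal_log (hS1 x hx).1.le]
    ring
  rw [hs]
  push_cast
  ring

end Pool.Agent.W76.BK
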