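import Pool.Agent.W76.BK.EPR
import Pool.Agent.W263.EP.Bad

/-! Rotated Mittag-Leffler sums of Frobenius traces: systems of traces over a system of norms. -/

set_option autoImplicit false

namespace Pool.Agent.W76.BK.Mot

open Complex MeasureTheory Filter Topology Set
open Pool.Agent.W189.ML Pool.Agent.W189.LC Pool.Agent.W76.BK
open Pool.Agent.H341R2 (NormSys)
open Pool.Agent.W263.EP (TData tn hh xx LFB LF BB)

variable {S : NormSys} {t : S.X → ℕ → ℝ} {D : ℝ}

/-- the frequencies -/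
noncomputable def lamM (S : NormSys) (p : S.X × ℕ) : ℝ := (p.2 + 1) * Real.log (S.N p.1)

/-- the coefficients -/
noncomputable def cM (S : NormSys) (t : S.X → ℕ → ℝ) (p : S.X × ℕ) : ℝ :=
  t p.1 (p.2 + 1) / (p.2 + 1)

theorem countX (S : NormSys) : Countable S.X := by
  have h := (S.summable (-2) (by norm_num)).countable_support
  have h2 : Function.support (fun x : S.X => (S.N x : ℝ) ^ (-2 : ℝ)) = univ := by
    ext x
    simp only [Function.mem_support, mem_univ, iff_true]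
    exact (Real.rpow_pos_of_pos (S.N_pos x) _).ne'
  rw [h2] at h
  exact Set.countable_univ_iff.1 h

theorem lamM_nonneg (p : S.X × ℕ) : 0 ≤ lamM S p := by
  unfold lamM
  have h1 : (1 : ℝ) ≤ S.N p.1 := by
    have := S.two_le p.1
    exact_mod_cast (by omega : 1 ≤ S.N p.1)
  have := Real.log_nonneg h1
  positivity

theorem term_eq (p : S.X × ℕ) (w : ℂ) : (cM S t p : ℂ) * exp (-(w * lamM S p)) =
    (t p.1 (p.2 + 1) : ℂ) / (p.2 + 1) * xx S p.1 w ^ (p.2 + 1) := by
  unfold cM lamM xx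
  rw [Complex.cpow_def_of_ne_zero (S.N_ne p.1), ← Complex.exp_nat_mul, ← Complex.natCast_log]
  congr 1
  · push_cast
    rfl
  · congr 1
    push_cast
    ring

theorem ser_eq (w : ℂ) : ser (lamM S) (cM S t) w = Pool.Agent.W263.EP.LL S t w := by
  unfold ser Pool.Agent.W263.EP.LL
  exact tsum_congr fun p => term_eq p w

theorem sumM (E : TData S t D) {σ : ℝ} (hσ : 1 / 2 < σ) :
    Summable fun p => |cM S t p| * Real.exp (-(σ * lamM S p)) := by
  refine Summable.of_nonneg_of_le (fun p => by positivity) (fun p => ?_)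
    (Pool.Agent.W263.EP.prod_summable S (show -(1 / 2) - σ < -1 by linarith) D 0)
  have h1 := E.LL_le p (w := (σ : ℂ)) (δ := σ) (by linarith) (by simp)
  rw [← term_eq, norm_mul, Complex.norm_real, Real.norm_eq_abs, Complex.norm_exp] at h1
  have h2 : (-((σ : ℂ) * lamM S p)).re = -(σ * lamM S p) := by
    rw [Complex.neg_re, ← Complex.ofReal_mul, Complex.ofReal_re]
  rwa [h2] at h1

/-- the function, extended to the half plane -/
noncomputable def PhiM (S : NormSys) (t : S.X → ℕ → ℝ) (F H : ℂ → ℂ) (c : ℝ) (w : ℂ) : ℂ :=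
  open Classical in
  if 1 < w.re then exp (Pool.Agent.W263.EP.LL S t w) else F (c + w) * H (c + w)

variable {F H : ℂ → ℂ} {c : ℝ}

theorem mero_shift {x : ℝ} (hF : MeromorphicAt F ((c + x : ℝ) : ℂ)) :
    MeromorphicAt (fun w : ℂ => F (c + w)) (x : ℂ) := by
  have h1 : MeromorphicAt F ((c : ℂ) + (x : ℂ)) := by
    have := hF
    push_cast at this
    exact this
  exact h1.comp_analyticAt (g := fun w : ℂ => c + w) (by fun_prop)

theorem frequently_real (x : ℝ) {p : ℂ → Prop} {a : ℝ} (ha : a < x) (h : ∀ y : ℝ, a < y → p y) :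
    ∃ᶠ z in 𝓝[≠] (x : ℂ), p z := by
  have h4 : Tendsto (fun w : ℝ => (w : ℂ)) (𝓝[>] x) (𝓝[≠] (x : ℂ)) := by
    rw [tendsto_nhdsWithin_iff]
    constructor
    · exact tendsto_nhdsWithin_of_tendsto_nhds (Complex.continuous_ofReal.tendsto x)
    · filter_upwards [self_mem_nhdsWithin] with w hw
      have : x < w := hw
      show (w : ℂ) ≠ (x : ℂ)
      exact_mod_cast this.ne'
  refine h4.frequently (Eventually.frequently ?_)
  filter_upwards [self_mem_nhdsWithin] with w hw
  have : x < w := hw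
  exact h w (by linarith)

theorem near (E : TData S t D) (hF : ∀ s : ℝ, c ≤ s → MeromorphicAt F (s : ℂ))
    (hH : Differentiable ℂ H)
    (heq : ∀ x : ℝ, 1 / 2 < x → F (c + x) * H (c + x) = exp (Pool.Agent.W263.EP.LL S t x))
    {x : ℝ} (hx : 1 / 2 < x) :
    (fun w : ℂ => F (c + w) * H (c + w)) =ᶠ[𝓝[≠] (x : ℂ)]
      fun w => exp (Pool.Agent.W263.EP.LL S t w) := by
  have h1 : MeromorphicAt (fun w : ℂ => F (c + w)) (x : ℂ) := mero_shift (hF _ (by linarith))
  have h2 : MeromorphicAt (fun w : ℂ => H (c + w)) (x : ℂ) := by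
    have : Differentiable ℂ fun w : ℂ => H (c + w) := hH.comp (by fun_prop)
    exact (this.analyticAt _).meromorphicAt
  have h3 : AnalyticAt ℂ (fun w => exp (Pool.Agent.W263.EP.LL S t w)) (x : ℂ) := by
    refine Complex.analyticAt_iff_eventually_differentiableAt.mpr ?_
    have ho : IsOpen {z : ℂ | 1 / 2 < z.re} := isOpen_lt continuous_const Complex.continuous_re
    filter_upwards [ho.mem_nhds (show (x : ℂ) ∈ {z : ℂ | 1 / 2 < z.re} by
      show 1 / 2 < (x : ℂ).re
      rwa [Complex.ofReal_re])] with z hz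
    exact (E.LL_diff hz).cexp
  refine (MeromorphicAt.frequently_eq_iff_eventuallyEq (h1.mul h2) h3.meromorphicAt).1 ?_
  exact frequently_real x hx fun y hy => heq y hy

theorem Phi_near (E : TData S t D) (hF : ∀ s : ℝ, c ≤ s → MeromorphicAt F (s : ℂ))
    (hH : Differentiable ℂ H)
    (heq : ∀ x : ℝ, 1 / 2 < x → F (c + x) * H (c + x) = exp (Pool.Agent.W263.EP.LL S t x))
    (x : ℝ) : PhiM S t F H c =ᶠ[𝓝[≠] (x : ℂ)] fun w : ℂ => F (c + w) * H (c + w) := by
  by_cases hx : x < 1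
  · have ho : IsOpen {z : ℂ | z.re < 1} := isOpen_lt Complex.continuous_re continuous_const
    refine Filter.EventuallyEq.filter_mono (l := 𝓝 (x : ℂ)) ?_ nhdsWithin_le_nhds
    filter_upwards [ho.mem_nhds (show (x : ℂ) ∈ {z : ℂ | z.re < 1} by
      show (x : ℂ).re < 1
      rwa [Complex.ofReal_re])] with z hz
    have hz' : z.re < 1 := hz
    unfold PhiM
    rw [if_neg (by linarith)]
  · push Not at hx
    filter_upwards [near E hF hH heq (show 1 / 2 < x by linarith)] with z hz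
    unfold PhiM
    split_ifs with h
    · exact hz.symm
    · rfl

theorem mdataM (E : TData S t D) (hF : ∀ s : ℝ, c ≤ s → MeromorphicAt F (s : ℂ))
    (hH : Differentiable ℂ H)
    (heq : ∀ x : ℝ, 1 / 2 < x → F (c + x) * H (c + x) = exp (Pool.Agent.W263.EP.LL S t x)) :
    MData (lamM S) (cM S t) (PhiM S t F H c) where
  lam_pos := lamM_nonneg
  sum := fun σ hσ => sumM E (by linarith)
  mero := fun x hx => by
    have h1 : MeromorphicAt (fun w : ℂ => F (c + w)) (x : ℂ) := mero_shift (hF _ (by linarith [hx.1]))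
    have h2 : MeromorphicAt (fun w : ℂ => H (c + w)) (x : ℂ) := by
      have : Differentiable ℂ fun w : ℂ => H (c + w) := hH.comp (by fun_prop)
      exact (this.analyticAt _).meromorphicAt
    exact (MeromorphicAt.meromorphicAt_congr (Phi_near E hF hH heq x)).2 (h1.mul h2)
  eq := fun w hw => by
    rw [ser_eq]
    unfold PhiM
    rw [if_pos hw]

theorem order_shiftM (F : ℂ → ℂ) (x : ℝ) :
    meromorphicOrderAt (fun w => F (c + w)) (x : ℂ) = meromorphicOrderAt F ((c + x : ℝ) : ℂ) := by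
  have h1 : (fun w : ℂ => F (c + w)) = F ∘ (· + (c : ℂ)) := by
    funext w; simp [add_comm]
  rw [h1, meromorphicOrderAt_comp_add_const_eq_meromorphicOrderAt]
  push_cast
  rw [add_comm]

theorem coeff_shiftM (F : ℂ → ℂ) :
    meromorphicTrailingCoeffAt (fun w => F (c + w)) 0 = meromorphicTrailingCoeffAt F c := by
  have h1 : (fun w : ℂ => F (c + w)) = F ∘ (· + (c : ℂ)) := by
    funext w; simp [add_comm]
  rw [h1, meromorphicTrailingCoeffAt_comp_add_const_eq_meromorphicTrailingCoeffAt]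
  simp

theorem Phi_order (E : TData S t D) (hF : ∀ s : ℝ, c ≤ s → MeromorphicAt F (s : ℂ))
    (hH : Differentiable ℂ H) (hH0 : ∀ s : ℝ, c ≤ s → H s ≠ 0)
    (heq : ∀ x : ℝ, 1 / 2 < x → F (c + x) * H (c + x) = exp (Pool.Agent.W263.EP.LL S t x))
    {x : ℝ} (hx : 0 ≤ x) :
    meromorphicOrderAt (PhiM S t F H c) (x : ℂ) = meromorphicOrderAt F ((c + x : ℝ) : ℂ) := by
  have h1 : MeromorphicAt (fun w : ℂ => F (c + w)) (x : ℂ) := mero_shift (hF _ (by linarith))
  have h2 : Differentiable ℂ fun w : ℂ => H (c + w) := hH.comp (by fun_prop)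
  have h3 := (h2.analyticAt (x : ℂ))
  have h0 : H (c + x) ≠ 0 := by
    have := hH0 (c + x) (by linarith)
    push_cast at this
    exact this
  rw [meromorphicOrderAt_congr (Phi_near E hF hH heq x)]
  have h4 : meromorphicOrderAt (fun w : ℂ => F (c + w) * H (c + w)) (x : ℂ) =
      meromorphicOrderAt (fun w : ℂ => F (c + w)) (x : ℂ) +
        meromorphicOrderAt (fun w : ℂ => H (c + w)) (x : ℂ) :=
    meromorphicOrderAt_mul h1 h3.meromorphicAt
  rw [h4, h3.meromorphicOrderAt_eq, h3.analyticOrderAt_eq_zero.2 h0, order_shiftM]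
  simp

theorem Phi_coeff (E : TData S t D) (hF : ∀ s : ℝ, c ≤ s → MeromorphicAt F (s : ℂ))
    (hH : Differentiable ℂ H) (hH0 : ∀ s : ℝ, c ≤ s → H s ≠ 0)
    (heq : ∀ x : ℝ, 1 / 2 < x → F (c + x) * H (c + x) = exp (Pool.Agent.W263.EP.LL S t x)) :
    meromorphicTrailingCoeffAt (PhiM S t F H c) 0 = meromorphicTrailingCoeffAt F c * H c := by
  have h1 : MeromorphicAt (fun w : ℂ => F (c + w)) 0 := by
    have := mero_shift (c := c) (x := 0) (F := F) (hF _ (by linarith))
    simpa using this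
  have h2 : Differentiable ℂ fun w : ℂ => H (c + w) := hH.comp (by fun_prop)
  have h3 := (h2.analyticAt (0 : ℂ))
  have h0 : H (c + 0) ≠ 0 := by
    rw [add_zero]
    exact hH0 c le_rfl
  have h5 := Phi_near E hF hH heq 0
  rw [Complex.ofReal_zero] at h5
  rw [meromorphicTrailingCoeffAt_congr_nhdsNE h5]
  have h4 := MeromorphicAt.meromorphicTrailingCoeffAt_mul h1 h3.meromorphicAt
  have h6 : ((fun w : ℂ => F (c + w)) * fun w : ℂ => H (c + w)) =
      fun w : ℂ => F (c + w) * H (c + w) := rfl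
  rw [h6] at h4
  rw [h4, coeff_shiftM, h3.meromorphicTrailingCoeffAt_of_ne_zero h0, add_zero]

/-- **the limit** for systems of traces -/
theorem mot_limit (E : TData S t D) (hF : ∀ s : ℝ, c ≤ s → MeromorphicAt F (s : ℂ))
    (hH : Differentiable ℂ H) (hH0 : ∀ s : ℝ, c ≤ s → H s ≠ 0)
    (heq : ∀ x : ℝ, 1 / 2 < x → F (c + x) * H (c + x) = exp (Pool.Agent.W263.EP.LL S t x)) :
    ∃ (Z : Finset ℝ) (k : ℝ → ℤ), (∀ σ : ℝ, σ ∈ Z ↔ c < σ ∧ meromorphicOrderAt F (σ : ℂ) ≠ 0) ∧
      (∀ σ ∈ Z, meromorphicOrderAt F (σ : ℂ) = k σ) ∧ meromorphicOrderAt F c = k c ∧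
      meromorphicTrailingCoeffAt F c * H c ≠ 0 ∧
      (meromorphicTrailingCoeffAt F c * H c).im = 0 ∧
      (‖meromorphicTrailingCoeffAt F c * H c‖ : ℂ) *
        exp ((∑ σ ∈ Z, (k σ : ℂ)) * Real.pi * I) = meromorphicTrailingCoeffAt F c * H c ∧
      Tendsto (fun T : ℝ => -cmean (lamM S) (cM S t) T - (k c : ℂ) * (Real.log T - kap)) atTop
        (𝓝 (-(Real.log ‖meromorphicTrailingCoeffAt F c * H c‖ : ℝ) -
          (∑ σ ∈ Z, (k σ : ℂ)) * Real.pi * I)) := by
  have := countX S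
  have DD := mdataM E hF hH heq
  obtain ⟨Z, k, Q, hS, hS1, hk, hQa, hQr, hexp, htr⟩ := factor_all DD
  obtain ⟨h1, h2, h3, h4⟩ := cmean_limit DD hS1 hQa hQr hexp htr
  rw [Phi_coeff E hF hH hH0 heq] at h1 h2 h3 h4
  have hk' : ∀ x : ℝ, 0 ≤ x → x ≤ 3 → meromorphicOrderAt F ((c + x : ℝ) : ℂ) = k x := by
    intro x hx hx3
    have := hk x ⟨hx, hx3⟩
    rw [Phi_order E hF hH hH0 heq hx] at this
    exact this
  have hsum : ∑ σ ∈ Z.image (fun x : ℝ => c + x), ((k (σ - c) : ℤ) : ℂ) = ∑ x ∈ Z, (k x : ℂ) := by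
    rw [Finset.sum_image (f := fun σ : ℝ => ((k (σ - c) : ℤ) : ℂ)) (g := fun x : ℝ => c + x)
      fun x _ y _ h => by
        have h' : c + x = c + y := h
        linarith]
    refine Finset.sum_congr rfl fun x _ => ?_
    rw [add_sub_cancel_left]
  refine ⟨Z.image (fun x : ℝ => c + x), fun σ => k (σ - c), ?_, ?_, ?_, h1, h2, ?_, ?_⟩
  · intro σ
    rw [Finset.mem_image]
    constructor
    · rintro ⟨y, hy, rfl⟩
      obtain ⟨h5, h6⟩ := (hS y).1 hy
      rw [Phi_order E hF hH hH0 heq h5.le] at h6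
      exact ⟨by linarith, h6⟩
    · rintro ⟨h5, h6⟩
      refine ⟨σ - c, (hS _).2 ⟨by linarith, ?_⟩, by ring⟩
      rw [Phi_order E hF hH hH0 heq (by linarith), show c + (σ - c) = σ by ring]
      exact h6
  · intro σ hσ
    rw [Finset.mem_image] at hσ
    obtain ⟨y, hy, rfl⟩ := hσ
    beta_reduce
    rw [add_sub_cancel_left]
    exact hk' y (hS1 y hy).1.le (by linarith [(hS1 y hy).2])
  · have := hk' 0 le_rfl (by norm_num)
    simpa using this
  · rw [hsum]
    exact h3
  · rw [hsum]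
    beta_reduce
    rw [sub_self]
    have h5 := h4.neg
    have h6 : (fun T : ℝ => -cmean (lamM S) (cM S t) T - (k 0 : ℂ) * (Real.log T - kap)) =
        fun T : ℝ => -(cmean (lamM S) (cM S t) T + (k 0 : ℂ) * Real.log T) + (k 0 : ℂ) * kap := by
      funext T
      ring
    rw [h6]
    refine (h5.add_const _).trans (le_of_eq ?_)
    congr 1
    ring

theorem csummableM (E : TData S t D) {T : ℝ} (hT : 0 < T) :
    Summable fun x : S.X × ℕ => ‖(cM S t x : ℂ) * cw T (lamM S x / T)‖ := by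
  refine Summable.of_nonneg_of_le (fun p => norm_nonneg _) (fun x => ?_)
    ((sumM E (σ := 1) (by norm_num)).mul_left (Real.exp (Real.exp (1 * T + 4 * ep T)) + 1))
  rw [norm_mul, Complex.norm_real, Real.norm_eq_abs]
  have h1 := cw_le' (A := 1) hT (by norm_num) (lamM_nonneg x)
  have h2 := mul_le_mul_of_nonneg_left h1 (abs_nonneg (cM S t x))
  refine h2.trans (le_of_eq ?_)
  ring

end Pool.Agent.W76.BK.Mot
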