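import Pool.Agent.W76.BK.MotG
import Pool.Agent.W187.UR.Np2
import Pool.Agent.W392.UR.Fac
import Pool.Agent.W371.UR.Full
import Pool.Agent.W125.UR.Sing
import Pool.Agent.W349.UR.NU
import Pool.Agent.W376.UR.HHm

/-! The rank law for systems of Frobenius traces, with the transition at the angle `π/2`. -/

set_option autoImplicit false

namespace Pool.Agent.W76.BK.MotR

open Complex MeasureTheory Filter Topology Set
open Pool.Agent.W189.ML Pool.Agent.W189.LC
open Pool.Agent.W76.BK.Mot Pool.Agent.W76.BK.MotG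
open Pool.Agent.W187.UR (rmean Bel S_BEL S_FULL S_SING S_HH HH rot_bel gap3)
open Pool.Agent.H341R2 (NormSys)
open Pool.Agent.W263.EP (TData xx GG cc)

variable {S : NormSys} {t : S.X → ℕ → ℝ} {D : ℝ} {F H : ℂ → ℂ} {c : ℝ}

theorem sbel : S_BEL := Pool.Agent.W187.UR.bel Pool.Agent.W392.UR.fac

theorem shh : S_HH := Pool.Agent.W376.UR.hh Pool.Agent.W349.UR.nu

theorem LL_real (x : ℝ) : (Pool.Agent.W263.EP.LL S t x).im = 0 := by
  rw [← ser_eq]
  exact ser_real _ _ x

/-- above the angle `π/2` -/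
theorem law_high (E : TData S t D) (hF : ∀ s : ℝ, c ≤ s → MeromorphicAt F (s : ℂ))
    (hH : Differentiable ℂ H) (hH0 : ∀ s : ℝ, c ≤ s → H s ≠ 0)
    (heq : ∀ x : ℝ, 1 / 2 < x → F (c + x) * H (c + x) = exp (Pool.Agent.W263.EP.LL S t x))
    {γ : ℝ} (hγ : Real.pi / 2 < γ) {n : ℤ} (hn : meromorphicOrderAt F c = n) :
    ∃ C T₀ : ℝ, ∀ T ≥ T₀, |rmean (lamR S) (cc S t) γ T - n * Real.log T| ≤ C := by
  have := countX S
  have DD := mdataM E hF hH heq
  have h0 : meromorphicOrderAt (PhiM S t F H c) 0 = n := by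
    have := Phi_order E hF hH hH0 heq le_rfl
    rw [Complex.ofReal_zero, add_zero, hn] at this
    exact this
  obtain ⟨η, B, L, r₀, hL, hg, -⟩ := sbel (PhiM S t F H c) (Pool.Agent.W263.EP.LL S t)
    DD.mero (fun x hx => DD.order_ne_top hx) (fun w hw => by
      refine Complex.analyticAt_iff_eventually_differentiableAt.mpr ?_
      have ho : IsOpen {z : ℂ | 1 / 2 < z.re} := isOpen_lt continuous_const Complex.continuous_re
      filter_upwards [ho.mem_nhds (show w ∈ {z : ℂ | 1 / 2 < z.re} by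
        show 1 / 2 < w.re
        linarith)] with z hz
      exact E.LL_diff hz)
    (fun w hw => by rw [DD.eq w hw, ser_eq]) (fun x _ => LL_real x) n h0
  refine rot_bel (sdataR E) hγ hL fun w h1 h2 h3 => ?_
  rw [LL_ser E (by rw [h1]; norm_num)]
  exact hg w h1 h2 h3

theorem ser_cont (E : TData S t D) : ContinuousAt (ser (lamR S) (cc S t)) 2 := by
  have h1 : (fun w => GG S t w - Pool.Agent.W263.EP.LL S t w) =ᶠ[𝓝 (2 : ℂ)]
      ser (lamR S) (cc S t) := by
    have ho : IsOpen {z : ℂ | 1 / 2 < z.re} := isOpen_lt continuous_const Complex.continuous_re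
    filter_upwards [ho.mem_nhds (show (2 : ℂ) ∈ {z : ℂ | 1 / 2 < z.re} by
      show (1 : ℝ) / 2 < (2 : ℂ).re
      norm_num)] with w hw
    rw [← LL_ser E hw]
    ring
  refine ContinuousAt.congr ?_ h1
  exact (E.GG_diff (by norm_num)).continuousAt.sub (E.LL_diff (by norm_num)).continuousAt

theorem exp_near (E : TData S t D) : ∀ᶠ w in 𝓝 (2 : ℂ),
    exp (GG S t w - ser (lamR S) (cc S t) w) = exp (ser (lamM S) (cM S t) w) := by
  have ho : IsOpen {z : ℂ | 1 / 2 < z.re} := isOpen_lt continuous_const Complex.continuous_re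
  filter_upwards [ho.mem_nhds (show (2 : ℂ) ∈ {z : ℂ | 1 / 2 < z.re} by
    show (1 : ℝ) / 2 < (2 : ℂ).re
    norm_num)] with w hw
  rw [LL_ser E hw, ser_eq]

theorem log_two_im {Q : ℂ → ℂ} (h : (Q ((2 : ℝ) : ℂ)).im = 0 ∧ 0 < (Q ((2 : ℝ) : ℂ)).re) :
    (log (Q 2)).im = 0 := by
  have h' : (Q 2).im = 0 ∧ 0 < (Q 2).re := by simpa using h
  have h5 : Q 2 = (((Q 2).re : ℝ) : ℂ) := by
    apply Complex.ext
    · simp
    · simpa using h'.1
  rw [h5, ← Complex.ofReal_log h'.2.le, Complex.ofReal_im]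

/-- no real zeros and poles: the law holds for every angle -/
theorem law_full (E : TData S t D) (hF : ∀ s : ℝ, c ≤ s → MeromorphicAt F (s : ℂ))
    (hH : Differentiable ℂ H) (hH0 : ∀ s : ℝ, c ≤ s → H s ≠ 0)
    (heq : ∀ x : ℝ, 1 / 2 < x → F (c + x) * H (c + x) = exp (Pool.Agent.W263.EP.LL S t x))
    {γ : ℝ} (hγ : 0 ≤ γ) {n : ℤ} (hn : meromorphicOrderAt F c = n)
    (hz : ∀ σ : ℝ, c < σ → meromorphicOrderAt F (σ : ℂ) = 0) :
    ∃ C T₀ : ℝ, ∀ T ≥ T₀, |rmean (lamR S) (cc S t) γ T - n * Real.log T| ≤ C := by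
  have := countX S
  have DD := mdataM E hF hH heq
  have h0 : meromorphicOrderAt (PhiM S t F H c) ((0 : ℝ) : ℂ) = n := by
    have := Phi_order E hF hH hH0 heq le_rfl
    rw [add_zero, hn] at this
    exact this
  obtain ⟨Q, hQa, hQr, hQ2, -⟩ := DD.factor le_rfl le_rfl zero_le_one h0 fun x hx hx0 => by
    rw [Phi_order E hF hH hH0 heq hx.1]
    exact hz _ (by
      have : 0 < x := lt_of_le_of_ne hx.1 (Ne.symm hx0)
      linarith)
  have h22 : (2 : ℝ) ∈ Icc (0 : ℝ) 2 := ⟨by norm_num, le_rfl⟩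
  refine Pool.Agent.W371.UR.full (lamR S) (cc S t) (GG S t) (sdataR E) γ hγ n Q hQa
    (fun x hx => Or.inl (hQr x hx).2) (log_two_im (hQr 2 h22)) ?_ (ser_cont E)
  filter_upwards [hQ2, exp_near E] with w h1 h2
  rw [h2, h1, Complex.ofReal_zero, sub_zero]

/-- a real zero or pole makes the mean large -/
theorem large (E : TData S t D) (hF : ∀ s : ℝ, c ≤ s → MeromorphicAt F (s : ℂ))
    (hH : Differentiable ℂ H) (hH0 : ∀ s : ℝ, c ≤ s → H s ≠ 0)
    (heq : ∀ x : ℝ, 1 / 2 < x → F (c + x) * H (c + x) = exp (Pool.Agent.W263.EP.LL S t x))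
    {γ : ℝ} (hγ : 0 ≤ γ) (hγ2 : γ < Real.pi / 2) {β : ℝ} (hβ : c < β)
    (hz : meromorphicOrderAt F (β : ℂ) ≠ 0) (y : ℝ) (hy : y < β - c) :
    ∃ᶠ T : ℝ in atTop, Real.exp (Real.exp (y * T)) ≤ |rmean (lamR S) (cc S t) γ T| := by
  have := countX S
  have DD := mdataM E hF hH heq
  have hne : ¬ ∀ x ∈ Ioc (0 : ℝ) 1, meromorphicOrderAt (PhiM S t F H c) (x : ℂ) = 0 := by
    intro h
    by_cases hb : β - c ≤ 1
    · have := h (β - c) ⟨by linarith, hb⟩
      rw [Phi_order E hF hH hH0 heq (by linarith), show c + (β - c) = β by ring] at this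
      exact hz this
    · push Not at hb
      have h1 := DD.order_right (w := ((β - c : ℝ) : ℂ)) (by rwa [Complex.ofReal_re])
      rw [Phi_order E hF hH hH0 heq (by linarith), show c + (β - c) = β by ring] at h1
      exact hz h1
  obtain ⟨x₀, x₁, h0, h1, hx1, hx3, m, hm0, hm, hzz⟩ := DD.rightmost hne
  have hβx : β - c ≤ x₀ := by
    by_contra h
    push Not at h
    refine hz ?_
    by_cases hb : β - c ≤ 2
    · have h2 := hzz (β - c) ⟨by linarith, hb⟩ (ne_of_gt h)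
      rw [Phi_order E hF hH hH0 heq (by linarith), show c + (β - c) = β by ring] at h2
      exact h2
    · push Not at hb
      have h2 := DD.order_right (w := ((β - c : ℝ) : ℂ)) (by rw [Complex.ofReal_re]; linarith)
      rw [Phi_order E hF hH hH0 heq (by linarith), show c + (β - c) = β by ring] at h2
      exact h2
  obtain ⟨Q, hQa, hQr, hQ2, -⟩ := DD.factor hx1 hx3.le h1 hm hzz
  have h22 : (2 : ℝ) ∈ Icc x₁ 2 := ⟨by linarith, le_rfl⟩
  obtain ⟨C, T₀, hC⟩ := Pool.Agent.W125.UR.sing (lamR S) (cc S t) (GG S t) (sdataR E) γ hγ hγ2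
    x₁ x₀ hx1 hx3 h1 m Q hQa (fun x hx => Or.inl (hQr x hx).2) (log_two_im (hQr 2 h22)) (by
      filter_upwards [hQ2, exp_near E] with w h1 h2
      rw [h2, h1]) (ser_cont E)
  have hm1' : (1 : ℝ) ≤ |(m : ℝ)| := by
    have := Int.one_le_abs hm0
    exact_mod_cast this
  have hκ : 0 < Real.cos γ := Real.cos_pos_of_mem_Ioo ⟨by linarith [Real.pi_pos], hγ2⟩
  have hfr : ∃ᶠ T : ℝ in atTop, Real.exp (Real.exp (x₀ * T) * Real.cos γ - 2 * (x₀ * T)) ≤
      (HH (x₀ * T + γ * I)).re := by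
    have e1 : Tendsto (fun x : ℝ => x / x₀) atTop atTop := tendsto_id.atTop_div_const h0
    refine e1.frequently ?_
    refine (shh γ hγ hγ2).mono fun x hx => ?_
    have e2 : x₀ * (x / x₀) = x := by field_simp
    have e3 : (x₀ : ℂ) * ((x / x₀ : ℝ) : ℂ) = (x : ℂ) := by
      rw [← Complex.ofReal_mul, e2]
    rw [e2, e3]
    exact hx
  set y' : ℝ := max y x₁ with hy'
  have hy1 : y' < x₀ := max_lt (by linarith) hx3
  have hg := gap3 (D := |C| + 2) hy1 h0 hκ
  refine (hfr.and_eventually (hg.and ((eventually_ge_atTop T₀).and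
    (eventually_ge_atTop (1 : ℝ))))).mono ?_
  rintro T ⟨h2, h3, h4, h5⟩
  have h6 := hC T h4
  have hlogT0 : 0 ≤ Real.log T := Real.log_nonneg h5
  set W : ℝ := Real.exp (y' * T) with hW
  set R : ℝ := (HH (x₀ * T + γ * I)).re with hR
  have h7 : Real.exp (W + (|C| + 2) + (|C| + 2) * T) ≤ R := by
    refine le_trans (Real.exp_le_exp.2 ?_) h2
    linarith
  have hR0 : 0 ≤ R := (Real.exp_pos _).le.trans h7
  have h8 : Real.exp (x₁ * T) ≤ W := Real.exp_le_exp.2
    (mul_le_mul_of_nonneg_right (le_max_right _ _) (by linarith))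
  have h10 : Real.exp (y * T) ≤ W := Real.exp_le_exp.2
    (mul_le_mul_of_nonneg_right (le_max_left _ _) (by linarith))
  have h11 : Real.exp (Real.exp (x₁ * T)) ≤ Real.exp W := Real.exp_le_exp.2 h8
  have h12 : Real.exp (Real.exp (y * T)) ≤ Real.exp W := Real.exp_le_exp.2 h10
  have h13 : Real.exp W * (1 + |C|) ≤ R := by
    refine le_trans ?_ h7
    have h13' : W + (|C| + 2) + (|C| + 2) * T = W + ((|C| + 2) + (|C| + 2) * T) := by ring
    rw [h13', Real.exp_add]
    refine mul_le_mul_of_nonneg_left ?_ (Real.exp_pos _).le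
    have h14 := Real.add_one_le_exp ((|C| + 2) + (|C| + 2) * T)
    have h15 := abs_nonneg C
    nlinarith
  have h15 : C * Real.exp (Real.exp (x₁ * T)) ≤ |C| * Real.exp W := by
    calc C * Real.exp (Real.exp (x₁ * T)) ≤ |C| * Real.exp (Real.exp (x₁ * T)) := by
          gcongr; exact le_abs_self C
      _ ≤ |C| * Real.exp W := by gcongr
  have h16 : R ≤ |(m : ℝ) * (Real.log T + R)| := by
    rw [abs_mul, abs_of_nonneg (show 0 ≤ Real.log T + R by linarith)]
    nlinarith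
  have h17 : |(m : ℝ) * (Real.log T + R)| - |rmean (lamR S) (cc S t) γ T| ≤
      C * Real.exp (Real.exp (x₁ * T)) := by
    refine le_trans ?_ h6
    have := abs_sub_abs_le_abs_sub ((m : ℝ) * (Real.log T + R)) (rmean (lamR S) (cc S t) γ T)
    rw [abs_sub_comm] at this
    exact this
  nlinarith

/-- below the angle `π/2` -/
theorem law_low (E : TData S t D) (hF : ∀ s : ℝ, c ≤ s → MeromorphicAt F (s : ℂ))
    (hH : Differentiable ℂ H) (hH0 : ∀ s : ℝ, c ≤ s → H s ≠ 0)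
    (heq : ∀ x : ℝ, 1 / 2 < x → F (c + x) * H (c + x) = exp (Pool.Agent.W263.EP.LL S t x))
    {γ : ℝ} (hγ : 0 ≤ γ) (hγ2 : γ < Real.pi / 2) {n : ℤ} (hn : meromorphicOrderAt F c = n) :
    (∃ C T₀ : ℝ, ∀ T ≥ T₀, |rmean (lamR S) (cc S t) γ T - n * Real.log T| ≤ C) ↔
      ∀ σ : ℝ, c < σ → meromorphicOrderAt F (σ : ℂ) = 0 := by
  refine ⟨?_, fun h => law_full E hF hH hH0 heq hγ hn h⟩
  rintro ⟨C, T₀, hC⟩ β hβ
  by_contra hz
  have h1 := large E hF hH hH0 heq hγ hγ2 hβ hz ((β - c) / 2) (by linarith)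
  have h2 : ∀ᶠ T : ℝ in atTop, |C| + |(n : ℝ)| * T < Real.exp (Real.exp ((β - c) / 2 * T)) := by
    have hd : 0 < (β - c) / 2 := by linarith
    have e0 : Tendsto (fun T : ℝ => (β - c) / 2 * T) atTop atTop := tendsto_id.const_mul_atTop hd
    have e1 := e0.eventually (lin_le_exp (1 / ((β - c) / 2)))
    have e2 := lin_le_exp (|(n : ℝ)| + 1)
    filter_upwards [e1, e2, eventually_gt_atTop (|C|)] with T h3 h4 h5
    have h6 : 1 / ((β - c) / 2) * ((β - c) / 2 * T) = T := by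
      rw [← mul_assoc, one_div, inv_mul_cancel₀ hd.ne', one_mul]
    rw [h6] at h3
    have h7 := Real.exp_le_exp.2 h3
    have h8 : (|(n : ℝ)| + 1) * T = |(n : ℝ)| * T + T := by ring
    linarith
  obtain ⟨T, h3, h4, h5, h6⟩ := (h1.and_eventually (h2.and ((eventually_ge_atTop T₀).and
    (eventually_ge_atTop (1 : ℝ))))).exists
  have h7 := hC T h5
  have h8 : |rmean (lamR S) (cc S t) γ T| ≤ |C| + |(n : ℝ)| * T := by
    have h9 := abs_sub_abs_le_abs_sub (rmean (lamR S) (cc S t) γ T) ((n : ℝ) * Real.log T)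
    have h10 : |(n : ℝ) * Real.log T| ≤ |(n : ℝ)| * T := by
      rw [abs_mul, abs_of_nonneg (Real.log_nonneg h6)]
      have h11 := Real.log_le_sub_one_of_pos (show 0 < T by linarith)
      have h12 := abs_nonneg (n : ℝ)
      nlinarith
    have h11 := le_abs_self C
    linarith
  linarith

end Pool.Agent.W76.BK.MotR
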