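import Pool.Agent.W76.BK.MotK
import Pool.Agent.W76.BK.MotR

/-! The rank law for systems of Frobenius traces with finitely many arbitrary Euler factors. -/

set_option autoImplicit false

namespace Pool.Agent.W76.BK.MotS

open Complex MeasureTheory Filter Topology Set Classical
open Pool.Agent.W189.ML
open Pool.Agent.W76.BK.Mot Pool.Agent.W76.BK.MotG Pool.Agent.W76.BK.MotR Pool.Agent.W76.BK.MotK
open Pool.Agent.W187.UR (rmean)
open Pool.Agent.H341R2 (NormSys)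
open Pool.Agent.W263.EP (TData tn hh xx cc ff0 LFB LF BB tdata LF_eq LFB_eq BB_diff cc_bad cc_good)

/-- the term of the place `v` -/
noncomputable def rankTerm (S : NormSys) (Bs : Finset S.X) (tr : S.X → ℕ → ℝ) (ω : ℝ) (γ T : ℝ)
    (x : S.X) : ℝ :=
  if x ∈ Bs then 0 else
    Real.cos (γ * Real.log (S.N x : ℝ) / T) * Real.log (ff0 S tr ω x) /
      Real.Gamma (1 + Real.log (S.N x : ℝ) / T)

/-- the mean of the logarithms of the inverse Euler factors at the centre -/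
noncomputable def rankSum (S : NormSys) (Bs : Finset S.X) (tr : S.X → ℕ → ℝ) (ω : ℝ) (γ T : ℝ) : ℝ :=
  ∑' x, rankTerm S Bs tr ω γ T x

variable {S : NormSys} {Bs : Finset S.X} {B : S.X → Polynomial ℂ} {tr : S.X → ℕ → ℝ} {ω : ℝ}
  {D : ℝ} {F : ℂ → ℂ}

theorem rankTerm_eq (γ T : ℝ) (x : S.X) :
    rankTerm S Bs tr ω γ T x = cc S (tn S (Bs : Set S.X) tr ω) x *
      (Real.cos (γ * (lamR S x / T)) * om (lamR S x / T)) := by
  unfold rankTerm lamR om
  by_cases hx : x ∈ Bs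
  · rw [if_pos hx, cc_bad (show x ∈ (Bs : Set S.X) from hx), zero_mul]
  · rw [if_neg hx, ← cc_good (show x ∉ (Bs : Set S.X) from hx), Real.log_exp, div_eq_mul_inv,
      mul_div_assoc]
    ring

theorem rankSum_eq (γ T : ℝ) : rankSum S Bs tr ω γ T =
    rmean (lamR S) (cc S (tn S (Bs : Set S.X) tr ω)) γ T := by
  unfold rankSum rmean
  exact tsum_congr fun x => rankTerm_eq γ T x

theorem rankTerm_summable (E : TData S (tn S (Bs : Set S.X) tr ω) D) (γ : ℝ) {T : ℝ} (hT : 0 < T) :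
    Summable fun x => |rankTerm S Bs tr ω γ T x| := by
  refine Summable.of_nonneg_of_le (fun x => abs_nonneg _) (fun x => ?_)
    ((sdataR E).sum.mul_left (Real.exp (Real.exp (2 * T)) + 1))
  have h0 : 0 ≤ lamR S x / T := div_nonneg (log_pos' x) hT.le
  have h1 := om_le (a := 2 * T) (by positivity) h0
  have h2 := om_nonneg h0
  have h3 : 2 * T * (lamR S x / T) = 2 * lamR S x := by
    field_simp
  rw [h3] at h1
  rw [rankTerm_eq, abs_mul, abs_mul, abs_of_nonneg h2]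
  have h4 := Real.abs_cos_le_one (γ * (lamR S x / T))
  calc |cc S (tn S (Bs : Set S.X) tr ω) x| * (|Real.cos (γ * (lamR S x / T))| * om (lamR S x / T)) ≤
        |cc S (tn S (Bs : Set S.X) tr ω) x| *
          (1 * ((Real.exp (Real.exp (2 * T)) + 1) * Real.exp (-(2 * lamR S x)))) := by gcongr
    _ = _ := by ring

theorem lim_of_bdd {f : ℝ → ℝ} {n : ℤ} (h : ∃ C T₀ : ℝ, ∀ T ≥ T₀, |f T - n * Real.log T| ≤ C) :
    Tendsto (fun T => f T / Real.log T) atTop (𝓝 (n : ℝ)) := by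
  obtain ⟨C, T₀, hC⟩ := h
  have h1 : Tendsto (fun T : ℝ => C / Real.log T) atTop (𝓝 0) :=
    Real.tendsto_log_atTop.const_div_atTop C
  have h2 : Tendsto (fun T : ℝ => f T / Real.log T - n) atTop (𝓝 0) := by
    refine squeeze_zero_norm' ?_ h1
    filter_upwards [eventually_ge_atTop T₀, eventually_gt_atTop (1 : ℝ)] with T h3 h4
    have h5 : 0 < Real.log T := Real.log_pos h4
    have h6 : f T / Real.log T - n = (f T - n * Real.log T) / Real.log T := by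
      field_simp
    rw [h6, Real.norm_eq_abs, abs_div, abs_of_pos h5]
    exact div_le_div_of_nonneg_right (hC T h3) h5.le
  have h3 := h2.add_const (n : ℝ)
  simpa using h3

/-- **the rank law, for every system of Frobenius traces** -/
theorem motive_rank (E : TData S (tn S (Bs : Set S.X) tr ω) D)
    (hB : ∀ v ∈ Bs, ∀ s : ℝ, (ω + 1) / 2 ≤ s →
      (B v).eval (((S.N v : ℕ) : ℂ) ^ (-(s : ℂ))) ≠ 0)
    (hF1 : ∀ s : ℝ, (ω + 1) / 2 ≤ s → MeromorphicAt F (s : ℂ))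
    (hF2 : ∀ s : ℝ, (ω + 2) / 2 < s → F s = LFB S Bs B tr s) :
    ∃ n : ℤ, meromorphicOrderAt F (((ω + 1) / 2 : ℝ) : ℂ) = n ∧
      (∀ γ : ℝ, Real.pi / 2 < γ →
        (∃ C T₀ : ℝ, ∀ T ≥ T₀, |rankSum S Bs tr ω γ T - n * Real.log T| ≤ C) ∧
        ∀ r : ℤ, meromorphicOrderAt F (((ω + 1) / 2 : ℝ) : ℂ) = r ↔
          Tendsto (fun T : ℝ => rankSum S Bs tr ω γ T / Real.log T) atTop (𝓝 (r : ℝ))) ∧
      ((∀ σ : ℝ, (ω + 1) / 2 < σ → meromorphicOrderAt F (σ : ℂ) = 0) → ∀ γ : ℝ, 0 ≤ γ →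
        ∃ C T₀ : ℝ, ∀ T ≥ T₀, |rankSum S Bs tr ω γ T - n * Real.log T| ≤ C) ∧
      ∀ γ : ℝ, 0 ≤ γ → γ < Real.pi / 2 →
        ((∃ C T₀ : ℝ, ∀ T ≥ T₀, |rankSum S Bs tr ω γ T - n * Real.log T| ≤ C) ↔
          ∀ σ : ℝ, (ω + 1) / 2 < σ → meromorphicOrderAt F (σ : ℂ) = 0) ∧
        ∀ β : ℝ, (ω + 1) / 2 < β → meromorphicOrderAt F (β : ℂ) ≠ 0 →
          ∀ y : ℝ, y < β - (ω + 1) / 2 →
          ∃ᶠ T : ℝ in atTop, Real.exp (Real.exp (y * T)) ≤ |rankSum S Bs tr ω γ T| := by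
  have heq : ∀ x : ℝ, 1 / 2 < x → F ((((ω + 1) / 2 : ℝ) : ℂ) + x) *
      BB S Bs B ((((ω + 1) / 2 : ℝ) : ℂ) + x) =
      exp (Pool.Agent.W263.EP.LL S (tn S (Bs : Set S.X) tr ω) x) := by
    intro x hx
    have e1 : (((ω + 1) / 2 : ℝ) : ℂ) + x = (((ω + 1) / 2 + x : ℝ) : ℂ) := by push_cast; rfl
    have e2 : ((ω : ℂ) + 1) / 2 + (x : ℂ) = (((ω + 1) / 2 + x : ℝ) : ℂ) := by push_cast; rfl
    have h3 := hF2 ((ω + 1) / 2 + x) (by linarith)
    have h4 := LFB_eq (B := B) E (s := (((ω + 1) / 2 + x : ℝ) : ℂ)) (by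
      rw [Complex.ofReal_re]; linarith)
    have h5 := LF_eq E (z := (x : ℂ)) (by rwa [Complex.ofReal_re])
    rw [e2] at h5
    rw [e1, h3, h4, h5, mul_assoc, inv_mul_cancel₀ (BB_ne_real hB (by linarith)), mul_one]
  have hH0 : ∀ s : ℝ, (ω + 1) / 2 ≤ s → BB S Bs B s ≠ 0 := fun s hs => BB_ne_real hB hs
  obtain ⟨Z, k, hZ, hk, hk1, -⟩ := mot_limit (c := (ω + 1) / 2) (F := F)
    (H := BB S Bs B) E hF1 BB_diff hH0 heq
  simp only [rankSum_eq]
  refine ⟨k ((ω + 1) / 2), hk1, fun γ hγ => ?_, fun hz γ hγ => ?_, ?_⟩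
  · have h1 := law_high E hF1 BB_diff hH0 heq hγ hk1
    refine ⟨h1, fun r => ?_⟩
    have h2 := lim_of_bdd h1
    rw [hk1]
    constructor
    · intro h
      have h3 : k ((ω + 1) / 2) = r := by exact_mod_cast h
      rw [← h3]
      exact h2
    · intro h
      have h3 := tendsto_nhds_unique h h2
      have h4 : r = k ((ω + 1) / 2) := by exact_mod_cast h3
      rw [h4]
  · exact law_full E hF1 BB_diff hH0 heq hγ hk1 hz
  · intro γ hγ hγ2
    refine ⟨law_low E hF1 BB_diff hH0 heq hγ hγ2 hk1, fun β hβ hz y hy => ?_⟩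
    exact large E hF1 BB_diff hH0 heq hγ hγ2 hβ hz y hy

end Pool.Agent.W76.BK.MotS
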