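import Pool.Agent.W76.BK.Hankel
import Pool.Agent.W189.ML.Star

/-! The half strip, multiplied by `(1 + i T^{-1/2}) / T`. -/

set_option autoImplicit false

namespace Pool.Agent.W76.BK

open Complex MeasureTheory Filter Topology Set
open Pool.Agent.W189.ML
open scoped Interval

/-- the small angle `T ^ (-1/2)` -/
noncomputable def ep (T : ℝ) : ℝ := (Real.sqrt T)⁻¹

/-- the factor `1 + i T ^ (-1/2)` -/
noncomputable def kf (T : ℝ) : ℂ := 1 + (ep T : ℂ) * I

/-- the point `(1 + i T ^ (-1/2)) z / T` -/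
noncomputable def pw (T : ℝ) (z : ℂ) : ℂ := kf T * z / T

theorem pw_re (T : ℝ) (z : ℂ) : (pw T z).re = (z.re - ep T * z.im) / T := by
  unfold pw kf
  rw [Complex.div_ofReal_re]
  congr 1
  simp

theorem pw_im (T : ℝ) (z : ℂ) : (pw T z).im = (z.im + ep T * z.re) / T := by
  unfold pw kf
  rw [Complex.div_ofReal_im]
  congr 1
  simp

theorem ep_pos {T : ℝ} (hT : 10000 ≤ T) : 0 < ep T := by
  unfold ep
  have : 0 < Real.sqrt T := Real.sqrt_pos.2 (by linarith)
  positivity

theorem ep_le {T : ℝ} (hT : 10000 ≤ T) : ep T ≤ 1 / 100 := by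
  unfold ep
  have h1 : (100 : ℝ) ≤ Real.sqrt T := by
    apply Real.le_sqrt_of_sq_le
    linarith
  rw [inv_eq_one_div]
  exact one_div_le_one_div_of_le (by norm_num) h1

theorem ep_sq {T : ℝ} (hT : 10000 ≤ T) : ep T * ep T * T = 1 := by
  unfold ep
  have h0 : 0 < Real.sqrt T := Real.sqrt_pos.2 (by linarith)
  have h1 : Real.sqrt T * Real.sqrt T = T := Real.mul_self_sqrt (by linarith)
  have h2 : (Real.sqrt T)⁻¹ * (Real.sqrt T)⁻¹ * T = (Real.sqrt T)⁻¹ * (Real.sqrt T)⁻¹ *
      (Real.sqrt T * Real.sqrt T) := by rw [h1]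
  rw [h2]
  field_simp

theorem ep_tendsto : Tendsto ep atTop (𝓝 0) :=
  tendsto_inv_atTop_zero.comp Real.tendsto_sqrt_atTop

/-- the sector condition -/
theorem pw_sector {T : ℝ} (hT : 10000 ≤ T) {z : ℂ} (hz : z ∈ HS 1) :
    0 < (pw T z).re ∧ ‖pw T z‖ ≤ 5 * (pw T z).re := by
  have h0 := ep_pos hT
  have h1 := ep_le hT
  have hT0 : 0 < T := by linarith
  obtain ⟨hx, hy⟩ := hz
  have hpi := Real.pi_lt_d2
  have hy1 := abs_le.1 hy
  have e1 : |ep T * z.im| ≤ 1 / 100 * Real.pi := by
    rw [abs_mul, abs_of_pos h0]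
    gcongr
  have e2 := abs_le.1 e1
  have hre : 0 < z.re - ep T * z.im := by linarith
  constructor
  · rw [pw_re]
    positivity
  · have h3 := Complex.norm_le_abs_re_add_abs_im (pw T z)
    rw [abs_of_pos (show 0 < (pw T z).re by rw [pw_re]; positivity)] at h3
    have h4 : |(pw T z).im| ≤ (Real.pi + ep T * z.re) / T := by
      rw [pw_im, abs_div, abs_of_pos hT0]
      refine div_le_div_of_nonneg_right ?_ hT0.le
      refine (abs_add_le _ _).trans (add_le_add hy ?_)
      rw [abs_of_nonneg (by positivity)]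
    have h5 : (Real.pi + ep T * z.re) / T ≤ 4 * (pw T z).re := by
      rw [pw_re, ← mul_div_assoc]
      refine div_le_div_of_nonneg_right ?_ hT0.le
      have : ep T * z.re ≤ 1 / 100 * z.re := by gcongr
      linarith
    linarith

theorem pw_diff (T : ℝ) : Differentiable ℂ (pw T) := by
  unfold pw
  fun_prop

theorem pw_cont (T : ℝ) : Continuous (pw T) := (pw_diff T).continuous

/-- `w → 0` -/
theorem pw_tendsto (z : ℂ) : Tendsto (fun T => pw T z) atTop (𝓝 0) := by
  have h1 : Tendsto kf atTop (𝓝 1) := by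
    unfold kf
    have h2 : Tendsto (fun T : ℝ => (ep T : ℂ)) atTop (𝓝 ((0 : ℝ) : ℂ)) :=
      (Complex.continuous_ofReal.tendsto 0).comp ep_tendsto
    have h3 := (h2.mul_const I).const_add 1
    simpa using h3
  have h2 : Tendsto (fun T : ℝ => ((T : ℂ))⁻¹) atTop (𝓝 0) := by
    have h3 : Tendsto (fun T : ℝ => ((T⁻¹ : ℝ) : ℂ)) atTop (𝓝 ((0 : ℝ) : ℂ)) :=
      (Complex.continuous_ofReal.tendsto 0).comp tendsto_inv_atTop_zero
    simpa using h3
  have h3 := (h1.mul_const z).mul h2
  unfold pw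
  simp only [div_eq_mul_inv]
  simpa using h3

theorem kf_tendsto : Tendsto kf atTop (𝓝 1) := by
  unfold kf
  have h2 : Tendsto (fun T : ℝ => (ep T : ℂ)) atTop (𝓝 ((0 : ℝ) : ℂ)) :=
    (Complex.continuous_ofReal.tendsto 0).comp ep_tendsto
  have h3 := (h2.mul_const I).const_add 1
  simpa using h3

/-- the branch of `log (w - x)` which is holomorphic off the vertical ray below `x` -/
noncomputable def Lx (x : ℝ) (w : ℂ) : ℂ := log (-I * (w - x)) + (Real.pi / 2 : ℝ) * I

/-- the region: the rotated half strip avoids the ray below `x` -/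
theorem pw_slit {T x : ℝ} (hT : 10000 ≤ T) (hx : 0 < x) (hTx : 7 * ep T ≤ x) {z : ℂ}
    (hz : z ∈ HS 1) : -I * (pw T z - x) ∈ slitPlane := by
  have h0 := ep_pos hT
  have h1 := ep_le hT
  have hT0 : 0 < T := by linarith
  have hsq := ep_sq hT
  obtain ⟨hzx, hy⟩ := hz
  have hpi := Real.pi_lt_d2
  have hy1 := abs_le.1 hy
  have e1 : |ep T * z.im| ≤ 1 / 100 * Real.pi := by
    rw [abs_mul, abs_of_pos h0]
    gcongr
  have e2 := abs_le.1 e1
  rw [Complex.mem_slitPlane_iff]
  have hre : (-I * (pw T z - x)).re = (pw T z).im := by simp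
  have him : (-I * (pw T z - x)).im = x - (pw T z).re := by simp
  rw [hre, him]
  by_cases h : x - (pw T z).re = 0
  · left
    have h2 : (pw T z).re = x := by linarith
    rw [pw_re, div_eq_iff hT0.ne'] at h2
    rw [pw_im]
    apply div_pos _ hT0
    have h3 : z.re ≥ x * T - 1 / 100 * Real.pi := by linarith
    have h4 : ep T * z.re ≥ ep T * (x * T - 1 / 100 * Real.pi) := by gcongr
    have h5 : ep T * (x * T) ≥ 7 := by
      have : ep T * (7 * ep T * T) ≤ ep T * (x * T) := by gcongr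
      nlinarith
    nlinarith
  · right
    exact h

theorem norm_Lx_le {x : ℝ} {w : ℂ} {δ : ℝ} (hδ : 0 < δ) (hδ1 : δ ≤ 1) (h1 : δ ≤ ‖w - x‖)
    (h2 : ‖w - x‖ ≤ 6) : ‖Lx x w‖ ≤ 12 - Real.log δ := by
  unfold Lx
  have h3 : ‖-I * (w - x)‖ = ‖w - x‖ := by simp
  have h4 : ‖log (-I * (w - x))‖ ≤ |Real.log ‖w - x‖| + Real.pi := by
    refine (Complex.norm_le_abs_re_add_abs_im _).trans ?_
    rw [Complex.log_re, Complex.log_im, h3]
    gcongr
    exact Complex.abs_arg_le_pi _
  have h5 : |Real.log ‖w - x‖| ≤ 5 - Real.log δ := by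
    have h6 : Real.log δ ≤ 0 := Real.log_nonpos hδ.le hδ1
    rw [abs_le]
    constructor
    · have := Real.log_le_log hδ h1
      linarith
    · have h7 := Real.log_le_sub_one_of_pos (show 0 < ‖w - x‖ by linarith)
      linarith
  have h6 : ‖((Real.pi / 2 : ℝ) : ℂ) * I‖ = Real.pi / 2 := by
    rw [norm_mul, Complex.norm_I, mul_one, Complex.norm_real, Real.norm_eq_abs,
      abs_of_pos (by positivity)]
  have hpi := Real.pi_lt_d2
  refine (norm_add_le _ _).trans ?_
  rw [h6]
  linarith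

/-- bound of `Lx` along the rotated half strip -/
theorem Lx_bound {T x : ℝ} (hT : 10000 ≤ T) (hx : 0 < x) (hx1 : x ≤ 1) (hTx : 16 * ep T ≤ x) {z : ℂ}
    (hz : z ∈ HS 1) (hzb : z.re ≤ 2 * T + 1) :
    ‖Lx x (pw T z)‖ ≤ (12 - Real.log (x / 4)) + 1 / x * z.re := by
  have h0 := ep_pos hT
  have h1 := ep_le hT
  have hT0 : 0 < T := by linarith
  have hsq := ep_sq hT
  obtain ⟨hzx, hy⟩ := hz
  have hpi := Real.pi_lt_d2
  have hpi3 := Real.pi_gt_three
  have hy1 := abs_le.1 hy
  have e1 : |ep T * z.im| ≤ 1 / 100 * Real.pi := by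
    rw [abs_mul, abs_of_pos h0]
    gcongr
  have e2 := abs_le.1 e1
  have hrew := pw_re T z
  have himw := pw_im T z
  have hz0 : 0 < z.re := by linarith
  have hup : ‖pw T z - x‖ ≤ 6 := by
    refine (norm_sub_le _ _).trans ?_
    rw [Complex.norm_real, Real.norm_eq_abs, abs_of_pos hx]
    have h3 := Complex.norm_le_abs_re_add_abs_im (pw T z)
    have h4 : |(pw T z).re| ≤ 3 := by
      rw [hrew, abs_div, abs_of_pos hT0, div_le_iff₀ hT0, abs_le]
      constructor <;> linarith
    have h5 : |(pw T z).im| ≤ 1 := by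
      rw [himw, abs_div, abs_of_pos hT0, div_le_iff₀ hT0, abs_le]
      have : ep T * z.re ≤ 1 / 100 * (2 * T + 1) := by gcongr
      have : 0 < ep T * z.re := by positivity
      constructor <;> linarith
    linarith
  by_cases hc : z.re ≤ T * x / 2
  · -- left of the zero
    have h3 : x / 4 ≤ ‖pw T z - x‖ := by
      have h4 : |(pw T z - x).re| ≤ ‖pw T z - x‖ := Complex.abs_re_le_norm _
      have h5 : (pw T z - x).re = (pw T z).re - x := by simp
      rw [h5, hrew] at h4
      refine le_trans ?_ h4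
      rw [le_abs]
      right
      have h6 : (z.re - ep T * z.im) / T ≤ 3 * x / 4 := by
        rw [div_le_iff₀ hT0]
        have h7 : 1 / 100 * Real.pi ≤ x * T / 4 := by
          have h8 : 16 * ep T * T ≤ x * T := by gcongr
          have h9 : 1 ≤ ep T * T := by
            have : ep T * T * ep T = 1 := by rw [← hsq]; ring
            nlinarith
          nlinarith
        nlinarith
      linarith
    have h4 := norm_Lx_le (x := x) (w := pw T z) (δ := x / 4) (by positivity) (by linarith) h3 hup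
    have : 0 ≤ 1 / x * z.re := by positivity
    linarith
  · push Not at hc
    have h3 : x / 4 * ep T ≤ ‖pw T z - x‖ := by
      have h4 : |(pw T z - x).im| ≤ ‖pw T z - x‖ := Complex.abs_im_le_norm _
      have h5 : (pw T z - x).im = (pw T z).im := by simp
      rw [h5, himw] at h4
      refine le_trans ?_ h4
      rw [le_abs]
      left
      rw [le_div_iff₀ hT0]
      have h6 : ep T * (T * x / 2) ≤ ep T * z.re := by gcongr
      have h8 : 16 * ep T * (ep T * T) ≤ x * (ep T * T) := by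
        have : 0 < ep T * T := by positivity
        gcongr
      have h9 : 16 ≤ x * (ep T * T) := by nlinarith
      nlinarith
    have hepx : x / 4 * ep T ≤ 1 := by nlinarith
    have h4 := norm_Lx_le (x := x) (w := pw T z) (δ := x / 4 * ep T) (by positivity) hepx h3 hup
    have h5 : Real.log (x / 4 * ep T) = Real.log (x / 4) + Real.log (ep T) :=
      Real.log_mul (by positivity) h0.ne'
    have h6 : -Real.log (ep T) ≤ T / 2 := by
      have h7 : Real.log (ep T * ep T * T) = 0 := by rw [hsq, Real.log_one]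
      rw [Real.log_mul (by positivity) hT0.ne', Real.log_mul h0.ne' h0.ne'] at h7
      have h8 := Real.log_le_sub_one_of_pos hT0
      linarith
    have h7 : T / 2 ≤ 1 / x * z.re := by
      rw [one_div, inv_mul_eq_div, le_div_iff₀ hx]
      nlinarith
    rw [h5] at h4
    linarith

theorem Lx_tendsto {x : ℝ} (hx : 0 < x) (z : ℂ) :
    Tendsto (fun T => Lx x (pw T z)) atTop (𝓝 (log x + Real.pi * I)) := by
  have h1 : Tendsto (fun T => -I * (pw T z - x)) atTop (𝓝 (-I * (0 - x))) :=
    ((pw_tendsto z).sub_const _).const_mul _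
  have h2 : -I * (0 - (x : ℂ)) = ((x : ℝ) : ℂ) * I := by ring
  rw [h2] at h1
  have h3 : ((x : ℝ) : ℂ) * I ∈ slitPlane := by
    rw [Complex.mem_slitPlane_iff]
    right
    simp [hx.ne']
  have h4 : Tendsto (fun T => log (-I * (pw T z - x))) atTop (𝓝 (log (((x : ℝ) : ℂ) * I))) :=
    (continuousAt_clog h3).tendsto.comp h1
  have h5 : log (((x : ℝ) : ℂ) * I) = log x + (Real.pi / 2 : ℝ) * I := by
    rw [Complex.log_ofReal_mul hx I_ne_zero, Complex.log_I, Complex.ofReal_log hx.le]
    push_cast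
    ring
  rw [h5] at h4
  have h6 := h4.add_const (((Real.pi / 2 : ℝ) : ℂ) * I)
  unfold Lx
  have h7 : log (x : ℂ) + (Real.pi / 2 : ℝ) * I + ((Real.pi / 2 : ℝ) : ℂ) * I =
      log x + Real.pi * I := by
    push_cast; ring
  rw [h7] at h6
  exact h6

/-- `Lx` is a logarithm of `w - x` -/
theorem exp_Lx {x : ℝ} {w : ℂ} (h : w ≠ x) : exp (Lx x w) = w - x := by
  unfold Lx
  have h1 : -I * (w - x) ≠ 0 := mul_ne_zero (neg_ne_zero.2 I_ne_zero) (sub_ne_zero.2 h)
  have h2 : ((Real.pi / 2 : ℝ) : ℂ) * I = Real.pi / 2 * I := by push_cast; rfl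
  rw [Complex.exp_add, Complex.exp_log h1, h2, Complex.exp_pi_div_two_mul_I]
  linear_combination -(w - x) * I_mul_I

/-- `Lx` is real to the right of `x` -/
theorem Lx_real {x s : ℝ} (h : x < s) : Lx x s = (Real.log (s - x) : ℝ) := by
  unfold Lx
  have h1 : -I * ((s : ℂ) - x) = ((s - x : ℝ) : ℂ) * (-I) := by push_cast; ring
  rw [h1, Complex.log_ofReal_mul (by linarith) (neg_ne_zero.2 I_ne_zero), Complex.log_neg_I]
  push_cast
  ring

end Pool.Agent.W76.BK
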