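import Pool.Agent.W76.BK.Zeros

/-! Reality and the comparison of the rotated with the unrotated contour. -/

set_option autoImplicit false

namespace Pool.Agent.W76.BK

open Complex MeasureTheory Filter Topology Set
open Pool.Agent.W189.ML
open scoped Interval ComplexConjugate

theorem K_conj (z : ℂ) : K (conj z) = conj (K z) := by
  unfold K
  rw [← Complex.exp_conj, ← Complex.exp_conj]

theorem conj_mem {a : ℝ} {z : ℂ} (hz : z ∈ HS a) : conj z ∈ HS a := by
  obtain ⟨h1, h2⟩ := hz
  refine ⟨by simpa using h1, by simpa using h2⟩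

theorem V_real {a : ℝ} {Φ : ℂ → ℂ} (h : ∀ z ∈ HS a, Φ (conj z) = conj (Φ z)) : (V a Φ).im = 0 := by
  rw [← Complex.conj_eq_iff_im]
  unfold V
  rw [map_mul]
  congr 1
  · rw [map_inv₀, map_mul, Complex.conj_ofReal, map_ofNat]
  · have e1 : conj (∫ y in (-Real.pi)..Real.pi, K (a + y * I) * Φ (a + y * I)) =
        ∫ y in (-Real.pi)..Real.pi, conj (K (a + y * I) * Φ (a + y * I)) := by
      rw [intervalIntegral.integral_of_le (by linarith [Real.pi_pos]),
        intervalIntegral.integral_of_le (by linarith [Real.pi_pos])]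
      exact integral_conj.symm
    rw [e1]
    have e2 := intervalIntegral.integral_comp_neg (a := -Real.pi) (b := Real.pi)
      (fun y : ℝ => K (a + y * I) * Φ (a + y * I))
    rw [neg_neg] at e2
    rw [← e2]
    refine intervalIntegral.integral_congr fun y hy => ?_
    rw [uIcc_of_le (by linarith [Real.pi_pos])] at hy
    have h1 : ((a : ℂ) + ((-y : ℝ) : ℂ) * I) = conj ((a : ℂ) + y * I) := by
      rw [map_add, map_mul, Complex.conj_ofReal, Complex.conj_ofReal, Complex.conj_I]
      push_cast; ring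
    rw [h1, K_conj, h _ (vert_mem hy.1 hy.2), map_mul]

theorem rho_real {a : ℝ} {Φ : ℂ → ℂ} (h : ∀ z ∈ HS a, Φ (conj z) = conj (Φ z)) {x : ℝ}
    (hx : a ≤ x) : conj (rho Φ x) = rho Φ x := by
  unfold rho
  have h1 : ((x : ℂ) - Real.pi * I) = conj ((x : ℂ) + Real.pi * I) := by
    rw [map_add, map_mul, Complex.conj_ofReal, Complex.conj_ofReal, Complex.conj_I]
    ring
  rw [h1, h _ (up_mem hx)]
  simp only [map_mul, map_inv₀, map_sub, Complex.conj_ofReal, Complex.conj_I, Complex.conj_conj]
  have h2 : conj (2 : ℂ) = 2 := by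
    have := Complex.conj_ofReal 2
    simpa using this
  rw [h2]
  have hpi : (Real.pi : ℂ) ≠ 0 := by exact_mod_cast Real.pi_ne_zero
  have hI : I ≠ 0 := Complex.I_ne_zero
  field_simp
  ring

theorem J_real {a : ℝ} {Φ : ℂ → ℂ} (h : ∀ z ∈ HS a, Φ (conj z) = conj (Φ z)) : (J a Φ).im = 0 := by
  unfold J
  rw [Complex.add_im, V_real h, zero_add, ← Complex.conj_eq_iff_im]
  have e1 : conj (∫ x in Ioi a, rho Φ x) = ∫ x in Ioi a, conj (rho Φ x) := integral_conj.symm
  rw [e1]
  exact setIntegral_congr_fun measurableSet_Ioi fun x hx => rho_real h (le_of_lt hx)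

theorem J_log_real : (J 1 log).im = 0 := by
  refine J_real fun z hz => ?_
  refine Complex.log_conj _ ?_
  have h1 : z ∈ slitPlane := Or.inl (by have := hz.1; linarith)
  exact (Complex.mem_slitPlane_iff_arg.1 h1).1

variable {ι : Type} {lam : ι → ℝ} {c : ι → ℝ} {G : ℂ → ℂ}

/-- reflection principle -/
theorem G_conj (D : SData lam c G) (hG : ∀ x : ℝ, 0 < x → (G x).im = 0) {w : ℂ} (hw : 0 < w.re) :
    G (conj w) = conj (G w) := by
  set f : ℂ → ℂ := conj ∘ G ∘ conj with hf
  have ho : IsOpen {w : ℂ | 0 < w.re} := isOpen_lt continuous_const Complex.continuous_re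
  have hd : DifferentiableOn ℂ f {w : ℂ | 0 < w.re} := fun z hz => by
    have hz' : 0 < (conj z).re := by simpa using hz
    have h := (D.Gd (conj z) hz').conj_conj
    rw [Complex.conj_conj] at h
    exact h.differentiableWithinAt
  have hd2 : DifferentiableOn ℂ G {w : ℂ | 0 < w.re} := fun z hz =>
    (D.Gd z hz).differentiableWithinAt
  have h1 : AnalyticOnNhd ℂ f {w : ℂ | 0 < w.re} := hd.analyticOnNhd ho
  have h2 : AnalyticOnNhd ℂ G {w : ℂ | 0 < w.re} := hd2.analyticOnNhd ho
  have h3 : ∃ᶠ z in 𝓝[≠] (3 : ℂ), f z = G z := by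
    have hreal : ∀ w : ℝ, 0 < w → f w = G w := by
      intro w hw
      rw [hf]
      simp only [Function.comp_apply, Complex.conj_ofReal]
      rw [Complex.conj_eq_iff_im]
      exact hG w hw
    have h5 : Tendsto (fun n : ℕ => ((3 + 1 / ((n : ℝ) + 1) : ℝ) : ℂ)) atTop (𝓝[≠] (3 : ℂ)) := by
      rw [tendsto_nhdsWithin_iff]
      constructor
      · have h6 : Tendsto (fun n : ℕ => (3 + 1 / ((n : ℝ) + 1) : ℝ)) atTop (𝓝 (3 + 0)) :=
          tendsto_one_div_add_atTop_nhds_zero_nat.const_add 3
        rw [add_zero] at h6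
        have := (Complex.continuous_ofReal.tendsto 3).comp h6
        simpa [Function.comp_def] using this
      · refine Eventually.of_forall fun n => ?_
        simp only [mem_compl_iff, mem_singleton_iff]
        intro h
        have h7 : (3 + 1 / ((n : ℝ) + 1) : ℝ) = 3 := by exact_mod_cast h
        have h8 : (0 : ℝ) < 1 / ((n : ℝ) + 1) := by positivity
        linarith
    refine h5.frequently (Eventually.frequently (Eventually.of_forall fun n => ?_))
    refine hreal _ ?_
    positivity
  have hpre : IsPreconnected {w : ℂ | 0 < w.re} := (convex_halfSpace_re_gt 0).isPreconnected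
  have h4 := h1.eqOn_of_preconnected_of_frequently_eq h2 hpre (show (3 : ℂ) ∈ {w : ℂ | 0 < w.re} by
    simp) h3
  have h5 := h4 (show w ∈ {w : ℂ | 0 < w.re} from hw)
  rw [hf] at h5
  simp only [Function.comp_apply] at h5
  rw [← h5, Complex.conj_conj]

theorem HS_ratio {z : ℂ} (hz : z ∈ HS 1) : ‖z‖ ≤ 4.15 * z.re := by
  obtain ⟨h1, h2⟩ := hz
  have h3 := Complex.norm_le_abs_re_add_abs_im z
  rw [abs_of_nonneg (by linarith : 0 ≤ z.re)] at h3
  have := Real.pi_lt_d2
  linarith

/-- the rotation does not matter for `G` -/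
theorem G_rot (D : SData lam c G) : ∃ C : ℝ, 0 ≤ C ∧ ∀ T : ℝ, 10000 ≤ T → ∀ z ∈ HS 1,
    ‖G (pw T z) - G (z / T)‖ ≤ C * ep T ∧ ‖G (z / T)‖ ≤ C ∧ ‖G (pw T z)‖ ≤ C := by
  obtain ⟨C₀, hC₀⟩ := D.Gb
  set C := max C₀ 0 with hC
  have hC0 : 0 ≤ C := le_max_right _ _
  refine ⟨50 * (2 * C + 1), by positivity, fun T hT z hz => ?_⟩
  have h0 := ep_pos hT
  have h1 := ep_le hT
  have hT0 : 0 < T := by linarith
  set w : ℂ := z / T with hw
  have hz1 : 1 ≤ z.re := hz.1
  have hwre : w.re = z.re / T := by rw [hw, Complex.div_ofReal_re]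
  have hwn : ‖w‖ = ‖z‖ / T := by
    rw [hw, norm_div, Complex.norm_real, Real.norm_eq_abs, abs_of_pos hT0]
  have hw0 : 0 < w.re := by rw [hwre]; positivity
  have hrat : ‖w‖ ≤ 4.15 * w.re := by
    rw [hwn, hwre, ← mul_div_assoc]
    have := HS_ratio hz
    gcongr
  have hwn0 : 0 < ‖w‖ := hw0.trans_le (Complex.re_le_norm w)
  have hball : ∀ u : ℂ, dist u w < ‖w‖ / 50 → 0 < u.re ∧ ‖u‖ ≤ 5 * u.re := by
    intro u hu
    rw [dist_eq_norm] at hu
    have e1 := Complex.abs_re_le_norm (u - w)
    rw [Complex.sub_re] at e1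
    have e2 := (abs_le.1 e1).1
    have e3 : ‖u‖ ≤ ‖w‖ + ‖u - w‖ := by
      have := norm_add_le w (u - w)
      rwa [add_sub_cancel] at this
    constructor <;> nlinarith
  have hGb : ∀ u : ℂ, dist u w < ‖w‖ / 50 → ‖G u‖ ≤ C := fun u hu =>
    (hC₀ u (hball u hu).1 (hball u hu).2).trans (le_max_left _ _)
  have hww : dist w w < ‖w‖ / 50 := by rw [dist_self]; positivity
  have hGw := hGb w hww
  have hp : dist (pw T z) w < ‖w‖ / 50 := by
    rw [dist_eq_norm]
    have e1 : pw T z - w = (ep T : ℂ) * I * w := by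
      rw [hw]; unfold pw kf
      ring
    rw [e1, norm_mul, norm_mul, Complex.norm_I, mul_one, Complex.norm_real, Real.norm_eq_abs,
      abs_of_pos h0]
    nlinarith
  have hdist : dist (pw T z) w = ep T * ‖w‖ := by
    rw [dist_eq_norm]
    have e1 : pw T z - w = (ep T : ℂ) * I * w := by
      rw [hw]; unfold pw kf
      ring
    rw [e1, norm_mul, norm_mul, Complex.norm_I, mul_one, Complex.norm_real, Real.norm_eq_abs,
      abs_of_pos h0]
  have hsch := Complex.dist_le_div_mul_dist_of_mapsTo_ball (f := G) (c := w) (R₁ := ‖w‖ / 50)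
    (R₂ := 2 * C + 1) (z := pw T z)
    (fun u hu => (D.Gd u (hball u hu).1).differentiableWithinAt)
    (fun u hu => by
      rw [Metric.mem_closedBall, dist_eq_norm]
      have := norm_sub_le (G u) (G w)
      have := hGb u hu
      linarith) hp
  rw [hdist] at hsch
  refine ⟨?_, ?_, ?_⟩
  · rw [← dist_eq_norm]
    refine hsch.trans (le_of_eq ?_)
    field_simp
  · linarith
  · have := hGb _ hp
    linarith

/-- the imaginary part of the contribution of `G` disappears in the limit -/
theorem J_G_im (D : SData lam c G) (hG : ∀ x : ℝ, 0 < x → (G x).im = 0) :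
    Tendsto (fun T : ℝ => (J 1 (fun z => G (pw T z))).im) atTop (𝓝 0) ∧
    ∃ C : ℝ, ∀ T : ℝ, 10000 ≤ T → ‖J 1 (fun z => G (pw T z))‖ ≤ C := by
  obtain ⟨C, hC0, hC⟩ := G_rot D
  constructor
  · refine squeeze_zero_norm' (a := fun T => (Real.exp (Real.exp 1) + 1) * (C * ep T)) ?_ ?_
    · filter_upwards [eventually_ge_atTop 10000] with T hT
      have hT0 : 0 < T := by linarith
      have a1 : Adm 1 (fun z => G (pw T z)) := by
        refine ⟨?_, C, 0, hC0, le_rfl, fun z hz => by
          have := (hC T hT z hz).2.2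
          linarith⟩
        intro z hz
        have h1 := (D.Gd _ (pw_sector hT hz).1).continuousAt
        exact (ContinuousAt.comp (g := G) (f := pw T) h1
          (pw_cont T).continuousAt).continuousWithinAt
      have a2 : Adm 1 (fun z => G (z / T)) := by
        refine ⟨?_, C, 0, hC0, le_rfl, fun z hz => by
          have := (hC T hT z hz).2.1
          linarith⟩
        intro z hz
        have hzT : 0 < (z / (T : ℂ)).re := by
          rw [Complex.div_ofReal_re]
          have := hz.1
          positivity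
        have h1 := (D.Gd _ hzT).continuousAt
        exact (ContinuousAt.comp (g := G) (f := fun z : ℂ => z / T) h1
          (by fun_prop)).continuousWithinAt
      have e1 := J_sub zero_le_one a1 a2
      have e2 : (J 1 (fun z => G (z / T))).im = 0 := by
        refine J_real fun z hz => ?_
        have hzT : 0 < (z / (T : ℂ)).re := by
          rw [Complex.div_ofReal_re]
          have := hz.1
          positivity
        rw [← G_conj D hG hzT, map_div₀, Complex.conj_ofReal]
      have e3 : ‖J 1 (fun z => G (pw T z) - G (z / T))‖ ≤ (Real.exp (Real.exp 1) + 1) * (C * ep T) :=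
        norm_J_le zero_le_one fun z hz => (hC T hT z hz).1
      have e4 : (J 1 (fun z => G (pw T z))).im = (J 1 (fun z => G (pw T z) - G (z / T))).im := by
        rw [e1, Complex.sub_im, e2, sub_zero]
      rw [e4, Real.norm_eq_abs]
      exact (Complex.abs_im_le_norm _).trans e3
    · have := (ep_tendsto.const_mul C).const_mul (Real.exp (Real.exp 1) + 1)
      simpa using this
  · exact ⟨(Real.exp (Real.exp 1) + 1) * C, fun T hT =>
      norm_J_le zero_le_one fun z hz => (hC T hT z hz).2.2⟩

end Pool.Agent.W76.BK
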