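import Pool.Agent.W76.BK.Main2

/-! Dividing an entire function by its real zeros. -/

set_option autoImplicit false

namespace Pool.Agent.W76.BK

open Complex Filter Topology Set

/-- dividing out one zero -/
theorem divide_one {f : ℂ → ℂ} (hf : Differentiable ℂ f) (x₀ : ℂ) {m : ℕ}
    (hm : analyticOrderAt f x₀ = m) :
    ∃ g : ℂ → ℂ, Differentiable ℂ g ∧ (∀ w, f w = (w - x₀) ^ m * g w) ∧ g x₀ ≠ 0 := by
  have hfa : AnalyticAt ℂ f x₀ := hf.analyticAt x₀
  obtain ⟨G, hGa, hG0, hGe⟩ := (hfa.analyticOrderAt_eq_natCast).mp hm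
  set Q : ℂ → ℂ := fun w => if w = x₀ then G x₀ else f w / (w - x₀) ^ m with hQ
  have hQ0 : Q x₀ = G x₀ := by rw [hQ]; simp
  have hQe : Q =ᶠ[𝓝 x₀] G := by
    filter_upwards [hGe] with w hw
    rw [hQ]
    simp only
    split_ifs with h
    · rw [h]
    · rw [hw, smul_eq_mul]
      have : w - x₀ ≠ 0 := sub_ne_zero.2 h
      field_simp
  have hQa : ∀ w, AnalyticAt ℂ Q w := by
    intro w
    by_cases h : w = x₀
    · rw [h]
      exact hGa.congr hQe.symm
    · have h2 : Q =ᶠ[𝓝 w] fun w => f w / (w - x₀) ^ m := by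
        filter_upwards [isOpen_ne.mem_nhds h] with v hv
        rw [hQ]
        simp only
        rw [if_neg hv]
      refine AnalyticAt.congr ?_ h2.symm
      refine AnalyticAt.div (hf.analyticAt _) (by fun_prop) ?_
      exact pow_ne_zero _ (sub_ne_zero.2 h)
  refine ⟨Q, fun w => (hQa w).differentiableAt, fun w => ?_, by rw [hQ0]; exact hG0⟩
  by_cases h : w = x₀
  · have h3 := hGe.self_of_nhds
    rw [h, h3, hQ0, smul_eq_mul]
  · rw [hQ]
    simp only
    rw [if_neg h]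
    have : w - x₀ ≠ 0 := sub_ne_zero.2 h
    field_simp

/-- dividing out finitely many zeros -/
theorem divide_many {f : ℂ → ℂ} (hf : Differentiable ℂ f) (n : ℝ → ℕ)
    (hn : ∀ x : ℝ, analyticOrderAt f (x : ℂ) = n x) (S : Finset ℝ) :
    ∃ g : ℂ → ℂ, Differentiable ℂ g ∧ (∀ w, f w = (∏ x ∈ S, (w - x) ^ (n x)) * g w) ∧
      ∀ x ∈ S, g (x : ℂ) ≠ 0 := by
  classical
  induction S using Finset.induction_on with
  | empty => exact ⟨f, hf, fun w => by simp, fun x hx => absurd hx (Finset.notMem_empty x)⟩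
  | insert x₀ S hx₀ ih =>
    obtain ⟨g, hg, hfg, hgS⟩ := ih
    set P : ℂ → ℂ := fun w => ∏ x ∈ S, (w - x) ^ (n x) with hP
    have hPd : Differentiable ℂ P := by
      rw [hP]
      fun_prop
    have hP0 : P x₀ ≠ 0 := by
      rw [hP]
      simp only
      rw [Finset.prod_ne_zero_iff]
      intro x hx
      refine pow_ne_zero _ (sub_ne_zero.2 ?_)
      have : x₀ ≠ x := fun h => hx₀ (h ▸ hx)
      exact_mod_cast this
    have hord : analyticOrderAt g (x₀ : ℂ) = n x₀ := by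
      have h1 : f = P * g := by
        funext w
        rw [Pi.mul_apply]
        exact hfg w
      have h2 := hn x₀
      rw [h1, analyticOrderAt_mul (hPd.analyticAt _) (hg.analyticAt _)] at h2
      have h3 : analyticOrderAt P (x₀ : ℂ) = 0 := (hPd.analyticAt _).analyticOrderAt_eq_zero.2 hP0
      rw [h3, zero_add] at h2
      exact h2
    obtain ⟨g', hg', hgg', hg0⟩ := divide_one hg (x₀ : ℂ) hord
    refine ⟨g', hg', fun w => ?_, fun x hx => ?_⟩
    · rw [Finset.prod_insert hx₀, hfg w, hgg' w]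
      ring
    · rcases Finset.mem_insert.1 hx with h | h
      · rw [h]; exact hg0
      · intro h0
        refine hgS x h ?_
        rw [hgg' x, h0, mul_zero]

/-- the real zeros in `[0, 1]` are finite in number -/
theorem zeros_finite {f : ℂ → ℂ} (hf : Differentiable ℂ f) (h2 : f 2 ≠ 0) :
    {x : ℝ | x ∈ Icc (0 : ℝ) 1 ∧ f x = 0}.Finite := by
  by_contra hinf
  set Z : Set ℝ := {x : ℝ | x ∈ Icc (0 : ℝ) 1 ∧ f x = 0} with hZ
  have hinf' : Z.Infinite := hinf
  have hinj : Function.Injective (fun x : ℝ => (x : ℂ)) := Complex.ofReal_injective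
  have h3 : ((fun x : ℝ => (x : ℂ)) '' Z).Infinite := hinf'.image hinj.injOn
  have h4 : IsCompact ((fun x : ℝ => (x : ℂ)) '' Icc (0 : ℝ) 1) :=
    isCompact_Icc.image Complex.continuous_ofReal
  obtain ⟨z, hz, hacc⟩ := h3.exists_accPt_of_subset_isCompact h4 (image_mono fun x hx => hx.1)
  have h5 : ∃ᶠ w in 𝓝[≠] z, f w = 0 := by
    rw [accPt_iff_frequently] at hacc
    rw [frequently_nhdsWithin_iff]
    refine hacc.mono fun w hw => ?_
    obtain ⟨hw1, x, hx, hx2⟩ := hw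
    refine ⟨?_, hw1⟩
    rw [← hx2]
    exact hx.2
  have h6 : AnalyticOnNhd ℂ f univ := fun w _ => hf.analyticAt w
  have h7 := h6.eqOn_zero_of_preconnected_of_frequently_eq_zero isPreconnected_univ (mem_univ z) h5
  exact h2 (h7 (mem_univ 2))

/-- the factorisation -/
theorem factor {f : ℂ → ℂ} (hf : Differentiable ℂ f) (hreal : ∀ x : ℝ, (f x).im = 0)
    (hpos : 0 < (f 2).re) (hnz : ∀ x : ℝ, 1 < x → f x ≠ 0) (n : ℝ → ℕ)
    (hn : ∀ x : ℝ, analyticOrderAt f (x : ℂ) = n x) :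
    ∃ (S : Finset ℝ) (Q : ℂ → ℂ), (∀ x, x ∈ S ↔ 0 < x ∧ f x = 0) ∧ (∀ x ∈ S, 0 < x ∧ x ≤ 1) ∧
      Differentiable ℂ Q ∧ (∀ w, f w = w ^ (n 0) * (∏ x ∈ S, (w - x) ^ (n x)) * Q w) ∧
      ∀ x ∈ Icc (0 : ℝ) 3, (Q (x : ℂ)).im = 0 ∧ 0 < (Q (x : ℂ)).re := by
  classical
  have h2 : f 2 ≠ 0 := by
    intro h
    rw [h] at hpos
    simp at hpos
  have hfin := zeros_finite hf h2
  set Z : Finset ℝ := hfin.toFinset with hZ
  set S : Finset ℝ := Z.erase 0 with hS
  have hZmem : ∀ x, x ∈ Z ↔ x ∈ Icc (0 : ℝ) 1 ∧ f x = 0 := fun x => by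
    rw [hZ, Set.Finite.mem_toFinset]
    rfl
  have hSmem : ∀ x, x ∈ S ↔ 0 < x ∧ f x = 0 := by
    intro x
    rw [hS, Finset.mem_erase, hZmem]
    constructor
    · rintro ⟨h3, ⟨h4, -⟩, h5⟩
      exact ⟨lt_of_le_of_ne h4 (Ne.symm h3), h5⟩
    · rintro ⟨h3, h4⟩
      refine ⟨h3.ne', ⟨h3.le, ?_⟩, h4⟩
      by_contra h
      push Not at h
      exact hnz x h h4
  have hS1 : ∀ x ∈ S, 0 < x ∧ x ≤ 1 := by
    intro x hx
    rw [hS, Finset.mem_erase, hZmem] at hx
    exact ⟨lt_of_le_of_ne hx.2.1.1 (Ne.symm hx.1), hx.2.1.2⟩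
  have h0S : (0 : ℝ) ∉ S := by rw [hS]; simp
  obtain ⟨Q, hQd, hQf, hQS⟩ := divide_many hf n hn (insert 0 S)
  have hQf' : ∀ w, f w = w ^ (n 0) * (∏ x ∈ S, (w - x) ^ (n x)) * Q w := by
    intro w
    rw [hQf w, Finset.prod_insert h0S]
    simp
  refine ⟨S, Q, hSmem, hS1, hQd, hQf', ?_⟩
  -- the real factor
  set R : ℝ → ℝ := fun x => ∏ y ∈ insert 0 S, (x - y) ^ (n y) with hR
  have hRc : ∀ x : ℝ, f x = (R x : ℂ) * Q x := by
    intro x
    rw [hQf x, hR]
    push_cast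
    rfl
  have hRne : ∀ x : ℝ, x ∉ insert 0 S → R x ≠ 0 := by
    intro x hx
    rw [hR]
    simp only
    rw [Finset.prod_ne_zero_iff]
    intro y hy
    refine pow_ne_zero _ (sub_ne_zero.2 ?_)
    exact fun h => hx (h ▸ hy)
  have hcont : Continuous fun x : ℝ => Q (x : ℂ) := hQd.continuous.comp Complex.continuous_ofReal
  have hre' : ∀ x : ℝ, x ∉ insert 0 S → (Q (x : ℂ)).im = 0 := by
    intro x hx
    have h3 := congrArg Complex.im (hRc x)
    rw [hreal x, Complex.im_ofReal_mul] at h3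
    rcases mul_eq_zero.1 h3.symm with h | h
    · exact absurd h (hRne x hx)
    · exact h
  have hre : ∀ x : ℝ, (Q (x : ℂ)).im = 0 := by
    intro x
    have h3 : IsClosed {x : ℝ | (Q (x : ℂ)).im = 0} :=
      isClosed_eq (Complex.continuous_im.comp hcont) continuous_const
    have h4 : Dense (univ \ ((insert 0 S : Finset ℝ) : Set ℝ)) := dense_univ.diff_finset _
    have h5 : closure (univ \ ((insert 0 S : Finset ℝ) : Set ℝ)) ⊆ {x : ℝ | (Q (x : ℂ)).im = 0} :=
      h3.closure_subset_iff.2 fun x hx => hre' x (by simpa using hx.2)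
    rw [h4.closure_eq] at h5
    exact h5 (mem_univ x)
  have hQne : ∀ x ∈ Icc (0 : ℝ) 3, Q (x : ℂ) ≠ 0 := by
    intro x hx h0
    have h3 : f x = 0 := by rw [hRc x, h0, mul_zero]
    refine hQS x ?_ h0
    rw [Finset.mem_insert]
    by_cases h : x = 0
    · exact Or.inl h
    · right
      rw [hSmem]
      exact ⟨lt_of_le_of_ne hx.1 (Ne.symm h), h3⟩
  have hR2 : 0 < R 2 := by
    rw [hR]
    simp only
    refine Finset.prod_pos fun y hy => pow_pos ?_ _
    rcases Finset.mem_insert.1 hy with h | h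
    · rw [h]; norm_num
    · have := (hS1 y h).2
      linarith
  have hQ2 : 0 < (Q ((2 : ℝ) : ℂ)).re := by
    have h3 := congrArg Complex.re (hRc 2)
    rw [Complex.re_ofReal_mul] at h3
    have h4 : 0 < R 2 * (Q ((2 : ℝ) : ℂ)).re := by
      rw [← h3]
      simpa using hpos
    exact (mul_pos_iff_of_pos_left hR2).1 h4
  intro x hx
  refine ⟨hre x, ?_⟩
  by_contra hneg
  push Not at hneg
  have hcr : ContinuousOn (fun x : ℝ => (Q (x : ℂ)).re) (uIcc x 2) :=
    (Complex.continuous_re.comp hcont).continuousOn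
  have h3 := intermediate_value_uIcc hcr
  have h4 : (0 : ℝ) ∈ uIcc (Q (x : ℂ)).re (Q ((2 : ℝ) : ℂ)).re := by
    rw [mem_uIcc]
    exact Or.inl ⟨hneg, hQ2.le⟩
  obtain ⟨y, hy1, hy2⟩ := h3 h4
  have hy3 : y ∈ Icc (0 : ℝ) 3 := by
    rw [mem_uIcc] at hy1
    rcases hy1 with h | h
    · exact ⟨hx.1.trans h.1, h.2.trans (by norm_num)⟩
    · exact ⟨(by norm_num : (0 : ℝ) ≤ 2).trans h.1, h.2.trans hx.2⟩
  refine hQne y hy3 ?_
  apply Complex.ext
  · simpa using hy2
  · simpa using hre y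

end Pool.Agent.W76.BK
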